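import Pool.Agent.MP_a001a6_co.Lit

/-! Bit-vector programs evaluated by the kernel. -/

namespace Pool.Agent.MP_a001a6_co

noncomputable section

def ones (n : Nat) : Nat := Nat.sub (Nat.shiftLeft 1 n) 1

def sqr (k : Nat) : Nat := Nat.mul k k

def getB (T W r l : Nat) : Nat :=
  Bool.rec (motive := fun _ => Nat) (ones l) (Nat.land (Nat.shiftRight W r) (ones l))
    (Nat.ble (Nat.add r l) T)

def nx (k : Nat) : Nat := Nat.div (Nat.mul k 14142135623730950488) 10000000000000000000

def seg3 (f : Nat → Nat → Nat → Nat) (s len k a b e : Nat) : Nat :=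
  Bool.rec (motive := fun _ => Nat) (ones len)
    (Bool.rec (motive := fun _ => Nat)
      (Bool.rec (motive := fun _ => Nat) (ones len)
        (Bool.rec (motive := fun _ => Nat) (ones len)
          (Nat.lor (f k (Nat.sub s a) (Nat.sub b s))
            (Nat.shiftLeft (f (Nat.succ k) 0 (Nat.sub e b)) (Nat.sub b s)))
          (Nat.ble e (sqr (Nat.add k 2))))
        (Nat.ble s b))
      (f k (Nat.sub s a) len)
      (Nat.ble e b))
    (Nat.ble a s)

def seg2 (f : Nat → Nat → Nat → Nat) (s len k : Nat) : Nat :=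
  seg3 f s len k (Nat.mul k k) (sqr (Nat.succ k)) (Nat.add s len)

def seg (f : Nat → Nat → Nat → Nat) (s len g : Nat) : Nat :=
  Bool.rec (motive := fun _ => Nat) (seg2 f s len g) (seg2 f s len (Nat.succ g))
    (Nat.ble (sqr (Nat.succ g)) s)

structure Lv where
  tw : Nat
  w : Nat
  tl : Nat
  l : Nat

def stepN (tl l : Nat) (ih : Nat → Nat → Nat → Nat) (m r len : Nat) : Nat :=
  Nat.lor (getB tl l r len) (seg ih (Nat.add (Nat.mul 2 (Nat.mul m m)) r) len (nx m))

def evP (ls : List Lv) : Nat → Nat → Nat → Nat :=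
  List.rec (motive := fun _ => Nat → Nat → Nat → Nat) (fun _ _ len => ones len)
    (fun v _ ih k r len =>
      Bool.rec (motive := fun _ => Nat)
        (Nat.land (getB v.tw v.w r len)
          (seg (stepN v.tl v.l ih) (Nat.add (Nat.mul 2 (Nat.mul k k)) r) len (nx k)))
        (getB v.tw v.w r len) (Nat.beq v.tl 0)) ls

def cap (t : Nat) : Nat := cond (Nat.ble t 524288) t 524288

def mkL (n : Nat) : Nat → List Lv :=
  Nat.rec (motive := fun _ => Nat → List Lv)
    (fun k => [⟨cap (Nat.add (Nat.mul 2 k) 2), Nat.land Wb (ones (cap (Nat.add (Nat.mul 2 k) 2))), 0, 0⟩])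
    (fun _ ih k =>
      ⟨cap (Nat.add (Nat.mul 2 k) 2), Nat.land Wb (ones (cap (Nat.add (Nat.mul 2 k) 2))),
        cap (Nat.add (Nat.mul 2 (nx k)) 6), Nat.land Lb (ones (cap (Nat.add (Nat.mul 2 (nx k)) 6)))⟩
        :: ih (Nat.mul 2 k)) n

/-! ### counting bits -/

def hd (l : List Nat) : Nat := List.rec (motive := fun _ => Nat) 0 (fun a _ _ => a) l

def tl (l : List Nat) : List Nat := List.rec (motive := fun _ => List Nat) [] (fun _ t _ => t) l

def vstep (ih : List Nat → Nat → List Nat) (a b x c : Nat) (bs : List Nat) : List Nat :=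
  Nat.xor x c :: ih bs (Nat.lor (Nat.land a b) (Nat.land c x))

def vadd (as : List Nat) : List Nat → Nat → List Nat :=
  List.rec (motive := fun _ => List Nat → Nat → List Nat) (fun _ c => [c])
    (fun a _ ih bs c => vstep ih a (hd bs) (Nat.xor a (hd bs)) c (tl bs)) as

def vadd0 (as bs : List Nat) : List Nat :=
  Nat.xor (hd as) (hd bs) :: vadd (tl as) (tl bs) (Nat.land (hd as) (hd bs))

def vsum (f : Nat → Nat) (d : Nat) : Nat → List Nat :=
  Nat.rec (motive := fun _ => Nat → List Nat) (fun k => [f k])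
    (fun d ih k => vadd0 (ih k) (ih (Nat.add k (Nat.shiftLeft 1 d)))) d

def rep16 (J : Nat) : Nat := Nat.div (ones (Nat.mul 16 J)) 65535

def pc (M x : Nat) : Nat :=
  Bool.rec (motive := fun _ => Nat)
    (Nat.rec (motive := fun _ => Nat) 0
      (fun i ih => Nat.add ih (Nat.mod (Nat.land (Nat.shiftRight x i) M) 65535)) 16)
    0 (Nat.beq x 0)

def vtot (M : Nat) (l : List Nat) : Nat :=
  List.rec (motive := fun _ => Nat) 0 (fun a _ ih => Nat.add (pc M a) (Nat.mul 2 ih)) l

def cnt (ls : List Lv) (M d k0 : Nat) : Nat :=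
  vtot M (vsum (fun k => evP ls k 0 (Nat.succ (Nat.mul 2 k))) d k0)

def cntList (ls : List Lv) (M d : Nat) (n : Nat) : Nat → List Nat :=
  Nat.rec (motive := fun _ => Nat → List Nat) (fun _ => [])
    (fun _ ih k0 => cnt ls M d k0 :: ih (Nat.add k0 (Nat.shiftLeft 1 d))) n

/-- `n` groups of `2 ^ d` blocks from `k0` on, evaluated to depth `2 * dep + 1` -/
def m1 (dep d n k0 : Nat) : List Nat :=
  cntList (mkL dep (Nat.add k0 (Nat.shiftLeft n d)))
    (rep16 (Nat.succ (Nat.div (Nat.add k0 (Nat.shiftLeft n d)) 8))) d n k0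

/-! ### the base check -/

def allT (f : Nat → Bool) (d : Nat) : Nat → Bool :=
  Nat.rec (motive := fun _ => Nat → Bool) (fun k => f k)
    (fun d ih k => ih k && ih (Nat.add k (Nat.shiftLeft 1 d))) d

def sub (x y : Nat) : Bool := Nat.beq (Nat.land x y) x

def baseK (ls : List Lv) (tl l : Nat) (k : Nat) : Bool :=
  cond (Nat.ble k 724)
    (sub (evP ls k 0 (Nat.succ (Nat.mul 2 k)))
        (Nat.lor (Nat.shiftRight Lb (sqr k)) (Nat.shiftLeft (ones 2000) (Nat.sub 524288 (sqr k)))) &&
      sub (stepN tl l (evP ls) k 0 (Nat.succ (Nat.mul 2 k)))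
        (Nat.lor (Nat.shiftRight Wb (sqr k)) (Nat.shiftLeft (ones 2000) (Nat.sub 524288 (sqr k)))))
    true

def baseChk : Bool :=
  allT (baseK (mkL 4 2000) 2000 (Nat.land Lb (ones 2000))) 10 1

end

end Pool.Agent.MP_a001a6_co
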