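import Pool.Agent.MP_a001a6_co.Comp

/-! Correlation counts by one big multiplication. -/

namespace Pool.Agent.MP_a001a6_co

noncomputable section

inductive Tr where
  | leaf (n : Nat) : Tr
  | node (l r : Tr) : Tr

def offAt (p i : Nat) : Nat := Nat.land (Nat.shiftRight p (Nat.add 5 (Nat.mul 14 i))) 16383

def bitsF (w p : Nat) : Nat :=
  Nat.rec (motive := fun _ => Nat) 0
    (fun i ih => Nat.lor ih (Nat.shiftLeft 1 (Nat.mul w (offAt p i)))) (Nat.land p 31)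

def bitsR (e p : Nat) : Nat :=
  Nat.rec (motive := fun _ => Nat) 0
    (fun i ih => Nat.lor ih (Nat.shiftLeft 1 (Nat.mul 20 (Nat.sub e (offAt p i))))) (Nat.land p 31)

def band (a b : Bool) : Bool := Bool.rec (motive := fun _ => Bool) false b a

def chkT (f : Nat → Nat → Bool) (t : Tr) : Nat → Nat → Bool :=
  Tr.rec (motive := fun _ => Nat → Nat → Bool)
    (fun p sz j => band (Nat.beq sz 1) (f j p))
    (fun _ _ ihl ihr sz j =>
      band (ihl (Nat.div sz 2) j) (ihr (Nat.sub sz (Nat.div sz 2)) (Nat.add j (Nat.div sz 2)))) t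

def catF (blk : Nat → Nat → Nat) (J : Nat) (t : Tr) : Nat → Nat → Nat :=
  Tr.rec (motive := fun _ => Nat → Nat → Nat)
    (fun p _ j => blk j p)
    (fun _ _ ihl ihr sz j =>
      Bool.rec (motive := fun _ => Nat)
        (Nat.lor (ihl (Nat.div sz 2) j)
          (Nat.shiftLeft (ihr (Nat.sub sz (Nat.div sz 2)) (Nat.add j (Nat.div sz 2)))
            (Nat.mul 20 (Nat.sub (sqr (Nat.add j (Nat.div sz 2))) (sqr j)))))
        (ihl (Nat.div sz 2) j)
        (Nat.ble J (Nat.add j (Nat.div sz 2)))) t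

def mn (a b : Nat) : Nat := Bool.rec (motive := fun _ => Nat) b a (Nat.ble a b)

def mx (a b : Nat) : Nat := Bool.rec (motive := fun _ => Nat) a b (Nat.ble a b)

def catR (blk : Nat → Nat → Nat) (J : Nat) (t : Tr) : Nat → Nat → Nat :=
  Tr.rec (motive := fun _ => Nat → Nat → Nat)
    (fun p _ j => blk j p)
    (fun _ _ ihl ihr sz j =>
      Bool.rec (motive := fun _ => Nat)
        (Nat.lor (ihr (Nat.sub sz (Nat.div sz 2)) (Nat.add j (Nat.div sz 2)))
          (Nat.shiftLeft (ihl (Nat.div sz 2) j)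
            (Nat.mul 20 (Nat.sub (sqr (mn (Nat.add j sz) J)) (sqr (Nat.add j (Nat.div sz 2)))))))
        (ihl (Nat.div sz 2) j)
        (Nat.ble J (Nat.add j (Nat.div sz 2)))) t

def cntT (c J : Nat) (t : Tr) : Nat → Nat → Nat :=
  Tr.rec (motive := fun _ => Nat → Nat → Nat)
    (fun p _ _ => Nat.add c (Nat.land p 31))
    (fun _ _ ihl ihr sz j =>
      Bool.rec (motive := fun _ => Nat)
        (Nat.add (ihl (Nat.div sz 2) j) (ihr (Nat.sub sz (Nat.div sz 2)) (Nat.add j (Nat.div sz 2))))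
        (ihl (Nat.div sz 2) j)
        (Nat.ble J (Nat.add j (Nat.div sz 2)))) t

/-- check of one block of the sparse list of P-positions -/
def okL (ls : List Lv) (j p : Nat) : Bool :=
  sub (Nat.lor (evP ls j 0 (Nat.succ (Nat.mul 2 j))) (Nat.sub 1 j)) (bitsF 1 p)

/-- check of one block of the sparse list of positions whose upward move is a P-position -/
def okW (ls : List Lv) (j p : Nat) : Bool :=
  sub (seg (evP ls) (Nat.mul 2 (sqr j)) (Nat.succ (Nat.mul 2 j)) (nx j)) (bitsF 1 p)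

def spL (J : Nat) (t : Tr) (sz : Nat) : Nat := catF (fun _ p => bitsF 20 p) J t sz 0

def spLR (J : Nat) (t : Tr) (sz : Nat) : Nat := catR (fun j p => bitsR (Nat.mul 2 j) p) J t sz 0

def spW (LF J : Nat) (t : Tr) (sz : Nat) : Nat :=
  catF (fun j p => Nat.lor (Nat.land LF (ones (Nat.mul 20 (Nat.succ (Nat.mul 2 j))))) (bitsF 20 p))
    J t sz 0

def spWR (LR e J : Nat) (t : Tr) (sz : Nat) : Nat :=
  catR (fun j p => Nat.lor (Nat.shiftRight LR (Nat.mul 20 (Nat.sub e (Nat.mul 2 j))))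
      (bitsR (Nat.mul 2 j) p)) J t sz 0

def at20 (pk i : Nat) : Nat := Nat.land (Nat.shiftRight pk (Nat.mul 20 i)) 1048575

def leafOK (O H Y c : Nat) : Bool :=
  band (Nat.ble c 524287) (Nat.beq (Nat.land (Nat.add Y (Nat.mul (Nat.sub 524287 c) O)) H) 0)

def chkB (om O H pk d : Nat) : Nat → Nat → Bool :=
  Nat.rec (motive := fun _ => Nat → Nat → Bool) (fun Y i => leafOK O H Y (at20 pk i))
    (fun d ih Y i =>
      band (ih (Nat.land Y (ones (Nat.shiftLeft (Nat.mul 20 om) d))) i)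
        (ih (Nat.shiftRight Y (Nat.shiftLeft (Nat.mul 20 om) d)) (Nat.add i (Nat.shiftLeft 1 d)))) d

def rep20 (om : Nat) : Nat := Nat.div (ones (Nat.mul 20 om)) 1048575

def chkY (om NA pn pp O Y : Nat) : Bool :=
  band (chkB om O (Nat.shiftLeft O 19) pn 4 (Nat.land Y (ones (Nat.mul 20 (Nat.sub NA 1)))) 0)
    (chkB om O (Nat.shiftLeft O 19) pp 5 (Nat.shiftRight Y (Nat.mul 20 NA)) 0)

/-- all lanes of the product are bounded by the two tables -/
def chkP (AR NAf BF om NA NB pn pp : Nat) : Bool :=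
  band (Nat.ble NA NAf) (band (Nat.ble NA (Nat.mul 16 om)) (band (Nat.ble NB (Nat.mul 32 om))
    (chkY om NA pn pp (rep20 om)
      (Nat.mul (Nat.shiftRight AR (Nat.mul 20 (Nat.sub NAf NA))) (Nat.land BF (ones (Nat.mul 20 NB)))))))

def maxR (pk lo hi : Nat) : Nat :=
  Nat.rec (motive := fun _ => Nat) 0 (fun i ih => mx ih (at20 pk (Nat.add lo i)))
    (Nat.sub (Nat.succ hi) lo)

def envP (pp om lo hi : Nat) : Nat :=
  maxR pp (Nat.div (Nat.sub lo 1) om) (Nat.div (Nat.sub hi 1) om)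

def envN (pn om NA lo hi : Nat) : Nat :=
  Bool.rec (motive := fun _ => Nat)
    (maxR pn (Nat.div (Nat.sub (Nat.sub NA 1) hi) om) (Nat.div (Nat.sub (Nat.sub NA 1) lo) om))
    0 (Nat.ble NA lo)

def allN (f : Nat → Bool) (n : Nat) : Bool :=
  Nat.rec (motive := fun _ => Bool) true (fun i ih => band ih (f i)) n

structure Wn where
  k1 : Nat
  k2 : Nat
  c : Nat
  pn : Nat
  pp : Nat

def omOf (k2 : Nat) : Nat := Nat.succ (Nat.div k2 8)

def geoOK (k1 k2 : Nat) : Bool :=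
  band (Nat.ble 100 k1) (band (Nat.ble (sqr (nx k1)) (Nat.mul 2 (sqr k1)))
    (band (Nat.ble (Nat.mul 2 (sqr k2)) (sqr (Nat.succ (nx k2))))
      (Nat.ble (Nat.mul 2 (nx k2)) (Nat.mul 24 (omOf k2)))))

def binW (v : Wn) (om g0 g1 : Nat) : Bool :=
  Nat.ble (Nat.add (Nat.add (envN v.pn om (Nat.mul 2 v.k2) g0 g1)
      (envP v.pp om (Nat.sub (Nat.sub (Nat.mul 4 v.k1) 1) g1) (Nat.sub (Nat.mul 4 v.k2) g0)))
    (Bool.rec (motive := fun _ => Nat) 0
      (envP v.pp om (Nat.sub (Nat.succ (Nat.mul 2 (nx v.k1))) g1)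
        (mn (Nat.sub (Nat.succ (Nat.mul 2 (nx v.k2))) g0) (Nat.mul 2 v.k2)))
      (Nat.ble (Nat.sub (Nat.succ (Nat.mul 2 (nx v.k1))) g1) (Nat.mul 2 v.k2)))) v.c

def binL (v : Wn) (om g0 g1 : Nat) : Bool :=
  Nat.ble (Nat.add (envP v.pp om g0 g1)
    (envN v.pn om (Nat.mul 2 v.k2) (Nat.sub (Nat.succ (Nat.mul 2 (nx v.k1))) g1)
      (Nat.sub (Nat.succ (Nat.mul 2 (nx v.k2))) g0))) v.c

def winW (AR NAf BF NBf : Nat) (v : Wn) : Bool :=
  band (geoOK v.k1 v.k2) (band (Nat.ble (Nat.mul 4 v.k2) NBf)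
    (band (allN (fun i => binW v (omOf v.k2) (Nat.succ (Nat.mul i (omOf v.k2)))
        (Nat.mul (Nat.succ i) (omOf v.k2))) 24)
      (chkP AR NAf BF (omOf v.k2) (Nat.mul 2 v.k2) (Nat.mul 4 v.k2) v.pn v.pp)))

def winL (AR NAf BF NBf : Nat) (v : Wn) : Bool :=
  band (geoOK v.k1 v.k2) (band (Nat.ble (Nat.add (Nat.mul 2 (nx v.k2)) 3) NBf)
    (band (allN (fun i => binL v (omOf v.k2) (Nat.succ (Nat.mul i (omOf v.k2)))
        (Nat.mul (Nat.succ i) (omOf v.k2))) 24)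
      (chkP AR NAf BF (omOf v.k2) (Nat.mul 2 v.k2) (Nat.add (Nat.mul 2 (nx v.k2)) 3) v.pn v.pp)))

def allL (f : Wn → Bool) (l : List Wn) : Bool :=
  List.rec (motive := fun _ => Bool) true (fun v _ ih => band (f v) ih) l

/-- `tl`, `tw` are the two sparse lists with `sl`, `sw` blocks -/
def modW (tl tw : Tr) (sl sw J0 JA JB : Nat) (l : List Wn) : Bool :=
  band (Nat.ble J0 sl) (band (Nat.ble JA sw) (band (Nat.ble JB sw)
    (band (Nat.ble (Nat.mul 2 JA) (sqr J0)) (band (Nat.ble (Nat.mul 2 JB) (sqr J0))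
    (band (Nat.ble (cntT (cntT 0 J0 tl sl 0) JA tw sw 0) 524287)
      (allL (winW (spWR (spLR J0 tl sl) (Nat.sub (sqr J0) 1) JA tw sw) (sqr JA)
        (spW (spL J0 tl sl) JB tw sw) (sqr JB)) l))))))

def modL (tl tw : Tr) (sl sw J0 JA JB : Nat) (l : List Wn) : Bool :=
  band (Nat.ble J0 sl) (band (Nat.ble JA sw) (band (Nat.ble JB sl)
    (band (Nat.ble (Nat.mul 2 JA) (sqr J0))
    (band (Nat.ble (cntT (cntT 0 J0 tl sl 0) JA tw sw 0) 524287)
      (allL (winL (spWR (spLR J0 tl sl) (Nat.sub (sqr J0) 1) JA tw sw) (sqr JA)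
        (spL JB tl sl) (sqr JB)) l)))))

end

end Pool.Agent.MP_a001a6_co
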