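import Pool.Agent.MP_a001a6_co.Comp2

/-! Tables of upper bounds for the counting functions and the chain of windows. -/

namespace Pool.Agent.MP_a001a6_co

noncomputable section

/-- `force x f = f x`, evaluating `x` first -/
def force (x : Nat) (f : Nat → Bool) : Bool :=
  Nat.rec (motive := fun _ => Bool) (f 0) (fun n _ => f (Nat.succ n)) x

/-- `forceL l f = f l`, evaluating the head of `l` first -/
def forceL (l : List (Nat × Nat)) (f : List (Nat × Nat) → Bool) : Bool :=
  List.rec (motive := fun _ => Bool) (f []) (fun a t _ => f (a :: t)) l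

def app (l m : List (Nat × Nat)) : List (Nat × Nat) :=
  List.rec (motive := fun _ => List (Nat × Nat)) m (fun a _ ih => a :: ih) l

def pairs (s : Nat) (l : List Nat) : List (Nat × Nat) :=
  List.rec (motive := fun _ => List (Nat × Nat)) [] (fun c _ ih => (s, c) :: ih) l

def repl (n : Nat) (e : Nat × Nat) (m : List (Nat × Nat)) : List (Nat × Nat) :=
  Nat.rec (motive := fun _ => List (Nat × Nat)) m (fun _ ih => e :: ih) n

def inc2 (v u : Wn) (k s : Nat) (rest : List (Nat × Nat)) : List (Nat × Nat) :=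
  Bool.rec (motive := fun _ => List (Nat × Nat)) []
    (repl 32 (s, Nat.mul s (Nat.add v.c u.c)) rest)
    (band (Nat.beq v.k1 k) (band (Nat.beq u.k1 k) (band (Nat.beq u.k2 v.k2)
      (Nat.beq (Nat.add k (Nat.mul 32 s)) v.k2))))

/-- increments produced by the two lists of correlation windows, starting at block `k` -/
def incs2 (lW : List Wn) : List Wn → Nat → List (Nat × Nat) :=
  List.rec (motive := fun _ => List Wn → Nat → List (Nat × Nat)) (fun _ _ => [])
    (fun v _ ih lL k =>
      List.rec (motive := fun _ => List (Nat × Nat)) []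
        (fun u t _ => inc2 v u k (Nat.div (Nat.sub v.k2 k) 32) (ih t v.k2)) lL) lW

/-- the table `tab` dominates the partial sums of the increments -/
def chkCum (tab : List (Nat × Nat)) : List (Nat × Nat) → Nat → Nat → Bool :=
  List.rec (motive := fun _ => List (Nat × Nat) → Nat → Nat → Bool) (fun _ _ _ => true)
    (fun e _ ih incs k C =>
      List.rec (motive := fun _ => Bool) false
        (fun i t _ => band (Nat.beq e.1 (Nat.add k i.1))
          (band (Nat.ble (Nat.add C i.2) e.2) (ih t e.1 e.2))) incs) tab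

def adv (tab : List (Nat × Nat)) (y : Nat) : List (Nat × Nat) :=
  List.rec (motive := fun _ => List (Nat × Nat)) []
    (fun e t ih => Bool.rec (motive := fun _ => List (Nat × Nat)) ih (e :: t) (Nat.ble y (sqr e.1))) tab

def look (tab : List (Nat × Nat)) (y : Nat) : Nat :=
  List.rec (motive := fun _ => Nat) y
    (fun e _ _ => Bool.rec (motive := fun _ => Nat) y e.2 (Nat.ble y (sqr e.1))) tab

/-- check of the table for the N-positions; `p1`, `p2` are tails of the table for the P-positions -/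
def chkN (tab : List (Nat × Nat)) : Nat → Nat → List (Nat × Nat) → List (Nat × Nat) → Bool :=
  List.rec (motive := fun _ => Nat → Nat → List (Nat × Nat) → List (Nat × Nat) → Bool)
    (fun _ _ _ _ => true)
    (fun e _ ih k U p1 p2 =>
      forceL (adv p1 (Nat.mul 2 e.1)) fun q1 =>
      forceL (adv p2 (Nat.mul 2 (sqr e.1))) fun q2 =>
      force (Nat.add U (Nat.mul (Nat.sub e.1 k) (look q1 (Nat.mul 2 e.1)))) fun V =>
      band (Nat.ble (Nat.add V (look q2 (Nat.mul 2 (sqr e.1)))) e.2) (ih e.1 V q1 q2)) tab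

/-- density check along the table, then the continuation at the last entry -/
def densChk (cont : Nat → Nat → Bool) (tab : List (Nat × Nat)) : Nat → Nat → Bool :=
  List.rec (motive := fun _ => Nat → Nat → Bool) cont
    (fun e _ ih k _ =>
      band (Bool.rec (motive := fun _ => Bool)
          (Nat.ble (Nat.mul 10000 e.2) (Nat.mul 115 (mx (sqr k) 30276))) true (Nat.ble e.1 173))
        (ih e.1 e.2)) tab

/-! ### one window -/

def newton (n x : Nat) (it : Nat) : Nat :=
  Nat.rec (motive := fun _ => Nat) x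
    (fun _ ih => Nat.div (Nat.add ih (Nat.div n ih)) 2) it

def sqC (a b s : Nat) : Nat :=
  Bool.rec (motive := fun _ => Nat) (Nat.add a b) s (Nat.ble (Nat.mul a b) (sqr s))

/-- an upper bound for the square root of `a * b` -/
def sqU (a b : Nat) : Nat :=
  sqC a b (Nat.succ (newton (Nat.mul a b) (Nat.succ (Nat.div (Nat.add a b) 2)) 10))

structure Zn where
  pp : Nat
  qq : Nat
  b : Nat
  q : Nat
  y : Nat
  st : Nat
  hs : Nat
  n : Nat

def akLo (Z : Zn) : Nat :=
  ((Z.pp * Z.pp + 2 * (Z.qq * Z.qq)) * 35355339 + Z.pp * Z.qq * 100000000) * Z.b / 1000000000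

def akHi (Z : Zn) : Nat :=
  ((Z.pp * Z.pp + 2 * (Z.qq * Z.qq)) * 35355340 + Z.pp * Z.qq * 100000000) * Z.b / 1000000000 + 1

def xLo (Z : Zn) : Nat := (Z.pp * 70710678 + Z.qq * 100000000) * Z.b / 1000000000

def xHi (Z : Zn) : Nat := (Z.pp * 70710679 + Z.qq * 100000000) * Z.b / 1000000000 + 1

def g4 (Z : Zn) (z : Nat) : Nat := sqU (129310 / Z.b + 3431) (14143 * z / akLo Z + 3431)

def e1 (Z : Zn) : Nat := (xHi Z + Z.q) * (7072 * xHi Z + 10000 * Z.q) / (10000 * Z.q) + 1

def e2 (Z : Zn) : Nat := 407 * xHi Z / 100 + 1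

def e3 (Z : Zn) (z : Nat) : Nat :=
  14143 * g4 Z z * (10000 * xHi Z + 14143 * Z.q) * (xHi Z + 2 * Z.q) / (1000000000000 * xLo Z) + 1

def lg (Z : Zn) (z : Nat) : Nat :=
  31400 * (z * z) * (Z.y * Z.y) / (6932 * (akHi Z * akHi Z) * (1000000 + Z.y * Z.y))

def eE (Z : Zn) (z : Nat) : Nat :=
  mx (mx (e1 Z) (e2 Z)) (e3 Z z) + 7072 * (xHi Z * xHi Z) / Nat.shiftLeft 10000 (lg Z z) + 1

def rhoN (Z : Zn) : Nat := akHi Z * (2000000 + Z.y * Z.y) * 35355340 / 200000000000000 + 1

def dl (Z : Zn) : Nat := 2 * (Z.q * Z.q) + 2700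

def pkOf (a : Nat) : Nat := 10002 + a + a * a / 20000 + a * a * a / 400000000

def pk1N (Z : Zn) : Nat := pkOf (2289100 / (Z.b * Z.b) + 1)

def pk2N (Z : Zn) : Nat := pkOf (1144600 / (Z.b * Z.b) + 1)

def winT (Z : Zn) (z x W2 W4 P3 : Nat) : Nat :=
  (pk1N Z * (rhoN Z * (2334 * W2 * P3 + 1000 *
        sqU ((589 * (2 * x + 1) / 10000 + 1 + dl Z) * W2) ((166687 * x / 1000000 + 1 + dl Z) * P3))
      + 1000 * z * eE Z z * sqU W2 P3)
    + pk2N Z * (rhoN Z * (2334 * W2 * W4 + 1000 *
        sqU ((589 * (4 * x + 1) / 10000 + 1 + 2 * dl Z) * W4)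
          ((589 * (2 * x + 4) / 10000 + 1 + 4 * dl Z) * W2))
      + 2646 * z * eE Z z * sqU W2 W4)) / (10000000 * z) + 1

def znOK (Z : Zn) : Bool :=
  band (Bool.rec (motive := fun _ => Bool)
      (Nat.beq (Z.pp * Z.pp + 1) (2 * (Z.qq * Z.qq))) true (Nat.beq (Z.pp * Z.pp) (2 * (Z.qq * Z.qq) + 1)))
    (band (Nat.ble 16 Z.b) (band (Nat.ble 77 Z.q) (band (Nat.ble (3 * Z.q) (xLo Z))
      (band (Nat.ble 1 Z.y) (band (Nat.ble Z.y 999) (Nat.ble 10 (akLo Z)))))))

def winOK (lo x : Nat) : Bool :=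
  band (Nat.ble 2000 lo) (band (Nat.ble lo x) (Nat.ble (20000 * (x / 2 + 1) + 25000) (11715 * lo)))

abbrev St := Nat → Nat → Nat → Nat → List (Nat × Nat) → List (Nat × Nat) → List (Nat × Nat) → Bool

/-- one step of the chain; the state is `z hi a9 acc p2 p4 p3` -/
def stepW (Z : Zn) (base : Nat) (cont : St) : St :=
  fun z hi a9 acc p2 p4 p3 =>
    force (z + Z.st) fun w =>
    force (w + Z.hs) fun x =>
    forceL (adv p2 (2 * x + 1)) fun q2 =>
    forceL (adv p4 (4 * x + 1)) fun q4 =>
    forceL (adv p3 (283 * x / 100)) fun q3 =>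
    force (acc + winT Z w x (look q2 (2 * x + 1)) (look q4 (4 * x + 1)) (look q3 (283 * x / 100)))
      fun acc' =>
    band (Nat.ble w hi) (band (Nat.ble (Z.st + 2) a9) (band (Nat.ble (Z.st + 2) (9 * akLo Z / 10))
      (band (winOK z x)
        (band (Nat.ble (10000 * (1058 * base + 1000 * acc')) (121670 * (z * z)))
          (cont w x (9 * akLo Z / 10) acc' q2 q4 q3)))))

def zoneRun (Z : Zn) (base : Nat) (cont : St) : St :=
  fun z hi a9 acc p2 p4 p3 =>
    band (znOK Z)
      (Nat.rec (motive := fun _ => St) cont (fun _ ih => stepW Z base ih) Z.n z hi a9 acc p2 p4 p3)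

def chain (zs : List Zn) (base : Nat) : St :=
  List.rec (motive := fun _ => St) (fun z _ _ _ _ _ _ => Nat.ble 1000000000000 z)
    (fun Z _ ih => zoneRun Z base ih) zs

def finChk (incs tP tN : List (Nat × Nat)) (zs : List Zn) : Bool :=
  band (chkCum tP incs 1 1) (band (chkN tN 0 0 tP tP)
    (densChk (fun z0 base => chain zs base z0 z0 2 (2 * z0 + 1) tN tN tP) tP 1 1))

end

end Pool.Agent.MP_a001a6_co
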