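import Mathlib

namespace Pool.Agent.MP_a001a6_co

/-- Outcome classes of the Put-or-Take-a-Square game, as least sets closed under the rules.
`Won false n`: `n` is a P-position.  `Won true n`: `n` is an N-position.
The two moves from `n > 0` go to `n - ⌊√n⌋ ^ 2` and `n + ⌊√n⌋ ^ 2`. -/
inductive Won : Bool → ℕ → Prop
  | zero : Won false 0
  | both (n : ℕ) : 0 < n → Won true (n - Nat.sqrt n ^ 2) → Won true (n + Nat.sqrt n ^ 2) →
      Won false n
  | take (n : ℕ) : 0 < n → Won false (n - Nat.sqrt n ^ 2) → Won true n
  | put (n : ℕ) : 0 < n → Won false (n + Nat.sqrt n ^ 2) → Won true n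

/-- P-positions: the previous player can force a win. -/
def IsP (n : ℕ) : Prop := Won false n

/-- N-positions: the player to move can force a win. -/
def IsN (n : ℕ) : Prop := Won true n

end Pool.Agent.MP_a001a6_co
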