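import Pool.Agent.MP_a001a6_co.RLA

/-! Correlation bounds for an N-position and a P-position. -/

namespace Pool.Agent.MP_a001a6_co

noncomputable def lB : List Wn :=
  [⟨657056, 1604064, 1155, 1731481389977973038120215783405373171680528253928910044348811885240696458845142104850282053755, 79498128977364483375001542294075635971575124252020472178303221378172262113290475024202557256631663112695492333113848376209045860647719⟩,
   ⟨1604064, 3149984, 1682, 2603333114217827489783102389188378451016810175218719162974716973149505772370196635842973270193, 119247194819859653243013235078087863403357220897112400532196364080379543812826934332802226508511083097138293949038266813004844777866391⟩]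

theorem lB_chk : modL tL tW 3400 4010 71 2510 2985 lB = true := by decide +kernel

end Pool.Agent.MP_a001a6_co
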