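import Pool.Agent.MP_a001a6_co.RMC

/-! Block counts by direct evaluation. -/

namespace Pool.Agent.MP_a001a6_co

def a7 : List Nat :=
  [31005, 31372, 31826, 31989, 31934, 32385, 32524, 32736, 32869, 33351, 33587, 33615,
   33522, 33886, 34746, 34475, 34442, 34753, 35322, 35373, 35567, 35986, 36138, 36531,
   37276, 36874, 37345, 37334, 37662, 37870, 38016, 38206, 38490, 38703, 38997, 39124,
   39460, 39991, 39934, 40214, 40580, 40970, 41064, 41191, 41243, 41663, 41545, 42207,
   42684, 42838, 42360, 43278, 43232, 43204, 43783, 43524, 43798, 44518, 44553, 44812,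
   44874, 45001, 45425, 45596]

theorem m1_7 : m1 1 8 64 16384 = a7 := by decide +kernel

end Pool.Agent.MP_a001a6_co
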