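import Pool.Agent.MP_a001a6_co.RWB

/-! Correlation bounds for pairs of N-positions. -/

namespace Pool.Agent.MP_a001a6_co

noncomputable def wC : List Wn :=
  [⟨2000000, 2500000, 20464, 29262033195750859718418396008009086638457735284824801987458491663568904550652374418999228760592, 2088523009787565925047439254934706489008637102172573875520932525386625937703886392402223072590969868582902208413134375898820829270288638851873851405140466941349538594190219990775269350717469⟩,
   ⟨2500000, 3149984, 24138, 34472772880312437113100711116358400713954210137336165192820502765976380173392899080982232040050, 2192949407380879689967295290227384951303521938162217286173637089274836863822790146533997375302041642672544590961054568618170810362820606116901151145246837769943754281606928332348182248833563⟩]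

theorem wC_chk : modW tL tW 3400 4010 85 2510 3550 wC = true := by decide +kernel

end Pool.Agent.MP_a001a6_co
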