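import Pool.Agent.MP_a001a6_co.Tabs
import Pool.Agent.MP_a001a6_co.RMD
import Pool.Agent.MP_a001a6_co.RWC
import Pool.Agent.MP_a001a6_co.RLB

/-! The final numerical check. -/

namespace Pool.Agent.MP_a001a6_co

noncomputable def incs : List (Nat × Nat) :=
  app (pairs 1 a0)
    (app (pairs 4 a1)
    (app (pairs 8 a2)
    (app (pairs 16 a3)
    (app (pairs 32 a4)
    (app (pairs 64 a5)
    (app (pairs 128 a6)
    (app (pairs 256 a7)
    (incs2 (wA ++ (wB ++ wC)) lC 32768))))))))

theorem fin_chk : finChk incs tP tN zs = true := by decide +kernel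

end Pool.Agent.MP_a001a6_co
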