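import Pool.Agent.MP_a001a6_co.Comp3

/-! The base tables are closed under the rules. -/

namespace Pool.Agent.MP_a001a6_co

theorem base_chk : baseChk = true := by decide +kernel

end Pool.Agent.MP_a001a6_co
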