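import Pool.Agent.MP_a001a6_co.RBase

/-! Block counts by direct evaluation. -/

namespace Pool.Agent.MP_a001a6_co

def a0 : List Nat :=
  [0, 1, 0, 1, 1, 1, 0, 1, 0, 2, 1, 2,
   1, 0, 1, 1, 0, 0, 1, 1, 2, 0, 2, 2,
   2, 0, 1, 1, 2, 4, 1, 0, 1, 1, 0, 3,
   2, 1, 0, 4, 0, 2, 2, 2, 0, 0, 3, 3,
   1, 4, 1, 1, 2, 0, 2, 3, 1, 4, 1, 6,
   0, 2, 1, 2, 2, 1, 2, 2, 1, 5, 0, 4,
   2, 1, 1, 1, 2, 1, 2, 3, 1, 1, 1, 3,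
   2, 3, 7, 1, 2, 4, 1, 2, 3, 2, 2, 4,
   2, 3, 0, 5, 2, 2, 1, 0, 2, 2, 1, 4,
   0, 4, 2, 4, 0, 3, 2, 4, 0, 3, 0, 5,
   2, 1, 0, 0, 1, 2, 1, 0, 1, 2, 1, 7,
   1, 1, 2, 2, 1, 0, 1, 9, 1, 4, 2, 6,
   3, 2, 1, 1, 4, 1, 1, 0, 3, 4, 1, 4,
   1, 1, 6, 5, 1, 4, 2, 4, 2, 1, 0, 5,
   6, 2, 2, 5, 1, 2, 4, 4, 0, 6, 3, 5,
   2, 1, 1, 2, 1, 0, 0, 2, 1, 3, 4, 4,
   2, 4, 4, 2, 3, 3, 3, 4, 0, 6, 3, 8,
   2, 1, 5, 4, 1, 8, 1, 2, 2, 4, 1, 4,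
   4, 4, 4, 4, 1, 4, 1, 3, 1, 6, 2, 8,
   1, 3, 2, 5, 2, 5, 4, 6, 4, 2, 0, 6,
   3, 3, 2, 4, 0, 3, 0, 5, 0, 8, 5, 4,
   3, 6, 5]

theorem m1_0 : m1 3 0 255 1 = a0 := by decide +kernel

def a1 : List Nat :=
  [7, 14, 19, 18, 11, 13, 14, 13, 11, 13, 7, 14,
   11, 13, 11, 17, 13, 17, 12, 15, 21, 12, 14, 23,
   15, 7, 14, 8, 13, 18, 14, 14, 12, 14, 13, 9,
   17, 21, 17, 16, 17, 14, 12, 19, 21, 16, 16, 12,
   25, 15, 15, 10, 26, 21, 10, 9, 12, 10, 17, 22,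
   11, 16, 24, 7]

theorem m1_1 : m1 3 2 64 256 = a1 := by decide +kernel

def a2 : List Nat :=
  [31, 38, 40, 29, 36, 27, 31, 31, 34, 31, 36, 27,
   42, 33, 34, 42, 36, 46, 29, 40, 37, 29, 43, 58,
   48, 32, 31, 33, 42, 43, 31, 30, 33, 31, 45, 34,
   26, 38, 40, 28, 35, 50, 39, 31, 53, 38, 36, 46,
   65, 43, 46, 34, 42, 51, 36, 42, 51, 38, 43, 58,
   51, 39, 49, 49]

theorem m1_2 : m1 3 3 64 512 = a2 := by decide +kernel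

def a3 : List Nat :=
  [82, 99, 83, 96, 79, 92, 110, 77, 88, 102, 84, 84,
   101, 90, 100, 103, 111, 98, 92, 108, 100, 110, 100, 128,
   101, 110, 106, 118, 112, 114, 109, 123, 112, 95, 118, 114,
   110, 102, 133, 93, 93, 128, 110, 104, 93, 133, 112, 143,
   141, 122, 120, 124, 135, 126, 129, 121, 136, 140, 126, 134,
   91, 119, 137, 109]

theorem m1_3 : m1 3 4 64 1024 = a3 := by decide +kernel

def a4 : List Nat :=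
  [261, 250, 222, 251, 259, 272, 230, 276, 246, 267, 296, 259,
   243, 266, 268, 269, 295, 250, 222, 278, 293, 295, 311, 317,
   266, 313, 301, 317, 308, 298, 315, 311, 317, 321, 325, 318,
   314, 289, 349, 313, 296, 319, 339, 315, 297, 304, 367, 354,
   337, 342, 328, 359, 340, 325, 361, 331, 340, 335, 337, 340,
   361, 357, 381, 341]

theorem m1_4 : m1 3 5 64 2048 = a4 := by decide +kernel

end Pool.Agent.MP_a001a6_co
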