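import Pool.Agent.MP_a001a6_co.RMA

/-! Block counts by direct evaluation. -/

namespace Pool.Agent.MP_a001a6_co

def a5 : List Nat :=
  [707, 684, 698, 749, 682, 742, 780, 808, 761, 785, 769, 759,
   799, 794, 750, 807, 806, 824, 818, 790, 792, 810, 764, 811,
   769, 856, 829, 771, 849, 836, 807, 804, 852, 909, 890, 809,
   796, 858, 913, 908, 830, 849, 896, 859, 846, 821, 935, 911,
   897, 894, 916, 875, 959, 925, 945, 926, 909, 929, 952, 930,
   960, 929, 933, 955]

theorem m1_5 : m1 3 6 64 4096 = a5 := by decide +kernel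

end Pool.Agent.MP_a001a6_co
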