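import Pool.Agent.MP_a001a6_co.RMB

/-! Block counts by direct evaluation. -/

namespace Pool.Agent.MP_a001a6_co

def a6 : List Nat :=
  [2457, 2414, 2393, 2315, 2424, 2506, 2550, 2504, 2491, 2544, 2621, 2518,
   2607, 2540, 2609, 2613, 2580, 2621, 2687, 2723, 2693, 2727, 2763, 2764,
   2747, 2690, 2861, 2787, 2904, 2801, 2903, 2899, 2814, 2846, 2856, 2834,
   2869, 2840, 2875, 2934, 2991, 2935, 3046, 2930, 3022, 2995, 2912, 3004,
   3098, 3044, 2975, 3082, 3137, 3173, 3119, 3155, 3058, 3183, 3223, 3112,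
   3167, 3159, 3123, 3184]

theorem m1_6 : m1 2 7 64 8192 = a6 := by decide +kernel

end Pool.Agent.MP_a001a6_co
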