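import Pool.Agent.MP_a001a6_co.Trees

/-! Check of the sparse list of P-positions. -/

namespace Pool.Agent.MP_a001a6_co

theorem tl_chk : chkT (okL (mkL 3 3400)) tL 3400 0 = true := by decide +kernel

end Pool.Agent.MP_a001a6_co
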