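import Pool.Agent.MP_a001a6_co.RWA

/-! Correlation bounds for pairs of N-positions. -/

namespace Pool.Agent.MP_a001a6_co

noncomputable def wB : List Wn :=
  [⟨821312, 1026624, 10662, 14786850355159445067142331326820498771046275788577919113060235884701121578646156807382110306618, 1300975648778527024534427803144137639817258473735788352140968361862326319446704140043927664890322894639065670742201954342745717955277298758636300572936939625173774809775043902557554157296731⟩,
   ⟨1026624, 1283264, 12588, 17632590542695612387959366225193619169317631258199895753811621752514855697078337889868197134685, 1414104053564578870425283728307460264172621266101377674648482963583495648912649964857726129380606747062982065991387155055984287676122190433847887803177172404918882890978225364950087624565200⟩,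
   ⟨1283264, 1604064, 14717, 20830738249422817198468851136360794757775755650059770091227678705648061630469102896540658172306, 1601201104603699363004434068955565888810744452433789589913381683187823284103121110903260446991748808307004935753664418408960447820420402181826974047504944126641865176382633468181831399516146⟩,
   ⟨1604064, 2000000, 17478, 24762219035847350893663296520651397784521299672733924930983811858860560992948444824289421558278, 1775244870985548661660318559313824362408628371154219333904306803917407978888744358489161830723280199397460223816798384768300116840826339080164173825449184712350202121832518249576999365390204⟩]

theorem wB_chk : modW tL tW 3400 4010 76 2000 2829 wB = true := by decide +kernel

end Pool.Agent.MP_a001a6_co
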