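import Pool.Agent.MP_a001a6_co.Comp3

/-! Tables of upper bounds and the parameters of the windows. -/

namespace Pool.Agent.MP_a001a6_co

noncomputable section

def tP_19 : List (Nat × Nat) :=
  (nat_lit 2784368, nat_lit 41972151490) ::
  (nat_lit 2804680, nat_lit 42496607330) ::
  (nat_lit 2824992, nat_lit 43021063170) ::
  (nat_lit 2845304, nat_lit 43545519010) ::
  (nat_lit 2865616, nat_lit 44069974850) ::
  (nat_lit 2885928, nat_lit 44594430690) ::
  (nat_lit 2906240, nat_lit 45118886530) ::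
  (nat_lit 2926552, nat_lit 45643342370) ::
  (nat_lit 2946864, nat_lit 46167798210) ::
  (nat_lit 2967176, nat_lit 46692254050) ::
  (nat_lit 2987488, nat_lit 47216709890) ::
  (nat_lit 3007800, nat_lit 47741165730) ::
  (nat_lit 3028112, nat_lit 48265621570) ::
  (nat_lit 3048424, nat_lit 48790077410) ::
  (nat_lit 3068736, nat_lit 49314533250) ::
  (nat_lit 3089048, nat_lit 49838989090) ::
  (nat_lit 3109360, nat_lit 50363444930) ::
  (nat_lit 3129672, nat_lit 50887900770) ::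
  (nat_lit 3149984, nat_lit 51412356610) :: []

def tP_18 : List (Nat × Nat) :=
  (nat_lit 1383514, nat_lit 12470066370) ::
  (nat_lit 1393539, nat_lit 12629183170) ::
  (nat_lit 1403564, nat_lit 12788299970) ::
  (nat_lit 1413589, nat_lit 12947416770) ::
  (nat_lit 1423614, nat_lit 13106533570) ::
  (nat_lit 1433639, nat_lit 13265650370) ::
  (nat_lit 1443664, nat_lit 13424767170) ::
  (nat_lit 1453689, nat_lit 13583883970) ::
  (nat_lit 1463714, nat_lit 13743000770) ::
  (nat_lit 1473739, nat_lit 13902117570) ::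
  (nat_lit 1483764, nat_lit 14061234370) ::
  (nat_lit 1493789, nat_lit 14220351170) ::
  (nat_lit 1503814, nat_lit 14379467970) ::
  (nat_lit 1513839, nat_lit 14538584770) ::
  (nat_lit 1523864, nat_lit 14697701570) ::
  (nat_lit 1533889, nat_lit 14856818370) ::
  (nat_lit 1543914, nat_lit 15015935170) ::
  (nat_lit 1553939, nat_lit 15175051970) ::
  (nat_lit 1563964, nat_lit 15334168770) ::
  (nat_lit 1573989, nat_lit 15493285570) ::
  (nat_lit 1584014, nat_lit 15652402370) ::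
  (nat_lit 1594039, nat_lit 15811519170) ::
  (nat_lit 1604064, nat_lit 15970635970) ::
  (nat_lit 1616437, nat_lit 16207702650) ::
  (nat_lit 1628810, nat_lit 16444769330) ::
  (nat_lit 1641183, nat_lit 16681836010) ::
  (nat_lit 1653556, nat_lit 16918902690) ::
  (nat_lit 1665929, nat_lit 17155969370) ::
  (nat_lit 1678302, nat_lit 17393036050) ::
  (nat_lit 1690675, nat_lit 17630102730) ::
  (nat_lit 1703048, nat_lit 17867169410) ::
  (nat_lit 1715421, nat_lit 18104236090) ::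
  (nat_lit 1727794, nat_lit 18341302770) ::
  (nat_lit 1740167, nat_lit 18578369450) ::
  (nat_lit 1752540, nat_lit 18815436130) ::
  (nat_lit 1764913, nat_lit 19052502810) ::
  (nat_lit 1777286, nat_lit 19289569490) ::
  (nat_lit 1789659, nat_lit 19526636170) ::
  (nat_lit 1802032, nat_lit 19763702850) ::
  (nat_lit 1814405, nat_lit 20000769530) ::
  (nat_lit 1826778, nat_lit 20237836210) ::
  (nat_lit 1839151, nat_lit 20474902890) ::
  (nat_lit 1851524, nat_lit 20711969570) ::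
  (nat_lit 1863897, nat_lit 20949036250) ::
  (nat_lit 1876270, nat_lit 21186102930) ::
  (nat_lit 1888643, nat_lit 21423169610) ::
  (nat_lit 1901016, nat_lit 21660236290) ::
  (nat_lit 1913389, nat_lit 21897302970) ::
  (nat_lit 1925762, nat_lit 22134369650) ::
  (nat_lit 1938135, nat_lit 22371436330) ::
  (nat_lit 1950508, nat_lit 22608503010) ::
  (nat_lit 1962881, nat_lit 22845569690) ::
  (nat_lit 1975254, nat_lit 23082636370) ::
  (nat_lit 1987627, nat_lit 23319703050) ::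
  (nat_lit 2000000, nat_lit 23556769730) ::
  (nat_lit 2015625, nat_lit 23902800980) ::
  (nat_lit 2031250, nat_lit 24248832230) ::
  (nat_lit 2046875, nat_lit 24594863480) ::
  (nat_lit 2062500, nat_lit 24940894730) ::
  (nat_lit 2078125, nat_lit 25286925980) ::
  (nat_lit 2093750, nat_lit 25632957230) ::
  (nat_lit 2109375, nat_lit 25978988480) ::
  (nat_lit 2125000, nat_lit 26325019730) ::
  (nat_lit 2140625, nat_lit 26671050980) ::
  (nat_lit 2156250, nat_lit 27017082230) ::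
  (nat_lit 2171875, nat_lit 27363113480) ::
  (nat_lit 2187500, nat_lit 27709144730) ::
  (nat_lit 2203125, nat_lit 28055175980) ::
  (nat_lit 2218750, nat_lit 28401207230) ::
  (nat_lit 2234375, nat_lit 28747238480) ::
  (nat_lit 2250000, nat_lit 29093269730) ::
  (nat_lit 2265625, nat_lit 29439300980) ::
  (nat_lit 2281250, nat_lit 29785332230) ::
  (nat_lit 2296875, nat_lit 30131363480) ::
  (nat_lit 2312500, nat_lit 30477394730) ::
  (nat_lit 2328125, nat_lit 30823425980) ::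
  (nat_lit 2343750, nat_lit 31169457230) ::
  (nat_lit 2359375, nat_lit 31515488480) ::
  (nat_lit 2375000, nat_lit 31861519730) ::
  (nat_lit 2390625, nat_lit 32207550980) ::
  (nat_lit 2406250, nat_lit 32553582230) ::
  (nat_lit 2421875, nat_lit 32899613480) ::
  (nat_lit 2437500, nat_lit 33245644730) ::
  (nat_lit 2453125, nat_lit 33591675980) ::
  (nat_lit 2468750, nat_lit 33937707230) ::
  (nat_lit 2484375, nat_lit 34283738480) ::
  (nat_lit 2500000, nat_lit 34629769730) ::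
  (nat_lit 2520312, nat_lit 35154225570) ::
  (nat_lit 2540624, nat_lit 35678681410) ::
  (nat_lit 2560936, nat_lit 36203137250) ::
  (nat_lit 2581248, nat_lit 36727593090) ::
  (nat_lit 2601560, nat_lit 37252048930) ::
  (nat_lit 2621872, nat_lit 37776504770) ::
  (nat_lit 2642184, nat_lit 38300960610) ::
  (nat_lit 2662496, nat_lit 38825416450) ::
  (nat_lit 2682808, nat_lit 39349872290) ::
  (nat_lit 2703120, nat_lit 39874328130) ::
  (nat_lit 2723432, nat_lit 40398783970) ::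
  (nat_lit 2743744, nat_lit 40923239810) ::
  (nat_lit 2764056, nat_lit 41447695650) :: tP_19

def tP_17 : List (Nat × Nat) :=
  (nat_lit 687854, nat_lit 3573526490) ::
  (nat_lit 692987, nat_lit 3625534046) ::
  (nat_lit 698120, nat_lit 3677541602) ::
  (nat_lit 703253, nat_lit 3729549158) ::
  (nat_lit 708386, nat_lit 3781556714) ::
  (nat_lit 713519, nat_lit 3833564270) ::
  (nat_lit 718652, nat_lit 3885571826) ::
  (nat_lit 723785, nat_lit 3937579382) ::
  (nat_lit 728918, nat_lit 3989586938) ::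
  (nat_lit 734051, nat_lit 4041594494) ::
  (nat_lit 739184, nat_lit 4093602050) ::
  (nat_lit 744317, nat_lit 4145609606) ::
  (nat_lit 749450, nat_lit 4197617162) ::
  (nat_lit 754583, nat_lit 4249624718) ::
  (nat_lit 759716, nat_lit 4301632274) ::
  (nat_lit 764849, nat_lit 4353639830) ::
  (nat_lit 769982, nat_lit 4405647386) ::
  (nat_lit 775115, nat_lit 4457654942) ::
  (nat_lit 780248, nat_lit 4509662498) ::
  (nat_lit 785381, nat_lit 4561670054) ::
  (nat_lit 790514, nat_lit 4613677610) ::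
  (nat_lit 795647, nat_lit 4665685166) ::
  (nat_lit 800780, nat_lit 4717692722) ::
  (nat_lit 805913, nat_lit 4769700278) ::
  (nat_lit 811046, nat_lit 4821707834) ::
  (nat_lit 816179, nat_lit 4873715390) ::
  (nat_lit 821312, nat_lit 4925722946) ::
  (nat_lit 827728, nat_lit 5001540818) ::
  (nat_lit 834144, nat_lit 5077358690) ::
  (nat_lit 840560, nat_lit 5153176562) ::
  (nat_lit 846976, nat_lit 5228994434) ::
  (nat_lit 853392, nat_lit 5304812306) ::
  (nat_lit 859808, nat_lit 5380630178) ::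
  (nat_lit 866224, nat_lit 5456448050) ::
  (nat_lit 872640, nat_lit 5532265922) ::
  (nat_lit 879056, nat_lit 5608083794) ::
  (nat_lit 885472, nat_lit 5683901666) ::
  (nat_lit 891888, nat_lit 5759719538) ::
  (nat_lit 898304, nat_lit 5835537410) ::
  (nat_lit 904720, nat_lit 5911355282) ::
  (nat_lit 911136, nat_lit 5987173154) ::
  (nat_lit 917552, nat_lit 6062991026) ::
  (nat_lit 923968, nat_lit 6138808898) ::
  (nat_lit 930384, nat_lit 6214626770) ::
  (nat_lit 936800, nat_lit 6290444642) ::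
  (nat_lit 943216, nat_lit 6366262514) ::
  (nat_lit 949632, nat_lit 6442080386) ::
  (nat_lit 956048, nat_lit 6517898258) ::
  (nat_lit 962464, nat_lit 6593716130) ::
  (nat_lit 968880, nat_lit 6669534002) ::
  (nat_lit 975296, nat_lit 6745351874) ::
  (nat_lit 981712, nat_lit 6821169746) ::
  (nat_lit 988128, nat_lit 6896987618) ::
  (nat_lit 994544, nat_lit 6972805490) ::
  (nat_lit 1000960, nat_lit 7048623362) ::
  (nat_lit 1007376, nat_lit 7124441234) ::
  (nat_lit 1013792, nat_lit 7200259106) ::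
  (nat_lit 1020208, nat_lit 7276076978) ::
  (nat_lit 1026624, nat_lit 7351894850) ::
  (nat_lit 1034644, nat_lit 7462113710) ::
  (nat_lit 1042664, nat_lit 7572332570) ::
  (nat_lit 1050684, nat_lit 7682551430) ::
  (nat_lit 1058704, nat_lit 7792770290) ::
  (nat_lit 1066724, nat_lit 7902989150) ::
  (nat_lit 1074744, nat_lit 8013208010) ::
  (nat_lit 1082764, nat_lit 8123426870) ::
  (nat_lit 1090784, nat_lit 8233645730) ::
  (nat_lit 1098804, nat_lit 8343864590) ::
  (nat_lit 1106824, nat_lit 8454083450) ::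
  (nat_lit 1114844, nat_lit 8564302310) ::
  (nat_lit 1122864, nat_lit 8674521170) ::
  (nat_lit 1130884, nat_lit 8784740030) ::
  (nat_lit 1138904, nat_lit 8894958890) ::
  (nat_lit 1146924, nat_lit 9005177750) ::
  (nat_lit 1154944, nat_lit 9115396610) ::
  (nat_lit 1162964, nat_lit 9225615470) ::
  (nat_lit 1170984, nat_lit 9335834330) ::
  (nat_lit 1179004, nat_lit 9446053190) ::
  (nat_lit 1187024, nat_lit 9556272050) ::
  (nat_lit 1195044, nat_lit 9666490910) ::
  (nat_lit 1203064, nat_lit 9776709770) ::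
  (nat_lit 1211084, nat_lit 9886928630) ::
  (nat_lit 1219104, nat_lit 9997147490) ::
  (nat_lit 1227124, nat_lit 10107366350) ::
  (nat_lit 1235144, nat_lit 10217585210) ::
  (nat_lit 1243164, nat_lit 10327804070) ::
  (nat_lit 1251184, nat_lit 10438022930) ::
  (nat_lit 1259204, nat_lit 10548241790) ::
  (nat_lit 1267224, nat_lit 10658460650) ::
  (nat_lit 1275244, nat_lit 10768679510) ::
  (nat_lit 1283264, nat_lit 10878898370) ::
  (nat_lit 1293289, nat_lit 11038015170) ::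
  (nat_lit 1303314, nat_lit 11197131970) ::
  (nat_lit 1313339, nat_lit 11356248770) ::
  (nat_lit 1323364, nat_lit 11515365570) ::
  (nat_lit 1333389, nat_lit 11674482370) ::
  (nat_lit 1343414, nat_lit 11833599170) ::
  (nat_lit 1353439, nat_lit 11992715970) ::
  (nat_lit 1363464, nat_lit 12151832770) ::
  (nat_lit 1373489, nat_lit 12310949570) :: tP_18

def tP_16 : List (Nat × Nat) :=
  (nat_lit 369124, nat_lit 1152519086) ::
  (nat_lit 370838, nat_lit 1162547700) ::
  (nat_lit 372552, nat_lit 1172576314) ::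
  (nat_lit 374266, nat_lit 1182604928) ::
  (nat_lit 375980, nat_lit 1192633542) ::
  (nat_lit 377694, nat_lit 1202662156) ::
  (nat_lit 379408, nat_lit 1212690770) ::
  (nat_lit 381122, nat_lit 1222719384) ::
  (nat_lit 382836, nat_lit 1232747998) ::
  (nat_lit 384550, nat_lit 1242776612) ::
  (nat_lit 386264, nat_lit 1252805226) ::
  (nat_lit 387978, nat_lit 1262833840) ::
  (nat_lit 389692, nat_lit 1272862454) ::
  (nat_lit 391406, nat_lit 1282891068) ::
  (nat_lit 393120, nat_lit 1292919682) ::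
  (nat_lit 394834, nat_lit 1302948296) ::
  (nat_lit 396548, nat_lit 1312976910) ::
  (nat_lit 398262, nat_lit 1323005524) ::
  (nat_lit 399976, nat_lit 1333034138) ::
  (nat_lit 401690, nat_lit 1343062752) ::
  (nat_lit 403404, nat_lit 1353091366) ::
  (nat_lit 405118, nat_lit 1363119980) ::
  (nat_lit 406832, nat_lit 1373148594) ::
  (nat_lit 408546, nat_lit 1383177208) ::
  (nat_lit 410260, nat_lit 1393205822) ::
  (nat_lit 411974, nat_lit 1403234436) ::
  (nat_lit 413688, nat_lit 1413263050) ::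
  (nat_lit 415402, nat_lit 1423291664) ::
  (nat_lit 417116, nat_lit 1433320278) ::
  (nat_lit 418830, nat_lit 1443348892) ::
  (nat_lit 420544, nat_lit 1453377506) ::
  (nat_lit 423829, nat_lit 1476277241) ::
  (nat_lit 427114, nat_lit 1499176976) ::
  (nat_lit 430399, nat_lit 1522076711) ::
  (nat_lit 433684, nat_lit 1544976446) ::
  (nat_lit 436969, nat_lit 1567876181) ::
  (nat_lit 440254, nat_lit 1590775916) ::
  (nat_lit 443539, nat_lit 1613675651) ::
  (nat_lit 446824, nat_lit 1636575386) ::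
  (nat_lit 450109, nat_lit 1659475121) ::
  (nat_lit 453394, nat_lit 1682374856) ::
  (nat_lit 456679, nat_lit 1705274591) ::
  (nat_lit 459964, nat_lit 1728174326) ::
  (nat_lit 463249, nat_lit 1751074061) ::
  (nat_lit 466534, nat_lit 1773973796) ::
  (nat_lit 469819, nat_lit 1796873531) ::
  (nat_lit 473104, nat_lit 1819773266) ::
  (nat_lit 476389, nat_lit 1842673001) ::
  (nat_lit 479674, nat_lit 1865572736) ::
  (nat_lit 482959, nat_lit 1888472471) ::
  (nat_lit 486244, nat_lit 1911372206) ::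
  (nat_lit 489529, nat_lit 1934271941) ::
  (nat_lit 492814, nat_lit 1957171676) ::
  (nat_lit 496099, nat_lit 1980071411) ::
  (nat_lit 499384, nat_lit 2002971146) ::
  (nat_lit 502669, nat_lit 2025870881) ::
  (nat_lit 505954, nat_lit 2048770616) ::
  (nat_lit 509239, nat_lit 2071670351) ::
  (nat_lit 512524, nat_lit 2094570086) ::
  (nat_lit 515809, nat_lit 2117469821) ::
  (nat_lit 519094, nat_lit 2140369556) ::
  (nat_lit 522379, nat_lit 2163269291) ::
  (nat_lit 525664, nat_lit 2186169026) ::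
  (nat_lit 529770, nat_lit 2219772530) ::
  (nat_lit 533876, nat_lit 2253376034) ::
  (nat_lit 537982, nat_lit 2286979538) ::
  (nat_lit 542088, nat_lit 2320583042) ::
  (nat_lit 546194, nat_lit 2354186546) ::
  (nat_lit 550300, nat_lit 2387790050) ::
  (nat_lit 554406, nat_lit 2421393554) ::
  (nat_lit 558512, nat_lit 2454997058) ::
  (nat_lit 562618, nat_lit 2488600562) ::
  (nat_lit 566724, nat_lit 2522204066) ::
  (nat_lit 570830, nat_lit 2555807570) ::
  (nat_lit 574936, nat_lit 2589411074) ::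
  (nat_lit 579042, nat_lit 2623014578) ::
  (nat_lit 583148, nat_lit 2656618082) ::
  (nat_lit 587254, nat_lit 2690221586) ::
  (nat_lit 591360, nat_lit 2723825090) ::
  (nat_lit 595466, nat_lit 2757428594) ::
  (nat_lit 599572, nat_lit 2791032098) ::
  (nat_lit 603678, nat_lit 2824635602) ::
  (nat_lit 607784, nat_lit 2858239106) ::
  (nat_lit 611890, nat_lit 2891842610) ::
  (nat_lit 615996, nat_lit 2925446114) ::
  (nat_lit 620102, nat_lit 2959049618) ::
  (nat_lit 624208, nat_lit 2992653122) ::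
  (nat_lit 628314, nat_lit 3026256626) ::
  (nat_lit 632420, nat_lit 3059860130) ::
  (nat_lit 636526, nat_lit 3093463634) ::
  (nat_lit 640632, nat_lit 3127067138) ::
  (nat_lit 644738, nat_lit 3160670642) ::
  (nat_lit 648844, nat_lit 3194274146) ::
  (nat_lit 652950, nat_lit 3227877650) ::
  (nat_lit 657056, nat_lit 3261481154) ::
  (nat_lit 662189, nat_lit 3313488710) ::
  (nat_lit 667322, nat_lit 3365496266) ::
  (nat_lit 672455, nat_lit 3417503822) ::
  (nat_lit 677588, nat_lit 3469511378) ::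
  (nat_lit 682721, nat_lit 3521518934) :: tP_17

def tP_15 : List (Nat × Nat) :=
  (nat_lit 238520, nat_lit 539420202) ::
  (nat_lit 239500, nat_lit 543107942) ::
  (nat_lit 240480, nat_lit 546795682) ::
  (nat_lit 241607, nat_lit 551452446) ::
  (nat_lit 242734, nat_lit 556109210) ::
  (nat_lit 243861, nat_lit 560765974) ::
  (nat_lit 244988, nat_lit 565422738) ::
  (nat_lit 246115, nat_lit 570079502) ::
  (nat_lit 247242, nat_lit 574736266) ::
  (nat_lit 248369, nat_lit 579393030) ::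
  (nat_lit 249496, nat_lit 584049794) ::
  (nat_lit 250623, nat_lit 588706558) ::
  (nat_lit 251750, nat_lit 593363322) ::
  (nat_lit 252877, nat_lit 598020086) ::
  (nat_lit 254004, nat_lit 602676850) ::
  (nat_lit 255131, nat_lit 607333614) ::
  (nat_lit 256258, nat_lit 611990378) ::
  (nat_lit 257385, nat_lit 616647142) ::
  (nat_lit 258512, nat_lit 621303906) ::
  (nat_lit 259639, nat_lit 625960670) ::
  (nat_lit 260766, nat_lit 630617434) ::
  (nat_lit 261893, nat_lit 635274198) ::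
  (nat_lit 263020, nat_lit 639930962) ::
  (nat_lit 264147, nat_lit 644587726) ::
  (nat_lit 265274, nat_lit 649244490) ::
  (nat_lit 266401, nat_lit 653901254) ::
  (nat_lit 267528, nat_lit 658558018) ::
  (nat_lit 268655, nat_lit 663214782) ::
  (nat_lit 269782, nat_lit 667871546) ::
  (nat_lit 270909, nat_lit 672528310) ::
  (nat_lit 272036, nat_lit 677185074) ::
  (nat_lit 273163, nat_lit 681841838) ::
  (nat_lit 274290, nat_lit 686498602) ::
  (nat_lit 275417, nat_lit 691155366) ::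
  (nat_lit 276544, nat_lit 695812130) ::
  (nat_lit 277840, nat_lit 701655794) ::
  (nat_lit 279136, nat_lit 707499458) ::
  (nat_lit 280432, nat_lit 713343122) ::
  (nat_lit 281728, nat_lit 719186786) ::
  (nat_lit 283024, nat_lit 725030450) ::
  (nat_lit 284320, nat_lit 730874114) ::
  (nat_lit 285616, nat_lit 736717778) ::
  (nat_lit 286912, nat_lit 742561442) ::
  (nat_lit 288208, nat_lit 748405106) ::
  (nat_lit 289504, nat_lit 754248770) ::
  (nat_lit 290800, nat_lit 760092434) ::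
  (nat_lit 292096, nat_lit 765936098) ::
  (nat_lit 293392, nat_lit 771779762) ::
  (nat_lit 294688, nat_lit 777623426) ::
  (nat_lit 295984, nat_lit 783467090) ::
  (nat_lit 297280, nat_lit 789310754) ::
  (nat_lit 298576, nat_lit 795154418) ::
  (nat_lit 299872, nat_lit 800998082) ::
  (nat_lit 301168, nat_lit 806841746) ::
  (nat_lit 302464, nat_lit 812685410) ::
  (nat_lit 303760, nat_lit 818529074) ::
  (nat_lit 305056, nat_lit 824372738) ::
  (nat_lit 306352, nat_lit 830216402) ::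
  (nat_lit 307648, nat_lit 836060066) ::
  (nat_lit 308944, nat_lit 841903730) ::
  (nat_lit 310240, nat_lit 847747394) ::
  (nat_lit 311536, nat_lit 853591058) ::
  (nat_lit 312832, nat_lit 859434722) ::
  (nat_lit 314128, nat_lit 865278386) ::
  (nat_lit 315424, nat_lit 871122050) ::
  (nat_lit 316720, nat_lit 876965714) ::
  (nat_lit 318016, nat_lit 882809378) ::
  (nat_lit 319506, nat_lit 890611018) ::
  (nat_lit 320996, nat_lit 898412658) ::
  (nat_lit 322486, nat_lit 906214298) ::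
  (nat_lit 323976, nat_lit 914015938) ::
  (nat_lit 325466, nat_lit 921817578) ::
  (nat_lit 326956, nat_lit 929619218) ::
  (nat_lit 328446, nat_lit 937420858) ::
  (nat_lit 329936, nat_lit 945222498) ::
  (nat_lit 331426, nat_lit 953024138) ::
  (nat_lit 332916, nat_lit 960825778) ::
  (nat_lit 334406, nat_lit 968627418) ::
  (nat_lit 335896, nat_lit 976429058) ::
  (nat_lit 337386, nat_lit 984230698) ::
  (nat_lit 338876, nat_lit 992032338) ::
  (nat_lit 340366, nat_lit 999833978) ::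
  (nat_lit 341856, nat_lit 1007635618) ::
  (nat_lit 343346, nat_lit 1015437258) ::
  (nat_lit 344836, nat_lit 1023238898) ::
  (nat_lit 346326, nat_lit 1031040538) ::
  (nat_lit 347816, nat_lit 1038842178) ::
  (nat_lit 349306, nat_lit 1046643818) ::
  (nat_lit 350796, nat_lit 1054445458) ::
  (nat_lit 352286, nat_lit 1062247098) ::
  (nat_lit 353776, nat_lit 1070048738) ::
  (nat_lit 355266, nat_lit 1077850378) ::
  (nat_lit 356756, nat_lit 1085652018) ::
  (nat_lit 358246, nat_lit 1093453658) ::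
  (nat_lit 359736, nat_lit 1101255298) ::
  (nat_lit 361226, nat_lit 1109056938) ::
  (nat_lit 362716, nat_lit 1116858578) ::
  (nat_lit 364206, nat_lit 1124660218) ::
  (nat_lit 365696, nat_lit 1132461858) ::
  (nat_lit 367410, nat_lit 1142490472) :: tP_16

def tP_14 : List (Nat × Nat) :=
  (nat_lit 155450, nat_lit 247363230) ::
  (nat_lit 155899, nat_lit 248601572) ::
  (nat_lit 156348, nat_lit 249839914) ::
  (nat_lit 156797, nat_lit 251078256) ::
  (nat_lit 157246, nat_lit 252316598) ::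
  (nat_lit 157695, nat_lit 253554940) ::
  (nat_lit 158144, nat_lit 254793282) ::
  (nat_lit 158885, nat_lit 257217093) ::
  (nat_lit 159626, nat_lit 259640904) ::
  (nat_lit 160367, nat_lit 262064715) ::
  (nat_lit 161108, nat_lit 264488526) ::
  (nat_lit 161849, nat_lit 266912337) ::
  (nat_lit 162590, nat_lit 269336148) ::
  (nat_lit 163331, nat_lit 271759959) ::
  (nat_lit 164072, nat_lit 274183770) ::
  (nat_lit 164813, nat_lit 276607581) ::
  (nat_lit 165554, nat_lit 279031392) ::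
  (nat_lit 166295, nat_lit 281455203) ::
  (nat_lit 167036, nat_lit 283879014) ::
  (nat_lit 167777, nat_lit 286302825) ::
  (nat_lit 168518, nat_lit 288726636) ::
  (nat_lit 169259, nat_lit 291150447) ::
  (nat_lit 170000, nat_lit 293574258) ::
  (nat_lit 170741, nat_lit 295998069) ::
  (nat_lit 171482, nat_lit 298421880) ::
  (nat_lit 172223, nat_lit 300845691) ::
  (nat_lit 172964, nat_lit 303269502) ::
  (nat_lit 173705, nat_lit 305693313) ::
  (nat_lit 174446, nat_lit 308117124) ::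
  (nat_lit 175187, nat_lit 310540935) ::
  (nat_lit 175928, nat_lit 312964746) ::
  (nat_lit 176669, nat_lit 315388557) ::
  (nat_lit 177410, nat_lit 317812368) ::
  (nat_lit 178151, nat_lit 320236179) ::
  (nat_lit 178892, nat_lit 322659990) ::
  (nat_lit 179633, nat_lit 325083801) ::
  (nat_lit 180374, nat_lit 327507612) ::
  (nat_lit 181115, nat_lit 329931423) ::
  (nat_lit 181856, nat_lit 332355234) ::
  (nat_lit 182708, nat_lit 335368758) ::
  (nat_lit 183560, nat_lit 338382282) ::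
  (nat_lit 184412, nat_lit 341395806) ::
  (nat_lit 185264, nat_lit 344409330) ::
  (nat_lit 186116, nat_lit 347422854) ::
  (nat_lit 186968, nat_lit 350436378) ::
  (nat_lit 187820, nat_lit 353449902) ::
  (nat_lit 188672, nat_lit 356463426) ::
  (nat_lit 189524, nat_lit 359476950) ::
  (nat_lit 190376, nat_lit 362490474) ::
  (nat_lit 191228, nat_lit 365503998) ::
  (nat_lit 192080, nat_lit 368517522) ::
  (nat_lit 192932, nat_lit 371531046) ::
  (nat_lit 193784, nat_lit 374544570) ::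
  (nat_lit 194636, nat_lit 377558094) ::
  (nat_lit 195488, nat_lit 380571618) ::
  (nat_lit 196340, nat_lit 383585142) ::
  (nat_lit 197192, nat_lit 386598666) ::
  (nat_lit 198044, nat_lit 389612190) ::
  (nat_lit 198896, nat_lit 392625714) ::
  (nat_lit 199748, nat_lit 395639238) ::
  (nat_lit 200600, nat_lit 398652762) ::
  (nat_lit 201452, nat_lit 401666286) ::
  (nat_lit 202304, nat_lit 404679810) ::
  (nat_lit 203156, nat_lit 407693334) ::
  (nat_lit 204008, nat_lit 410706858) ::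
  (nat_lit 204860, nat_lit 413720382) ::
  (nat_lit 205712, nat_lit 416733906) ::
  (nat_lit 206564, nat_lit 419747430) ::
  (nat_lit 207416, nat_lit 422760954) ::
  (nat_lit 208268, nat_lit 425774478) ::
  (nat_lit 209120, nat_lit 428788002) ::
  (nat_lit 210100, nat_lit 432475742) ::
  (nat_lit 211080, nat_lit 436163482) ::
  (nat_lit 212060, nat_lit 439851222) ::
  (nat_lit 213040, nat_lit 443538962) ::
  (nat_lit 214020, nat_lit 447226702) ::
  (nat_lit 215000, nat_lit 450914442) ::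
  (nat_lit 215980, nat_lit 454602182) ::
  (nat_lit 216960, nat_lit 458289922) ::
  (nat_lit 217940, nat_lit 461977662) ::
  (nat_lit 218920, nat_lit 465665402) ::
  (nat_lit 219900, nat_lit 469353142) ::
  (nat_lit 220880, nat_lit 473040882) ::
  (nat_lit 221860, nat_lit 476728622) ::
  (nat_lit 222840, nat_lit 480416362) ::
  (nat_lit 223820, nat_lit 484104102) ::
  (nat_lit 224800, nat_lit 487791842) ::
  (nat_lit 225780, nat_lit 491479582) ::
  (nat_lit 226760, nat_lit 495167322) ::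
  (nat_lit 227740, nat_lit 498855062) ::
  (nat_lit 228720, nat_lit 502542802) ::
  (nat_lit 229700, nat_lit 506230542) ::
  (nat_lit 230680, nat_lit 509918282) ::
  (nat_lit 231660, nat_lit 513606022) ::
  (nat_lit 232640, nat_lit 517293762) ::
  (nat_lit 233620, nat_lit 520981502) ::
  (nat_lit 234600, nat_lit 524669242) ::
  (nat_lit 235580, nat_lit 528356982) ::
  (nat_lit 236560, nat_lit 532044722) ::
  (nat_lit 237540, nat_lit 535732462) :: tP_15

def tP_13 : List (Nat × Nat) :=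
  (nat_lit 115478, nat_lit 144213578) ::
  (nat_lit 115815, nat_lit 144988678) ::
  (nat_lit 116152, nat_lit 145763778) ::
  (nat_lit 116489, nat_lit 146538878) ::
  (nat_lit 116826, nat_lit 147313978) ::
  (nat_lit 117163, nat_lit 148089078) ::
  (nat_lit 117500, nat_lit 148864178) ::
  (nat_lit 117837, nat_lit 149639278) ::
  (nat_lit 118174, nat_lit 150414378) ::
  (nat_lit 118511, nat_lit 151189478) ::
  (nat_lit 118848, nat_lit 151964578) ::
  (nat_lit 119219, nat_lit 152877609) ::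
  (nat_lit 119590, nat_lit 153790640) ::
  (nat_lit 119961, nat_lit 154703671) ::
  (nat_lit 120332, nat_lit 155616702) ::
  (nat_lit 120703, nat_lit 156529733) ::
  (nat_lit 121074, nat_lit 157442764) ::
  (nat_lit 121445, nat_lit 158355795) ::
  (nat_lit 121816, nat_lit 159268826) ::
  (nat_lit 122187, nat_lit 160181857) ::
  (nat_lit 122558, nat_lit 161094888) ::
  (nat_lit 122929, nat_lit 162007919) ::
  (nat_lit 123300, nat_lit 162920950) ::
  (nat_lit 123671, nat_lit 163833981) ::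
  (nat_lit 124042, nat_lit 164747012) ::
  (nat_lit 124413, nat_lit 165660043) ::
  (nat_lit 124784, nat_lit 166573074) ::
  (nat_lit 125155, nat_lit 167486105) ::
  (nat_lit 125526, nat_lit 168399136) ::
  (nat_lit 125897, nat_lit 169312167) ::
  (nat_lit 126268, nat_lit 170225198) ::
  (nat_lit 126639, nat_lit 171138229) ::
  (nat_lit 127010, nat_lit 172051260) ::
  (nat_lit 127381, nat_lit 172964291) ::
  (nat_lit 127752, nat_lit 173877322) ::
  (nat_lit 128123, nat_lit 174790353) ::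
  (nat_lit 128494, nat_lit 175703384) ::
  (nat_lit 128865, nat_lit 176616415) ::
  (nat_lit 129236, nat_lit 177529446) ::
  (nat_lit 129607, nat_lit 178442477) ::
  (nat_lit 129978, nat_lit 179355508) ::
  (nat_lit 130349, nat_lit 180268539) ::
  (nat_lit 130720, nat_lit 181181570) ::
  (nat_lit 131128, nat_lit 182243594) ::
  (nat_lit 131536, nat_lit 183305618) ::
  (nat_lit 131944, nat_lit 184367642) ::
  (nat_lit 132352, nat_lit 185429666) ::
  (nat_lit 132760, nat_lit 186491690) ::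
  (nat_lit 133168, nat_lit 187553714) ::
  (nat_lit 133576, nat_lit 188615738) ::
  (nat_lit 133984, nat_lit 189677762) ::
  (nat_lit 134392, nat_lit 190739786) ::
  (nat_lit 134800, nat_lit 191801810) ::
  (nat_lit 135208, nat_lit 192863834) ::
  (nat_lit 135616, nat_lit 193925858) ::
  (nat_lit 136024, nat_lit 194987882) ::
  (nat_lit 136432, nat_lit 196049906) ::
  (nat_lit 136840, nat_lit 197111930) ::
  (nat_lit 137248, nat_lit 198173954) ::
  (nat_lit 137656, nat_lit 199235978) ::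
  (nat_lit 138064, nat_lit 200298002) ::
  (nat_lit 138472, nat_lit 201360026) ::
  (nat_lit 138880, nat_lit 202422050) ::
  (nat_lit 139288, nat_lit 203484074) ::
  (nat_lit 139696, nat_lit 204546098) ::
  (nat_lit 140104, nat_lit 205608122) ::
  (nat_lit 140512, nat_lit 206670146) ::
  (nat_lit 140920, nat_lit 207732170) ::
  (nat_lit 141328, nat_lit 208794194) ::
  (nat_lit 141736, nat_lit 209856218) ::
  (nat_lit 142144, nat_lit 210918242) ::
  (nat_lit 142552, nat_lit 211980266) ::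
  (nat_lit 142960, nat_lit 213042290) ::
  (nat_lit 143368, nat_lit 214104314) ::
  (nat_lit 143776, nat_lit 215166338) ::
  (nat_lit 144225, nat_lit 216404680) ::
  (nat_lit 144674, nat_lit 217643022) ::
  (nat_lit 145123, nat_lit 218881364) ::
  (nat_lit 145572, nat_lit 220119706) ::
  (nat_lit 146021, nat_lit 221358048) ::
  (nat_lit 146470, nat_lit 222596390) ::
  (nat_lit 146919, nat_lit 223834732) ::
  (nat_lit 147368, nat_lit 225073074) ::
  (nat_lit 147817, nat_lit 226311416) ::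
  (nat_lit 148266, nat_lit 227549758) ::
  (nat_lit 148715, nat_lit 228788100) ::
  (nat_lit 149164, nat_lit 230026442) ::
  (nat_lit 149613, nat_lit 231264784) ::
  (nat_lit 150062, nat_lit 232503126) ::
  (nat_lit 150511, nat_lit 233741468) ::
  (nat_lit 150960, nat_lit 234979810) ::
  (nat_lit 151409, nat_lit 236218152) ::
  (nat_lit 151858, nat_lit 237456494) ::
  (nat_lit 152307, nat_lit 238694836) ::
  (nat_lit 152756, nat_lit 239933178) ::
  (nat_lit 153205, nat_lit 241171520) ::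
  (nat_lit 153654, nat_lit 242409862) ::
  (nat_lit 154103, nat_lit 243648204) ::
  (nat_lit 154552, nat_lit 244886546) ::
  (nat_lit 155001, nat_lit 246124888) :: tP_14

def tP_12 : List (Nat × Nat) :=
  (nat_lit 85770, nat_lit 80964864) ::
  (nat_lit 86023, nat_lit 81447335) ::
  (nat_lit 86276, nat_lit 81929806) ::
  (nat_lit 86529, nat_lit 82412277) ::
  (nat_lit 86782, nat_lit 82894748) ::
  (nat_lit 87035, nat_lit 83377219) ::
  (nat_lit 87288, nat_lit 83859690) ::
  (nat_lit 87541, nat_lit 84342161) ::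
  (nat_lit 87794, nat_lit 84824632) ::
  (nat_lit 88047, nat_lit 85307103) ::
  (nat_lit 88300, nat_lit 85789574) ::
  (nat_lit 88553, nat_lit 86272045) ::
  (nat_lit 88806, nat_lit 86754516) ::
  (nat_lit 89059, nat_lit 87236987) ::
  (nat_lit 89312, nat_lit 87719458) ::
  (nat_lit 89591, nat_lit 88285828) ::
  (nat_lit 89870, nat_lit 88852198) ::
  (nat_lit 90149, nat_lit 89418568) ::
  (nat_lit 90428, nat_lit 89984938) ::
  (nat_lit 90707, nat_lit 90551308) ::
  (nat_lit 90986, nat_lit 91117678) ::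
  (nat_lit 91265, nat_lit 91684048) ::
  (nat_lit 91544, nat_lit 92250418) ::
  (nat_lit 91823, nat_lit 92816788) ::
  (nat_lit 92102, nat_lit 93383158) ::
  (nat_lit 92381, nat_lit 93949528) ::
  (nat_lit 92660, nat_lit 94515898) ::
  (nat_lit 92939, nat_lit 95082268) ::
  (nat_lit 93218, nat_lit 95648638) ::
  (nat_lit 93497, nat_lit 96215008) ::
  (nat_lit 93776, nat_lit 96781378) ::
  (nat_lit 94055, nat_lit 97347748) ::
  (nat_lit 94334, nat_lit 97914118) ::
  (nat_lit 94613, nat_lit 98480488) ::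
  (nat_lit 94892, nat_lit 99046858) ::
  (nat_lit 95171, nat_lit 99613228) ::
  (nat_lit 95450, nat_lit 100179598) ::
  (nat_lit 95729, nat_lit 100745968) ::
  (nat_lit 96008, nat_lit 101312338) ::
  (nat_lit 96287, nat_lit 101878708) ::
  (nat_lit 96566, nat_lit 102445078) ::
  (nat_lit 96845, nat_lit 103011448) ::
  (nat_lit 97124, nat_lit 103577818) ::
  (nat_lit 97403, nat_lit 104144188) ::
  (nat_lit 97682, nat_lit 104710558) ::
  (nat_lit 97961, nat_lit 105276928) ::
  (nat_lit 98240, nat_lit 105843298) ::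
  (nat_lit 98547, nat_lit 106509488) ::
  (nat_lit 98854, nat_lit 107175678) ::
  (nat_lit 99161, nat_lit 107841868) ::
  (nat_lit 99468, nat_lit 108508058) ::
  (nat_lit 99775, nat_lit 109174248) ::
  (nat_lit 100082, nat_lit 109840438) ::
  (nat_lit 100389, nat_lit 110506628) ::
  (nat_lit 100696, nat_lit 111172818) ::
  (nat_lit 101003, nat_lit 111839008) ::
  (nat_lit 101310, nat_lit 112505198) ::
  (nat_lit 101617, nat_lit 113171388) ::
  (nat_lit 101924, nat_lit 113837578) ::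
  (nat_lit 102231, nat_lit 114503768) ::
  (nat_lit 102538, nat_lit 115169958) ::
  (nat_lit 102845, nat_lit 115836148) ::
  (nat_lit 103152, nat_lit 116502338) ::
  (nat_lit 103459, nat_lit 117168528) ::
  (nat_lit 103766, nat_lit 117834718) ::
  (nat_lit 104073, nat_lit 118500908) ::
  (nat_lit 104380, nat_lit 119167098) ::
  (nat_lit 104687, nat_lit 119833288) ::
  (nat_lit 104994, nat_lit 120499478) ::
  (nat_lit 105301, nat_lit 121165668) ::
  (nat_lit 105608, nat_lit 121831858) ::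
  (nat_lit 105915, nat_lit 122498048) ::
  (nat_lit 106222, nat_lit 123164238) ::
  (nat_lit 106529, nat_lit 123830428) ::
  (nat_lit 106836, nat_lit 124496618) ::
  (nat_lit 107143, nat_lit 125162808) ::
  (nat_lit 107450, nat_lit 125828998) ::
  (nat_lit 107757, nat_lit 126495188) ::
  (nat_lit 108064, nat_lit 127161378) ::
  (nat_lit 108401, nat_lit 127936478) ::
  (nat_lit 108738, nat_lit 128711578) ::
  (nat_lit 109075, nat_lit 129486678) ::
  (nat_lit 109412, nat_lit 130261778) ::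
  (nat_lit 109749, nat_lit 131036878) ::
  (nat_lit 110086, nat_lit 131811978) ::
  (nat_lit 110423, nat_lit 132587078) ::
  (nat_lit 110760, nat_lit 133362178) ::
  (nat_lit 111097, nat_lit 134137278) ::
  (nat_lit 111434, nat_lit 134912378) ::
  (nat_lit 111771, nat_lit 135687478) ::
  (nat_lit 112108, nat_lit 136462578) ::
  (nat_lit 112445, nat_lit 137237678) ::
  (nat_lit 112782, nat_lit 138012778) ::
  (nat_lit 113119, nat_lit 138787878) ::
  (nat_lit 113456, nat_lit 139562978) ::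
  (nat_lit 113793, nat_lit 140338078) ::
  (nat_lit 114130, nat_lit 141113178) ::
  (nat_lit 114467, nat_lit 141888278) ::
  (nat_lit 114804, nat_lit 142663378) ::
  (nat_lit 115141, nat_lit 143438478) :: tP_13

def tP_11 : List (Nat × Nat) :=
  (nat_lit 67482, nat_lit 48475950) ::
  (nat_lit 67605, nat_lit 48674472) ::
  (nat_lit 67728, nat_lit 48872994) ::
  (nat_lit 67851, nat_lit 49071516) ::
  (nat_lit 67974, nat_lit 49270038) ::
  (nat_lit 68097, nat_lit 49468560) ::
  (nat_lit 68220, nat_lit 49667082) ::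
  (nat_lit 68343, nat_lit 49865604) ::
  (nat_lit 68466, nat_lit 50064126) ::
  (nat_lit 68589, nat_lit 50262648) ::
  (nat_lit 68712, nat_lit 50461170) ::
  (nat_lit 68835, nat_lit 50659692) ::
  (nat_lit 68958, nat_lit 50858214) ::
  (nat_lit 69081, nat_lit 51056736) ::
  (nat_lit 69204, nat_lit 51255258) ::
  (nat_lit 69327, nat_lit 51453780) ::
  (nat_lit 69450, nat_lit 51652302) ::
  (nat_lit 69573, nat_lit 51850824) ::
  (nat_lit 69696, nat_lit 52049346) ::
  (nat_lit 69826, nat_lit 52266186) ::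
  (nat_lit 69956, nat_lit 52483026) ::
  (nat_lit 70086, nat_lit 52699866) ::
  (nat_lit 70216, nat_lit 52916706) ::
  (nat_lit 70346, nat_lit 53133546) ::
  (nat_lit 70476, nat_lit 53350386) ::
  (nat_lit 70606, nat_lit 53567226) ::
  (nat_lit 70736, nat_lit 53784066) ::
  (nat_lit 70866, nat_lit 54000906) ::
  (nat_lit 70996, nat_lit 54217746) ::
  (nat_lit 71126, nat_lit 54434586) ::
  (nat_lit 71256, nat_lit 54651426) ::
  (nat_lit 71386, nat_lit 54868266) ::
  (nat_lit 71516, nat_lit 55085106) ::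
  (nat_lit 71646, nat_lit 55301946) ::
  (nat_lit 71776, nat_lit 55518786) ::
  (nat_lit 71906, nat_lit 55735626) ::
  (nat_lit 72036, nat_lit 55952466) ::
  (nat_lit 72166, nat_lit 56169306) ::
  (nat_lit 72296, nat_lit 56386146) ::
  (nat_lit 72426, nat_lit 56602986) ::
  (nat_lit 72556, nat_lit 56819826) ::
  (nat_lit 72686, nat_lit 57036666) ::
  (nat_lit 72816, nat_lit 57253506) ::
  (nat_lit 72946, nat_lit 57470346) ::
  (nat_lit 73076, nat_lit 57687186) ::
  (nat_lit 73206, nat_lit 57904026) ::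
  (nat_lit 73336, nat_lit 58120866) ::
  (nat_lit 73466, nat_lit 58337706) ::
  (nat_lit 73596, nat_lit 58554546) ::
  (nat_lit 73726, nat_lit 58771386) ::
  (nat_lit 73856, nat_lit 58988226) ::
  (nat_lit 74086, nat_lit 59403606) ::
  (nat_lit 74316, nat_lit 59818986) ::
  (nat_lit 74546, nat_lit 60234366) ::
  (nat_lit 74776, nat_lit 60649746) ::
  (nat_lit 75006, nat_lit 61065126) ::
  (nat_lit 75236, nat_lit 61480506) ::
  (nat_lit 75466, nat_lit 61895886) ::
  (nat_lit 75696, nat_lit 62311266) ::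
  (nat_lit 75926, nat_lit 62726646) ::
  (nat_lit 76156, nat_lit 63142026) ::
  (nat_lit 76386, nat_lit 63557406) ::
  (nat_lit 76616, nat_lit 63972786) ::
  (nat_lit 76846, nat_lit 64388166) ::
  (nat_lit 77076, nat_lit 64803546) ::
  (nat_lit 77306, nat_lit 65218926) ::
  (nat_lit 77536, nat_lit 65634306) ::
  (nat_lit 77766, nat_lit 66049686) ::
  (nat_lit 77996, nat_lit 66465066) ::
  (nat_lit 78226, nat_lit 66880446) ::
  (nat_lit 78456, nat_lit 67295826) ::
  (nat_lit 78686, nat_lit 67711206) ::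
  (nat_lit 78916, nat_lit 68126586) ::
  (nat_lit 79146, nat_lit 68541966) ::
  (nat_lit 79376, nat_lit 68957346) ::
  (nat_lit 79606, nat_lit 69372726) ::
  (nat_lit 79836, nat_lit 69788106) ::
  (nat_lit 80066, nat_lit 70203486) ::
  (nat_lit 80296, nat_lit 70618866) ::
  (nat_lit 80526, nat_lit 71034246) ::
  (nat_lit 80756, nat_lit 71449626) ::
  (nat_lit 80986, nat_lit 71865006) ::
  (nat_lit 81216, nat_lit 72280386) ::
  (nat_lit 81469, nat_lit 72762857) ::
  (nat_lit 81722, nat_lit 73245328) ::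
  (nat_lit 81975, nat_lit 73727799) ::
  (nat_lit 82228, nat_lit 74210270) ::
  (nat_lit 82481, nat_lit 74692741) ::
  (nat_lit 82734, nat_lit 75175212) ::
  (nat_lit 82987, nat_lit 75657683) ::
  (nat_lit 83240, nat_lit 76140154) ::
  (nat_lit 83493, nat_lit 76622625) ::
  (nat_lit 83746, nat_lit 77105096) ::
  (nat_lit 83999, nat_lit 77587567) ::
  (nat_lit 84252, nat_lit 78070038) ::
  (nat_lit 84505, nat_lit 78552509) ::
  (nat_lit 84758, nat_lit 79034980) ::
  (nat_lit 85011, nat_lit 79517451) ::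
  (nat_lit 85264, nat_lit 79999922) ::
  (nat_lit 85517, nat_lit 80482393) :: tP_12

def tP_10 : List (Nat × Nat) :=
  (nat_lit 56294, nat_lit 31363836) ::
  (nat_lit 56397, nat_lit 31513701) ::
  (nat_lit 56500, nat_lit 31663566) ::
  (nat_lit 56603, nat_lit 31813431) ::
  (nat_lit 56706, nat_lit 31963296) ::
  (nat_lit 56809, nat_lit 32113161) ::
  (nat_lit 56912, nat_lit 32263026) ::
  (nat_lit 57015, nat_lit 32412891) ::
  (nat_lit 57118, nat_lit 32562756) ::
  (nat_lit 57221, nat_lit 32712621) ::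
  (nat_lit 57324, nat_lit 32862486) ::
  (nat_lit 57427, nat_lit 33012351) ::
  (nat_lit 57530, nat_lit 33162216) ::
  (nat_lit 57633, nat_lit 33312081) ::
  (nat_lit 57736, nat_lit 33461946) ::
  (nat_lit 57839, nat_lit 33611811) ::
  (nat_lit 57942, nat_lit 33761676) ::
  (nat_lit 58045, nat_lit 33911541) ::
  (nat_lit 58148, nat_lit 34061406) ::
  (nat_lit 58251, nat_lit 34211271) ::
  (nat_lit 58354, nat_lit 34361136) ::
  (nat_lit 58457, nat_lit 34511001) ::
  (nat_lit 58560, nat_lit 34660866) ::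
  (nat_lit 58669, nat_lit 34825238) ::
  (nat_lit 58778, nat_lit 34989610) ::
  (nat_lit 58887, nat_lit 35153982) ::
  (nat_lit 58996, nat_lit 35318354) ::
  (nat_lit 59105, nat_lit 35482726) ::
  (nat_lit 59214, nat_lit 35647098) ::
  (nat_lit 59323, nat_lit 35811470) ::
  (nat_lit 59432, nat_lit 35975842) ::
  (nat_lit 59541, nat_lit 36140214) ::
  (nat_lit 59650, nat_lit 36304586) ::
  (nat_lit 59759, nat_lit 36468958) ::
  (nat_lit 59868, nat_lit 36633330) ::
  (nat_lit 59977, nat_lit 36797702) ::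
  (nat_lit 60086, nat_lit 36962074) ::
  (nat_lit 60195, nat_lit 37126446) ::
  (nat_lit 60304, nat_lit 37290818) ::
  (nat_lit 60413, nat_lit 37455190) ::
  (nat_lit 60522, nat_lit 37619562) ::
  (nat_lit 60631, nat_lit 37783934) ::
  (nat_lit 60740, nat_lit 37948306) ::
  (nat_lit 60849, nat_lit 38112678) ::
  (nat_lit 60958, nat_lit 38277050) ::
  (nat_lit 61067, nat_lit 38441422) ::
  (nat_lit 61176, nat_lit 38605794) ::
  (nat_lit 61285, nat_lit 38770166) ::
  (nat_lit 61394, nat_lit 38934538) ::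
  (nat_lit 61503, nat_lit 39098910) ::
  (nat_lit 61612, nat_lit 39263282) ::
  (nat_lit 61721, nat_lit 39427654) ::
  (nat_lit 61830, nat_lit 39592026) ::
  (nat_lit 61939, nat_lit 39756398) ::
  (nat_lit 62048, nat_lit 39920770) ::
  (nat_lit 62164, nat_lit 40101266) ::
  (nat_lit 62280, nat_lit 40281762) ::
  (nat_lit 62396, nat_lit 40462258) ::
  (nat_lit 62512, nat_lit 40642754) ::
  (nat_lit 62628, nat_lit 40823250) ::
  (nat_lit 62744, nat_lit 41003746) ::
  (nat_lit 62860, nat_lit 41184242) ::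
  (nat_lit 62976, nat_lit 41364738) ::
  (nat_lit 63092, nat_lit 41545234) ::
  (nat_lit 63208, nat_lit 41725730) ::
  (nat_lit 63324, nat_lit 41906226) ::
  (nat_lit 63440, nat_lit 42086722) ::
  (nat_lit 63556, nat_lit 42267218) ::
  (nat_lit 63672, nat_lit 42447714) ::
  (nat_lit 63788, nat_lit 42628210) ::
  (nat_lit 63904, nat_lit 42808706) ::
  (nat_lit 64020, nat_lit 42989202) ::
  (nat_lit 64136, nat_lit 43169698) ::
  (nat_lit 64252, nat_lit 43350194) ::
  (nat_lit 64368, nat_lit 43530690) ::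
  (nat_lit 64484, nat_lit 43711186) ::
  (nat_lit 64600, nat_lit 43891682) ::
  (nat_lit 64716, nat_lit 44072178) ::
  (nat_lit 64832, nat_lit 44252674) ::
  (nat_lit 64948, nat_lit 44433170) ::
  (nat_lit 65064, nat_lit 44613666) ::
  (nat_lit 65180, nat_lit 44794162) ::
  (nat_lit 65296, nat_lit 44974658) ::
  (nat_lit 65412, nat_lit 45155154) ::
  (nat_lit 65528, nat_lit 45335650) ::
  (nat_lit 65644, nat_lit 45516146) ::
  (nat_lit 65760, nat_lit 45696642) ::
  (nat_lit 65883, nat_lit 45895164) ::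
  (nat_lit 66006, nat_lit 46093686) ::
  (nat_lit 66129, nat_lit 46292208) ::
  (nat_lit 66252, nat_lit 46490730) ::
  (nat_lit 66375, nat_lit 46689252) ::
  (nat_lit 66498, nat_lit 46887774) ::
  (nat_lit 66621, nat_lit 47086296) ::
  (nat_lit 66744, nat_lit 47284818) ::
  (nat_lit 66867, nat_lit 47483340) ::
  (nat_lit 66990, nat_lit 47681862) ::
  (nat_lit 67113, nat_lit 47880384) ::
  (nat_lit 67236, nat_lit 48078906) ::
  (nat_lit 67359, nat_lit 48277428) :: tP_11

def tP_9 : List (Nat × Nat) :=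
  (nat_lit 46954, nat_lit 18739524) ::
  (nat_lit 47041, nat_lit 18850623) ::
  (nat_lit 47128, nat_lit 18961722) ::
  (nat_lit 47215, nat_lit 19072821) ::
  (nat_lit 47302, nat_lit 19183920) ::
  (nat_lit 47389, nat_lit 19295019) ::
  (nat_lit 47476, nat_lit 19406118) ::
  (nat_lit 47563, nat_lit 19517217) ::
  (nat_lit 47650, nat_lit 19628316) ::
  (nat_lit 47737, nat_lit 19739415) ::
  (nat_lit 47824, nat_lit 19850514) ::
  (nat_lit 47911, nat_lit 19961613) ::
  (nat_lit 47998, nat_lit 20072712) ::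
  (nat_lit 48085, nat_lit 20183811) ::
  (nat_lit 48172, nat_lit 20294910) ::
  (nat_lit 48259, nat_lit 20406009) ::
  (nat_lit 48346, nat_lit 20517108) ::
  (nat_lit 48433, nat_lit 20628207) ::
  (nat_lit 48520, nat_lit 20739306) ::
  (nat_lit 48607, nat_lit 20850405) ::
  (nat_lit 48694, nat_lit 20961504) ::
  (nat_lit 48781, nat_lit 21072603) ::
  (nat_lit 48868, nat_lit 21183702) ::
  (nat_lit 48955, nat_lit 21294801) ::
  (nat_lit 49042, nat_lit 21405900) ::
  (nat_lit 49129, nat_lit 21516999) ::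
  (nat_lit 49216, nat_lit 21628098) ::
  (nat_lit 49308, nat_lit 21749998) ::
  (nat_lit 49400, nat_lit 21871898) ::
  (nat_lit 49492, nat_lit 21993798) ::
  (nat_lit 49584, nat_lit 22115698) ::
  (nat_lit 49676, nat_lit 22237598) ::
  (nat_lit 49768, nat_lit 22359498) ::
  (nat_lit 49860, nat_lit 22481398) ::
  (nat_lit 49952, nat_lit 22603298) ::
  (nat_lit 50044, nat_lit 22725198) ::
  (nat_lit 50136, nat_lit 22847098) ::
  (nat_lit 50228, nat_lit 22968998) ::
  (nat_lit 50320, nat_lit 23090898) ::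
  (nat_lit 50412, nat_lit 23212798) ::
  (nat_lit 50504, nat_lit 23334698) ::
  (nat_lit 50596, nat_lit 23456598) ::
  (nat_lit 50688, nat_lit 23578498) ::
  (nat_lit 50780, nat_lit 23700398) ::
  (nat_lit 50872, nat_lit 23822298) ::
  (nat_lit 50964, nat_lit 23944198) ::
  (nat_lit 51056, nat_lit 24066098) ::
  (nat_lit 51148, nat_lit 24187998) ::
  (nat_lit 51240, nat_lit 24309898) ::
  (nat_lit 51332, nat_lit 24431798) ::
  (nat_lit 51424, nat_lit 24553698) ::
  (nat_lit 51516, nat_lit 24675598) ::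
  (nat_lit 51608, nat_lit 24797498) ::
  (nat_lit 51700, nat_lit 24919398) ::
  (nat_lit 51792, nat_lit 25041298) ::
  (nat_lit 51884, nat_lit 25163198) ::
  (nat_lit 51976, nat_lit 25285098) ::
  (nat_lit 52068, nat_lit 25406998) ::
  (nat_lit 52160, nat_lit 25528898) ::
  (nat_lit 52257, nat_lit 25664407) ::
  (nat_lit 52354, nat_lit 25799916) ::
  (nat_lit 52451, nat_lit 25935425) ::
  (nat_lit 52548, nat_lit 26070934) ::
  (nat_lit 52645, nat_lit 26206443) ::
  (nat_lit 52742, nat_lit 26341952) ::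
  (nat_lit 52839, nat_lit 26477461) ::
  (nat_lit 52936, nat_lit 26612970) ::
  (nat_lit 53033, nat_lit 26748479) ::
  (nat_lit 53130, nat_lit 26883988) ::
  (nat_lit 53227, nat_lit 27019497) ::
  (nat_lit 53324, nat_lit 27155006) ::
  (nat_lit 53421, nat_lit 27290515) ::
  (nat_lit 53518, nat_lit 27426024) ::
  (nat_lit 53615, nat_lit 27561533) ::
  (nat_lit 53712, nat_lit 27697042) ::
  (nat_lit 53809, nat_lit 27832551) ::
  (nat_lit 53906, nat_lit 27968060) ::
  (nat_lit 54003, nat_lit 28103569) ::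
  (nat_lit 54100, nat_lit 28239078) ::
  (nat_lit 54197, nat_lit 28374587) ::
  (nat_lit 54294, nat_lit 28510096) ::
  (nat_lit 54391, nat_lit 28645605) ::
  (nat_lit 54488, nat_lit 28781114) ::
  (nat_lit 54585, nat_lit 28916623) ::
  (nat_lit 54682, nat_lit 29052132) ::
  (nat_lit 54779, nat_lit 29187641) ::
  (nat_lit 54876, nat_lit 29323150) ::
  (nat_lit 54973, nat_lit 29458659) ::
  (nat_lit 55070, nat_lit 29594168) ::
  (nat_lit 55167, nat_lit 29729677) ::
  (nat_lit 55264, nat_lit 29865186) ::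
  (nat_lit 55367, nat_lit 30015051) ::
  (nat_lit 55470, nat_lit 30164916) ::
  (nat_lit 55573, nat_lit 30314781) ::
  (nat_lit 55676, nat_lit 30464646) ::
  (nat_lit 55779, nat_lit 30614511) ::
  (nat_lit 55882, nat_lit 30764376) ::
  (nat_lit 55985, nat_lit 30914241) ::
  (nat_lit 56088, nat_lit 31064106) ::
  (nat_lit 56191, nat_lit 31213971) :: tP_10

def tP_8 : List (Nat × Nat) :=
  (nat_lit 39154, nat_lit 9495226) ::
  (nat_lit 39227, nat_lit 9577862) ::
  (nat_lit 39300, nat_lit 9660498) ::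
  (nat_lit 39373, nat_lit 9743134) ::
  (nat_lit 39446, nat_lit 9825770) ::
  (nat_lit 39519, nat_lit 9908406) ::
  (nat_lit 39592, nat_lit 9991042) ::
  (nat_lit 39665, nat_lit 10073678) ::
  (nat_lit 39738, nat_lit 10156314) ::
  (nat_lit 39811, nat_lit 10238950) ::
  (nat_lit 39884, nat_lit 10321586) ::
  (nat_lit 39957, nat_lit 10404222) ::
  (nat_lit 40030, nat_lit 10486858) ::
  (nat_lit 40103, nat_lit 10569494) ::
  (nat_lit 40176, nat_lit 10652130) ::
  (nat_lit 40249, nat_lit 10734766) ::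
  (nat_lit 40322, nat_lit 10817402) ::
  (nat_lit 40395, nat_lit 10900038) ::
  (nat_lit 40468, nat_lit 10982674) ::
  (nat_lit 40541, nat_lit 11065310) ::
  (nat_lit 40614, nat_lit 11147946) ::
  (nat_lit 40687, nat_lit 11230582) ::
  (nat_lit 40760, nat_lit 11313218) ::
  (nat_lit 40833, nat_lit 11395854) ::
  (nat_lit 40906, nat_lit 11478490) ::
  (nat_lit 40979, nat_lit 11561126) ::
  (nat_lit 41052, nat_lit 11643762) ::
  (nat_lit 41125, nat_lit 11726398) ::
  (nat_lit 41198, nat_lit 11809034) ::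
  (nat_lit 41271, nat_lit 11891670) ::
  (nat_lit 41344, nat_lit 11974306) ::
  (nat_lit 41421, nat_lit 12065012) ::
  (nat_lit 41498, nat_lit 12155718) ::
  (nat_lit 41575, nat_lit 12246424) ::
  (nat_lit 41652, nat_lit 12337130) ::
  (nat_lit 41729, nat_lit 12427836) ::
  (nat_lit 41806, nat_lit 12518542) ::
  (nat_lit 41883, nat_lit 12609248) ::
  (nat_lit 41960, nat_lit 12699954) ::
  (nat_lit 42037, nat_lit 12790660) ::
  (nat_lit 42114, nat_lit 12881366) ::
  (nat_lit 42191, nat_lit 12972072) ::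
  (nat_lit 42268, nat_lit 13062778) ::
  (nat_lit 42345, nat_lit 13153484) ::
  (nat_lit 42422, nat_lit 13244190) ::
  (nat_lit 42499, nat_lit 13334896) ::
  (nat_lit 42576, nat_lit 13425602) ::
  (nat_lit 42653, nat_lit 13516308) ::
  (nat_lit 42730, nat_lit 13607014) ::
  (nat_lit 42807, nat_lit 13697720) ::
  (nat_lit 42884, nat_lit 13788426) ::
  (nat_lit 42961, nat_lit 13879132) ::
  (nat_lit 43038, nat_lit 13969838) ::
  (nat_lit 43115, nat_lit 14060544) ::
  (nat_lit 43192, nat_lit 14151250) ::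
  (nat_lit 43269, nat_lit 14241956) ::
  (nat_lit 43346, nat_lit 14332662) ::
  (nat_lit 43423, nat_lit 14423368) ::
  (nat_lit 43500, nat_lit 14514074) ::
  (nat_lit 43577, nat_lit 14604780) ::
  (nat_lit 43654, nat_lit 14695486) ::
  (nat_lit 43731, nat_lit 14786192) ::
  (nat_lit 43808, nat_lit 14876898) ::
  (nat_lit 43890, nat_lit 14976774) ::
  (nat_lit 43972, nat_lit 15076650) ::
  (nat_lit 44054, nat_lit 15176526) ::
  (nat_lit 44136, nat_lit 15276402) ::
  (nat_lit 44218, nat_lit 15376278) ::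
  (nat_lit 44300, nat_lit 15476154) ::
  (nat_lit 44382, nat_lit 15576030) ::
  (nat_lit 44464, nat_lit 15675906) ::
  (nat_lit 44546, nat_lit 15775782) ::
  (nat_lit 44628, nat_lit 15875658) ::
  (nat_lit 44710, nat_lit 15975534) ::
  (nat_lit 44792, nat_lit 16075410) ::
  (nat_lit 44874, nat_lit 16175286) ::
  (nat_lit 44956, nat_lit 16275162) ::
  (nat_lit 45038, nat_lit 16375038) ::
  (nat_lit 45120, nat_lit 16474914) ::
  (nat_lit 45202, nat_lit 16574790) ::
  (nat_lit 45284, nat_lit 16674666) ::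
  (nat_lit 45366, nat_lit 16774542) ::
  (nat_lit 45448, nat_lit 16874418) ::
  (nat_lit 45530, nat_lit 16974294) ::
  (nat_lit 45612, nat_lit 17074170) ::
  (nat_lit 45694, nat_lit 17174046) ::
  (nat_lit 45776, nat_lit 17273922) ::
  (nat_lit 45858, nat_lit 17373798) ::
  (nat_lit 45940, nat_lit 17473674) ::
  (nat_lit 46022, nat_lit 17573550) ::
  (nat_lit 46104, nat_lit 17673426) ::
  (nat_lit 46186, nat_lit 17773302) ::
  (nat_lit 46268, nat_lit 17873178) ::
  (nat_lit 46350, nat_lit 17973054) ::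
  (nat_lit 46432, nat_lit 18072930) ::
  (nat_lit 46519, nat_lit 18184029) ::
  (nat_lit 46606, nat_lit 18295128) ::
  (nat_lit 46693, nat_lit 18406227) ::
  (nat_lit 46780, nat_lit 18517326) ::
  (nat_lit 46867, nat_lit 18628425) :: tP_9

def tP_7 : List (Nat × Nat) :=
  (nat_lit 32256, nat_lit 2633525) ::
  (nat_lit 32512, nat_lit 2678950) ::
  (nat_lit 32768, nat_lit 2724546) ::
  (nat_lit 32829, nat_lit 2786888) ::
  (nat_lit 32890, nat_lit 2849230) ::
  (nat_lit 32951, nat_lit 2911572) ::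
  (nat_lit 33012, nat_lit 2973914) ::
  (nat_lit 33073, nat_lit 3036256) ::
  (nat_lit 33134, nat_lit 3098598) ::
  (nat_lit 33195, nat_lit 3160940) ::
  (nat_lit 33256, nat_lit 3223282) ::
  (nat_lit 33317, nat_lit 3285624) ::
  (nat_lit 33378, nat_lit 3347966) ::
  (nat_lit 33439, nat_lit 3410308) ::
  (nat_lit 33500, nat_lit 3472650) ::
  (nat_lit 33561, nat_lit 3534992) ::
  (nat_lit 33622, nat_lit 3597334) ::
  (nat_lit 33683, nat_lit 3659676) ::
  (nat_lit 33744, nat_lit 3722018) ::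
  (nat_lit 33805, nat_lit 3784360) ::
  (nat_lit 33866, nat_lit 3846702) ::
  (nat_lit 33927, nat_lit 3909044) ::
  (nat_lit 33988, nat_lit 3971386) ::
  (nat_lit 34049, nat_lit 4033728) ::
  (nat_lit 34110, nat_lit 4096070) ::
  (nat_lit 34171, nat_lit 4158412) ::
  (nat_lit 34232, nat_lit 4220754) ::
  (nat_lit 34293, nat_lit 4283096) ::
  (nat_lit 34354, nat_lit 4345438) ::
  (nat_lit 34415, nat_lit 4407780) ::
  (nat_lit 34476, nat_lit 4470122) ::
  (nat_lit 34537, nat_lit 4532464) ::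
  (nat_lit 34598, nat_lit 4594806) ::
  (nat_lit 34659, nat_lit 4657148) ::
  (nat_lit 34720, nat_lit 4719490) ::
  (nat_lit 34785, nat_lit 4787805) ::
  (nat_lit 34850, nat_lit 4856120) ::
  (nat_lit 34915, nat_lit 4924435) ::
  (nat_lit 34980, nat_lit 4992750) ::
  (nat_lit 35045, nat_lit 5061065) ::
  (nat_lit 35110, nat_lit 5129380) ::
  (nat_lit 35175, nat_lit 5197695) ::
  (nat_lit 35240, nat_lit 5266010) ::
  (nat_lit 35305, nat_lit 5334325) ::
  (nat_lit 35370, nat_lit 5402640) ::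
  (nat_lit 35435, nat_lit 5470955) ::
  (nat_lit 35500, nat_lit 5539270) ::
  (nat_lit 35565, nat_lit 5607585) ::
  (nat_lit 35630, nat_lit 5675900) ::
  (nat_lit 35695, nat_lit 5744215) ::
  (nat_lit 35760, nat_lit 5812530) ::
  (nat_lit 35825, nat_lit 5880845) ::
  (nat_lit 35890, nat_lit 5949160) ::
  (nat_lit 35955, nat_lit 6017475) ::
  (nat_lit 36020, nat_lit 6085790) ::
  (nat_lit 36085, nat_lit 6154105) ::
  (nat_lit 36150, nat_lit 6222420) ::
  (nat_lit 36215, nat_lit 6290735) ::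
  (nat_lit 36280, nat_lit 6359050) ::
  (nat_lit 36345, nat_lit 6427365) ::
  (nat_lit 36410, nat_lit 6495680) ::
  (nat_lit 36475, nat_lit 6563995) ::
  (nat_lit 36540, nat_lit 6632310) ::
  (nat_lit 36605, nat_lit 6700625) ::
  (nat_lit 36670, nat_lit 6768940) ::
  (nat_lit 36735, nat_lit 6837255) ::
  (nat_lit 36800, nat_lit 6905570) ::
  (nat_lit 36869, nat_lit 6981332) ::
  (nat_lit 36938, nat_lit 7057094) ::
  (nat_lit 37007, nat_lit 7132856) ::
  (nat_lit 37076, nat_lit 7208618) ::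
  (nat_lit 37145, nat_lit 7284380) ::
  (nat_lit 37214, nat_lit 7360142) ::
  (nat_lit 37283, nat_lit 7435904) ::
  (nat_lit 37352, nat_lit 7511666) ::
  (nat_lit 37421, nat_lit 7587428) ::
  (nat_lit 37490, nat_lit 7663190) ::
  (nat_lit 37559, nat_lit 7738952) ::
  (nat_lit 37628, nat_lit 7814714) ::
  (nat_lit 37697, nat_lit 7890476) ::
  (nat_lit 37766, nat_lit 7966238) ::
  (nat_lit 37835, nat_lit 8042000) ::
  (nat_lit 37904, nat_lit 8117762) ::
  (nat_lit 37973, nat_lit 8193524) ::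
  (nat_lit 38042, nat_lit 8269286) ::
  (nat_lit 38111, nat_lit 8345048) ::
  (nat_lit 38180, nat_lit 8420810) ::
  (nat_lit 38249, nat_lit 8496572) ::
  (nat_lit 38318, nat_lit 8572334) ::
  (nat_lit 38387, nat_lit 8648096) ::
  (nat_lit 38456, nat_lit 8723858) ::
  (nat_lit 38525, nat_lit 8799620) ::
  (nat_lit 38594, nat_lit 8875382) ::
  (nat_lit 38663, nat_lit 8951144) ::
  (nat_lit 38732, nat_lit 9026906) ::
  (nat_lit 38801, nat_lit 9102668) ::
  (nat_lit 38870, nat_lit 9178430) ::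
  (nat_lit 38939, nat_lit 9254192) ::
  (nat_lit 39008, nat_lit 9329954) ::
  (nat_lit 39081, nat_lit 9412590) :: tP_8

def tP_6 : List (Nat × Nat) :=
  (nat_lit 11520, nat_lit 151323) ::
  (nat_lit 11648, nat_lit 154184) ::
  (nat_lit 11776, nat_lit 156971) ::
  (nat_lit 11904, nat_lit 159875) ::
  (nat_lit 12032, nat_lit 162676) ::
  (nat_lit 12160, nat_lit 165579) ::
  (nat_lit 12288, nat_lit 168478) ::
  (nat_lit 12416, nat_lit 171292) ::
  (nat_lit 12544, nat_lit 174138) ::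
  (nat_lit 12672, nat_lit 176994) ::
  (nat_lit 12800, nat_lit 179828) ::
  (nat_lit 12928, nat_lit 182697) ::
  (nat_lit 13056, nat_lit 185537) ::
  (nat_lit 13184, nat_lit 188412) ::
  (nat_lit 13312, nat_lit 191346) ::
  (nat_lit 13440, nat_lit 194337) ::
  (nat_lit 13568, nat_lit 197272) ::
  (nat_lit 13696, nat_lit 200318) ::
  (nat_lit 13824, nat_lit 203248) ::
  (nat_lit 13952, nat_lit 206270) ::
  (nat_lit 14080, nat_lit 209265) ::
  (nat_lit 14208, nat_lit 212177) ::
  (nat_lit 14336, nat_lit 215181) ::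
  (nat_lit 14464, nat_lit 218279) ::
  (nat_lit 14592, nat_lit 221323) ::
  (nat_lit 14720, nat_lit 224298) ::
  (nat_lit 14848, nat_lit 227380) ::
  (nat_lit 14976, nat_lit 230517) ::
  (nat_lit 15104, nat_lit 233690) ::
  (nat_lit 15232, nat_lit 236809) ::
  (nat_lit 15360, nat_lit 239964) ::
  (nat_lit 15488, nat_lit 243022) ::
  (nat_lit 15616, nat_lit 246205) ::
  (nat_lit 15744, nat_lit 249428) ::
  (nat_lit 15872, nat_lit 252540) ::
  (nat_lit 16000, nat_lit 255707) ::
  (nat_lit 16128, nat_lit 258866) ::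
  (nat_lit 16256, nat_lit 261989) ::
  (nat_lit 16384, nat_lit 265173) ::
  (nat_lit 16640, nat_lit 296178) ::
  (nat_lit 16896, nat_lit 327550) ::
  (nat_lit 17152, nat_lit 359376) ::
  (nat_lit 17408, nat_lit 391365) ::
  (nat_lit 17664, nat_lit 423299) ::
  (nat_lit 17920, nat_lit 455684) ::
  (nat_lit 18176, nat_lit 488208) ::
  (nat_lit 18432, nat_lit 520944) ::
  (nat_lit 18688, nat_lit 553813) ::
  (nat_lit 18944, nat_lit 587164) ::
  (nat_lit 19200, nat_lit 620751) ::
  (nat_lit 19456, nat_lit 654366) ::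
  (nat_lit 19712, nat_lit 687888) ::
  (nat_lit 19968, nat_lit 721774) ::
  (nat_lit 20224, nat_lit 756520) ::
  (nat_lit 20480, nat_lit 790995) ::
  (nat_lit 20736, nat_lit 825437) ::
  (nat_lit 20992, nat_lit 860190) ::
  (nat_lit 21248, nat_lit 895512) ::
  (nat_lit 21504, nat_lit 930885) ::
  (nat_lit 21760, nat_lit 966452) ::
  (nat_lit 22016, nat_lit 1002438) ::
  (nat_lit 22272, nat_lit 1038576) ::
  (nat_lit 22528, nat_lit 1075107) ::
  (nat_lit 22784, nat_lit 1112383) ::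
  (nat_lit 23040, nat_lit 1149257) ::
  (nat_lit 23296, nat_lit 1186602) ::
  (nat_lit 23552, nat_lit 1223936) ::
  (nat_lit 23808, nat_lit 1261598) ::
  (nat_lit 24064, nat_lit 1299468) ::
  (nat_lit 24320, nat_lit 1337484) ::
  (nat_lit 24576, nat_lit 1375690) ::
  (nat_lit 24832, nat_lit 1414180) ::
  (nat_lit 25088, nat_lit 1452883) ::
  (nat_lit 25344, nat_lit 1491880) ::
  (nat_lit 25600, nat_lit 1531004) ::
  (nat_lit 25856, nat_lit 1570464) ::
  (nat_lit 26112, nat_lit 1610455) ::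
  (nat_lit 26368, nat_lit 1650389) ::
  (nat_lit 26624, nat_lit 1690603) ::
  (nat_lit 26880, nat_lit 1731183) ::
  (nat_lit 27136, nat_lit 1772153) ::
  (nat_lit 27392, nat_lit 1813217) ::
  (nat_lit 27648, nat_lit 1854408) ::
  (nat_lit 27904, nat_lit 1895651) ::
  (nat_lit 28160, nat_lit 1937314) ::
  (nat_lit 28416, nat_lit 1978859) ::
  (nat_lit 28672, nat_lit 2021066) ::
  (nat_lit 28928, nat_lit 2063750) ::
  (nat_lit 29184, nat_lit 2106588) ::
  (nat_lit 29440, nat_lit 2148948) ::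
  (nat_lit 29696, nat_lit 2192226) ::
  (nat_lit 29952, nat_lit 2235458) ::
  (nat_lit 30208, nat_lit 2278662) ::
  (nat_lit 30464, nat_lit 2322445) ::
  (nat_lit 30720, nat_lit 2365969) ::
  (nat_lit 30976, nat_lit 2409767) ::
  (nat_lit 31232, nat_lit 2454285) ::
  (nat_lit 31488, nat_lit 2498838) ::
  (nat_lit 31744, nat_lit 2543650) ::
  (nat_lit 32000, nat_lit 2588524) :: tP_7

def tP_5 : List (Nat × Nat) :=
  (nat_lit 3776, nat_lit 27012) ::
  (nat_lit 3808, nat_lit 27373) ::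
  (nat_lit 3840, nat_lit 27704) ::
  (nat_lit 3872, nat_lit 28044) ::
  (nat_lit 3904, nat_lit 28379) ::
  (nat_lit 3936, nat_lit 28716) ::
  (nat_lit 3968, nat_lit 29056) ::
  (nat_lit 4000, nat_lit 29417) ::
  (nat_lit 4032, nat_lit 29774) ::
  (nat_lit 4064, nat_lit 30155) ::
  (nat_lit 4096, nat_lit 30496) ::
  (nat_lit 4160, nat_lit 31203) ::
  (nat_lit 4224, nat_lit 31887) ::
  (nat_lit 4288, nat_lit 32585) ::
  (nat_lit 4352, nat_lit 33334) ::
  (nat_lit 4416, nat_lit 34016) ::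
  (nat_lit 4480, nat_lit 34758) ::
  (nat_lit 4544, nat_lit 35538) ::
  (nat_lit 4608, nat_lit 36346) ::
  (nat_lit 4672, nat_lit 37107) ::
  (nat_lit 4736, nat_lit 37892) ::
  (nat_lit 4800, nat_lit 38661) ::
  (nat_lit 4864, nat_lit 39420) ::
  (nat_lit 4928, nat_lit 40219) ::
  (nat_lit 4992, nat_lit 41013) ::
  (nat_lit 5056, nat_lit 41763) ::
  (nat_lit 5120, nat_lit 42570) ::
  (nat_lit 5184, nat_lit 43376) ::
  (nat_lit 5248, nat_lit 44200) ::
  (nat_lit 5312, nat_lit 45018) ::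
  (nat_lit 5376, nat_lit 45808) ::
  (nat_lit 5440, nat_lit 46600) ::
  (nat_lit 5504, nat_lit 47410) ::
  (nat_lit 5568, nat_lit 48174) ::
  (nat_lit 5632, nat_lit 48985) ::
  (nat_lit 5696, nat_lit 49754) ::
  (nat_lit 5760, nat_lit 50610) ::
  (nat_lit 5824, nat_lit 51439) ::
  (nat_lit 5888, nat_lit 52210) ::
  (nat_lit 5952, nat_lit 53059) ::
  (nat_lit 6016, nat_lit 53895) ::
  (nat_lit 6080, nat_lit 54702) ::
  (nat_lit 6144, nat_lit 55506) ::
  (nat_lit 6208, nat_lit 56358) ::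
  (nat_lit 6272, nat_lit 57267) ::
  (nat_lit 6336, nat_lit 58157) ::
  (nat_lit 6400, nat_lit 58966) ::
  (nat_lit 6464, nat_lit 59762) ::
  (nat_lit 6528, nat_lit 60620) ::
  (nat_lit 6592, nat_lit 61533) ::
  (nat_lit 6656, nat_lit 62441) ::
  (nat_lit 6720, nat_lit 63271) ::
  (nat_lit 6784, nat_lit 64120) ::
  (nat_lit 6848, nat_lit 65016) ::
  (nat_lit 6912, nat_lit 65875) ::
  (nat_lit 6976, nat_lit 66721) ::
  (nat_lit 7040, nat_lit 67542) ::
  (nat_lit 7104, nat_lit 68477) ::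
  (nat_lit 7168, nat_lit 69388) ::
  (nat_lit 7232, nat_lit 70285) ::
  (nat_lit 7296, nat_lit 71179) ::
  (nat_lit 7360, nat_lit 72095) ::
  (nat_lit 7424, nat_lit 72970) ::
  (nat_lit 7488, nat_lit 73929) ::
  (nat_lit 7552, nat_lit 74854) ::
  (nat_lit 7616, nat_lit 75799) ::
  (nat_lit 7680, nat_lit 76725) ::
  (nat_lit 7744, nat_lit 77634) ::
  (nat_lit 7808, nat_lit 78563) ::
  (nat_lit 7872, nat_lit 79515) ::
  (nat_lit 7936, nat_lit 80445) ::
  (nat_lit 8000, nat_lit 81405) ::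
  (nat_lit 8064, nat_lit 82334) ::
  (nat_lit 8128, nat_lit 83267) ::
  (nat_lit 8192, nat_lit 84222) ::
  (nat_lit 8320, nat_lit 86679) ::
  (nat_lit 8448, nat_lit 89093) ::
  (nat_lit 8576, nat_lit 91486) ::
  (nat_lit 8704, nat_lit 93801) ::
  (nat_lit 8832, nat_lit 96225) ::
  (nat_lit 8960, nat_lit 98731) ::
  (nat_lit 9088, nat_lit 101281) ::
  (nat_lit 9216, nat_lit 103785) ::
  (nat_lit 9344, nat_lit 106276) ::
  (nat_lit 9472, nat_lit 108820) ::
  (nat_lit 9600, nat_lit 111441) ::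
  (nat_lit 9728, nat_lit 113959) ::
  (nat_lit 9856, nat_lit 116566) ::
  (nat_lit 9984, nat_lit 119106) ::
  (nat_lit 10112, nat_lit 121715) ::
  (nat_lit 10240, nat_lit 124328) ::
  (nat_lit 10368, nat_lit 126908) ::
  (nat_lit 10496, nat_lit 129529) ::
  (nat_lit 10624, nat_lit 132216) ::
  (nat_lit 10752, nat_lit 134939) ::
  (nat_lit 10880, nat_lit 137632) ::
  (nat_lit 11008, nat_lit 140359) ::
  (nat_lit 11136, nat_lit 143122) ::
  (nat_lit 11264, nat_lit 145886) ::
  (nat_lit 11392, nat_lit 148633) :: tP_6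

def tP_4 : List (Nat × Nat) :=
  (nat_lit 1312, nat_lit 5685) ::
  (nat_lit 1328, nat_lit 5777) ::
  (nat_lit 1344, nat_lit 5885) ::
  (nat_lit 1360, nat_lit 5985) ::
  (nat_lit 1376, nat_lit 6095) ::
  (nat_lit 1392, nat_lit 6195) ::
  (nat_lit 1408, nat_lit 6323) ::
  (nat_lit 1424, nat_lit 6424) ::
  (nat_lit 1440, nat_lit 6534) ::
  (nat_lit 1456, nat_lit 6640) ::
  (nat_lit 1472, nat_lit 6758) ::
  (nat_lit 1488, nat_lit 6870) ::
  (nat_lit 1504, nat_lit 6984) ::
  (nat_lit 1520, nat_lit 7093) ::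
  (nat_lit 1536, nat_lit 7216) ::
  (nat_lit 1552, nat_lit 7328) ::
  (nat_lit 1568, nat_lit 7423) ::
  (nat_lit 1584, nat_lit 7541) ::
  (nat_lit 1600, nat_lit 7655) ::
  (nat_lit 1616, nat_lit 7765) ::
  (nat_lit 1632, nat_lit 7867) ::
  (nat_lit 1648, nat_lit 8000) ::
  (nat_lit 1664, nat_lit 8093) ::
  (nat_lit 1680, nat_lit 8186) ::
  (nat_lit 1696, nat_lit 8314) ::
  (nat_lit 1712, nat_lit 8424) ::
  (nat_lit 1728, nat_lit 8528) ::
  (nat_lit 1744, nat_lit 8621) ::
  (nat_lit 1760, nat_lit 8754) ::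
  (nat_lit 1776, nat_lit 8866) ::
  (nat_lit 1792, nat_lit 9009) ::
  (nat_lit 1808, nat_lit 9150) ::
  (nat_lit 1824, nat_lit 9272) ::
  (nat_lit 1840, nat_lit 9392) ::
  (nat_lit 1856, nat_lit 9516) ::
  (nat_lit 1872, nat_lit 9651) ::
  (nat_lit 1888, nat_lit 9777) ::
  (nat_lit 1904, nat_lit 9906) ::
  (nat_lit 1920, nat_lit 10027) ::
  (nat_lit 1936, nat_lit 10163) ::
  (nat_lit 1952, nat_lit 10303) ::
  (nat_lit 1968, nat_lit 10429) ::
  (nat_lit 1984, nat_lit 10563) ::
  (nat_lit 2000, nat_lit 10654) ::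
  (nat_lit 2016, nat_lit 10773) ::
  (nat_lit 2032, nat_lit 10910) ::
  (nat_lit 2048, nat_lit 11019) ::
  (nat_lit 2080, nat_lit 11280) ::
  (nat_lit 2112, nat_lit 11530) ::
  (nat_lit 2144, nat_lit 11752) ::
  (nat_lit 2176, nat_lit 12003) ::
  (nat_lit 2208, nat_lit 12262) ::
  (nat_lit 2240, nat_lit 12534) ::
  (nat_lit 2272, nat_lit 12764) ::
  (nat_lit 2304, nat_lit 13040) ::
  (nat_lit 2336, nat_lit 13286) ::
  (nat_lit 2368, nat_lit 13553) ::
  (nat_lit 2400, nat_lit 13849) ::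
  (nat_lit 2432, nat_lit 14108) ::
  (nat_lit 2464, nat_lit 14351) ::
  (nat_lit 2496, nat_lit 14617) ::
  (nat_lit 2528, nat_lit 14885) ::
  (nat_lit 2560, nat_lit 15154) ::
  (nat_lit 2592, nat_lit 15449) ::
  (nat_lit 2624, nat_lit 15699) ::
  (nat_lit 2656, nat_lit 15921) ::
  (nat_lit 2688, nat_lit 16199) ::
  (nat_lit 2720, nat_lit 16492) ::
  (nat_lit 2752, nat_lit 16787) ::
  (nat_lit 2784, nat_lit 17098) ::
  (nat_lit 2816, nat_lit 17415) ::
  (nat_lit 2848, nat_lit 17681) ::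
  (nat_lit 2880, nat_lit 17994) ::
  (nat_lit 2912, nat_lit 18295) ::
  (nat_lit 2944, nat_lit 18612) ::
  (nat_lit 2976, nat_lit 18920) ::
  (nat_lit 3008, nat_lit 19218) ::
  (nat_lit 3040, nat_lit 19533) ::
  (nat_lit 3072, nat_lit 19844) ::
  (nat_lit 3104, nat_lit 20161) ::
  (nat_lit 3136, nat_lit 20482) ::
  (nat_lit 3168, nat_lit 20807) ::
  (nat_lit 3200, nat_lit 21125) ::
  (nat_lit 3232, nat_lit 21439) ::
  (nat_lit 3264, nat_lit 21728) ::
  (nat_lit 3296, nat_lit 22077) ::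
  (nat_lit 3328, nat_lit 22390) ::
  (nat_lit 3360, nat_lit 22686) ::
  (nat_lit 3392, nat_lit 23005) ::
  (nat_lit 3424, nat_lit 23344) ::
  (nat_lit 3456, nat_lit 23659) ::
  (nat_lit 3488, nat_lit 23956) ::
  (nat_lit 3520, nat_lit 24260) ::
  (nat_lit 3552, nat_lit 24627) ::
  (nat_lit 3584, nat_lit 24981) ::
  (nat_lit 3616, nat_lit 25318) ::
  (nat_lit 3648, nat_lit 25660) ::
  (nat_lit 3680, nat_lit 25988) ::
  (nat_lit 3712, nat_lit 26347) ::
  (nat_lit 3744, nat_lit 26687) :: tP_5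

def tP_3 : List (Nat × Nat) :=
  (nat_lit 440, nat_lit 1238) ::
  (nat_lit 444, nat_lit 1254) ::
  (nat_lit 448, nat_lit 1266) ::
  (nat_lit 452, nat_lit 1291) ::
  (nat_lit 456, nat_lit 1306) ::
  (nat_lit 460, nat_lit 1321) ::
  (nat_lit 464, nat_lit 1331) ::
  (nat_lit 468, nat_lit 1357) ::
  (nat_lit 472, nat_lit 1378) ::
  (nat_lit 476, nat_lit 1388) ::
  (nat_lit 480, nat_lit 1397) ::
  (nat_lit 484, nat_lit 1409) ::
  (nat_lit 488, nat_lit 1419) ::
  (nat_lit 492, nat_lit 1436) ::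
  (nat_lit 496, nat_lit 1458) ::
  (nat_lit 500, nat_lit 1469) ::
  (nat_lit 504, nat_lit 1485) ::
  (nat_lit 508, nat_lit 1509) ::
  (nat_lit 512, nat_lit 1516) ::
  (nat_lit 520, nat_lit 1547) ::
  (nat_lit 528, nat_lit 1585) ::
  (nat_lit 536, nat_lit 1625) ::
  (nat_lit 544, nat_lit 1654) ::
  (nat_lit 552, nat_lit 1690) ::
  (nat_lit 560, nat_lit 1717) ::
  (nat_lit 568, nat_lit 1748) ::
  (nat_lit 576, nat_lit 1779) ::
  (nat_lit 584, nat_lit 1813) ::
  (nat_lit 592, nat_lit 1844) ::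
  (nat_lit 600, nat_lit 1880) ::
  (nat_lit 608, nat_lit 1907) ::
  (nat_lit 616, nat_lit 1949) ::
  (nat_lit 624, nat_lit 1982) ::
  (nat_lit 632, nat_lit 2016) ::
  (nat_lit 640, nat_lit 2058) ::
  (nat_lit 648, nat_lit 2094) ::
  (nat_lit 656, nat_lit 2140) ::
  (nat_lit 664, nat_lit 2169) ::
  (nat_lit 672, nat_lit 2209) ::
  (nat_lit 680, nat_lit 2246) ::
  (nat_lit 688, nat_lit 2275) ::
  (nat_lit 696, nat_lit 2318) ::
  (nat_lit 704, nat_lit 2376) ::
  (nat_lit 712, nat_lit 2424) ::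
  (nat_lit 720, nat_lit 2456) ::
  (nat_lit 728, nat_lit 2487) ::
  (nat_lit 736, nat_lit 2520) ::
  (nat_lit 744, nat_lit 2562) ::
  (nat_lit 752, nat_lit 2605) ::
  (nat_lit 760, nat_lit 2636) ::
  (nat_lit 768, nat_lit 2666) ::
  (nat_lit 776, nat_lit 2699) ::
  (nat_lit 784, nat_lit 2730) ::
  (nat_lit 792, nat_lit 2775) ::
  (nat_lit 800, nat_lit 2809) ::
  (nat_lit 808, nat_lit 2835) ::
  (nat_lit 816, nat_lit 2873) ::
  (nat_lit 824, nat_lit 2913) ::
  (nat_lit 832, nat_lit 2941) ::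
  (nat_lit 840, nat_lit 2976) ::
  (nat_lit 848, nat_lit 3026) ::
  (nat_lit 856, nat_lit 3065) ::
  (nat_lit 864, nat_lit 3096) ::
  (nat_lit 872, nat_lit 3149) ::
  (nat_lit 880, nat_lit 3187) ::
  (nat_lit 888, nat_lit 3223) ::
  (nat_lit 896, nat_lit 3269) ::
  (nat_lit 904, nat_lit 3334) ::
  (nat_lit 912, nat_lit 3377) ::
  (nat_lit 920, nat_lit 3423) ::
  (nat_lit 928, nat_lit 3457) ::
  (nat_lit 936, nat_lit 3499) ::
  (nat_lit 944, nat_lit 3550) ::
  (nat_lit 952, nat_lit 3586) ::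
  (nat_lit 960, nat_lit 3628) ::
  (nat_lit 968, nat_lit 3679) ::
  (nat_lit 976, nat_lit 3717) ::
  (nat_lit 984, nat_lit 3760) ::
  (nat_lit 992, nat_lit 3818) ::
  (nat_lit 1000, nat_lit 3869) ::
  (nat_lit 1008, nat_lit 3908) ::
  (nat_lit 1016, nat_lit 3957) ::
  (nat_lit 1024, nat_lit 4006) ::
  (nat_lit 1040, nat_lit 4088) ::
  (nat_lit 1056, nat_lit 4187) ::
  (nat_lit 1072, nat_lit 4270) ::
  (nat_lit 1088, nat_lit 4366) ::
  (nat_lit 1104, nat_lit 4445) ::
  (nat_lit 1120, nat_lit 4537) ::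
  (nat_lit 1136, nat_lit 4647) ::
  (nat_lit 1152, nat_lit 4724) ::
  (nat_lit 1168, nat_lit 4812) ::
  (nat_lit 1184, nat_lit 4914) ::
  (nat_lit 1200, nat_lit 4998) ::
  (nat_lit 1216, nat_lit 5082) ::
  (nat_lit 1232, nat_lit 5183) ::
  (nat_lit 1248, nat_lit 5273) ::
  (nat_lit 1264, nat_lit 5373) ::
  (nat_lit 1280, nat_lit 5476) ::
  (nat_lit 1296, nat_lit 5587) :: tP_4

def tP_2 : List (Nat × Nat) :=
  (nat_lit 202, nat_lit 399) ::
  (nat_lit 203, nat_lit 405) ::
  (nat_lit 204, nat_lit 408) ::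
  (nat_lit 205, nat_lit 416) ::
  (nat_lit 206, nat_lit 418) ::
  (nat_lit 207, nat_lit 419) ::
  (nat_lit 208, nat_lit 424) ::
  (nat_lit 209, nat_lit 428) ::
  (nat_lit 210, nat_lit 429) ::
  (nat_lit 211, nat_lit 437) ::
  (nat_lit 212, nat_lit 438) ::
  (nat_lit 213, nat_lit 440) ::
  (nat_lit 214, nat_lit 442) ::
  (nat_lit 215, nat_lit 446) ::
  (nat_lit 216, nat_lit 447) ::
  (nat_lit 217, nat_lit 451) ::
  (nat_lit 218, nat_lit 455) ::
  (nat_lit 219, nat_lit 459) ::
  (nat_lit 220, nat_lit 463) ::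
  (nat_lit 221, nat_lit 467) ::
  (nat_lit 222, nat_lit 468) ::
  (nat_lit 223, nat_lit 472) ::
  (nat_lit 224, nat_lit 473) ::
  (nat_lit 225, nat_lit 476) ::
  (nat_lit 226, nat_lit 477) ::
  (nat_lit 227, nat_lit 483) ::
  (nat_lit 228, nat_lit 485) ::
  (nat_lit 229, nat_lit 493) ::
  (nat_lit 230, nat_lit 494) ::
  (nat_lit 231, nat_lit 497) ::
  (nat_lit 232, nat_lit 499) ::
  (nat_lit 233, nat_lit 504) ::
  (nat_lit 234, nat_lit 506) ::
  (nat_lit 235, nat_lit 511) ::
  (nat_lit 236, nat_lit 515) ::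
  (nat_lit 237, nat_lit 521) ::
  (nat_lit 238, nat_lit 525) ::
  (nat_lit 239, nat_lit 527) ::
  (nat_lit 240, nat_lit 527) ::
  (nat_lit 241, nat_lit 533) ::
  (nat_lit 242, nat_lit 536) ::
  (nat_lit 243, nat_lit 539) ::
  (nat_lit 244, nat_lit 541) ::
  (nat_lit 245, nat_lit 545) ::
  (nat_lit 246, nat_lit 545) ::
  (nat_lit 247, nat_lit 548) ::
  (nat_lit 248, nat_lit 548) ::
  (nat_lit 249, nat_lit 553) ::
  (nat_lit 250, nat_lit 553) ::
  (nat_lit 251, nat_lit 561) ::
  (nat_lit 252, nat_lit 566) ::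
  (nat_lit 253, nat_lit 570) ::
  (nat_lit 254, nat_lit 573) ::
  (nat_lit 255, nat_lit 579) ::
  (nat_lit 256, nat_lit 584) ::
  (nat_lit 260, nat_lit 591) ::
  (nat_lit 264, nat_lit 605) ::
  (nat_lit 268, nat_lit 624) ::
  (nat_lit 272, nat_lit 642) ::
  (nat_lit 276, nat_lit 653) ::
  (nat_lit 280, nat_lit 666) ::
  (nat_lit 284, nat_lit 680) ::
  (nat_lit 288, nat_lit 693) ::
  (nat_lit 292, nat_lit 704) ::
  (nat_lit 296, nat_lit 717) ::
  (nat_lit 300, nat_lit 724) ::
  (nat_lit 304, nat_lit 738) ::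
  (nat_lit 308, nat_lit 749) ::
  (nat_lit 312, nat_lit 762) ::
  (nat_lit 316, nat_lit 773) ::
  (nat_lit 320, nat_lit 790) ::
  (nat_lit 324, nat_lit 803) ::
  (nat_lit 328, nat_lit 820) ::
  (nat_lit 332, nat_lit 832) ::
  (nat_lit 336, nat_lit 847) ::
  (nat_lit 340, nat_lit 868) ::
  (nat_lit 344, nat_lit 880) ::
  (nat_lit 348, nat_lit 894) ::
  (nat_lit 352, nat_lit 917) ::
  (nat_lit 356, nat_lit 932) ::
  (nat_lit 360, nat_lit 939) ::
  (nat_lit 364, nat_lit 953) ::
  (nat_lit 368, nat_lit 961) ::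
  (nat_lit 372, nat_lit 974) ::
  (nat_lit 376, nat_lit 992) ::
  (nat_lit 380, nat_lit 1006) ::
  (nat_lit 384, nat_lit 1020) ::
  (nat_lit 388, nat_lit 1032) ::
  (nat_lit 392, nat_lit 1046) ::
  (nat_lit 396, nat_lit 1059) ::
  (nat_lit 400, nat_lit 1068) ::
  (nat_lit 404, nat_lit 1085) ::
  (nat_lit 408, nat_lit 1106) ::
  (nat_lit 412, nat_lit 1123) ::
  (nat_lit 416, nat_lit 1139) ::
  (nat_lit 420, nat_lit 1156) ::
  (nat_lit 424, nat_lit 1170) ::
  (nat_lit 428, nat_lit 1182) ::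
  (nat_lit 432, nat_lit 1201) ::
  (nat_lit 436, nat_lit 1222) :: tP_3

def tP_1 : List (Nat × Nat) :=
  (nat_lit 102, nat_lit 169) ::
  (nat_lit 103, nat_lit 171) ::
  (nat_lit 104, nat_lit 172) ::
  (nat_lit 105, nat_lit 172) ::
  (nat_lit 106, nat_lit 174) ::
  (nat_lit 107, nat_lit 176) ::
  (nat_lit 108, nat_lit 177) ::
  (nat_lit 109, nat_lit 181) ::
  (nat_lit 110, nat_lit 181) ::
  (nat_lit 111, nat_lit 185) ::
  (nat_lit 112, nat_lit 187) ::
  (nat_lit 113, nat_lit 191) ::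
  (nat_lit 114, nat_lit 191) ::
  (nat_lit 115, nat_lit 194) ::
  (nat_lit 116, nat_lit 196) ::
  (nat_lit 117, nat_lit 200) ::
  (nat_lit 118, nat_lit 200) ::
  (nat_lit 119, nat_lit 203) ::
  (nat_lit 120, nat_lit 203) ::
  (nat_lit 121, nat_lit 208) ::
  (nat_lit 122, nat_lit 210) ::
  (nat_lit 123, nat_lit 211) ::
  (nat_lit 124, nat_lit 211) ::
  (nat_lit 125, nat_lit 211) ::
  (nat_lit 126, nat_lit 212) ::
  (nat_lit 127, nat_lit 214) ::
  (nat_lit 128, nat_lit 215) ::
  (nat_lit 129, nat_lit 215) ::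
  (nat_lit 130, nat_lit 216) ::
  (nat_lit 131, nat_lit 218) ::
  (nat_lit 132, nat_lit 219) ::
  (nat_lit 133, nat_lit 226) ::
  (nat_lit 134, nat_lit 227) ::
  (nat_lit 135, nat_lit 228) ::
  (nat_lit 136, nat_lit 230) ::
  (nat_lit 137, nat_lit 232) ::
  (nat_lit 138, nat_lit 233) ::
  (nat_lit 139, nat_lit 233) ::
  (nat_lit 140, nat_lit 234) ::
  (nat_lit 141, nat_lit 243) ::
  (nat_lit 142, nat_lit 244) ::
  (nat_lit 143, nat_lit 248) ::
  (nat_lit 144, nat_lit 250) ::
  (nat_lit 145, nat_lit 256) ::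
  (nat_lit 146, nat_lit 259) ::
  (nat_lit 147, nat_lit 261) ::
  (nat_lit 148, nat_lit 262) ::
  (nat_lit 149, nat_lit 263) ::
  (nat_lit 150, nat_lit 267) ::
  (nat_lit 151, nat_lit 268) ::
  (nat_lit 152, nat_lit 269) ::
  (nat_lit 153, nat_lit 269) ::
  (nat_lit 154, nat_lit 272) ::
  (nat_lit 155, nat_lit 276) ::
  (nat_lit 156, nat_lit 277) ::
  (nat_lit 157, nat_lit 281) ::
  (nat_lit 158, nat_lit 282) ::
  (nat_lit 159, nat_lit 283) ::
  (nat_lit 160, nat_lit 289) ::
  (nat_lit 161, nat_lit 294) ::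
  (nat_lit 162, nat_lit 295) ::
  (nat_lit 163, nat_lit 299) ::
  (nat_lit 164, nat_lit 301) ::
  (nat_lit 165, nat_lit 305) ::
  (nat_lit 166, nat_lit 307) ::
  (nat_lit 167, nat_lit 308) ::
  (nat_lit 168, nat_lit 308) ::
  (nat_lit 169, nat_lit 313) ::
  (nat_lit 170, nat_lit 319) ::
  (nat_lit 171, nat_lit 321) ::
  (nat_lit 172, nat_lit 323) ::
  (nat_lit 173, nat_lit 328) ::
  (nat_lit 174, nat_lit 329) ::
  (nat_lit 175, nat_lit 331) ::
  (nat_lit 176, nat_lit 335) ::
  (nat_lit 177, nat_lit 339) ::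
  (nat_lit 178, nat_lit 339) ::
  (nat_lit 179, nat_lit 345) ::
  (nat_lit 180, nat_lit 348) ::
  (nat_lit 181, nat_lit 353) ::
  (nat_lit 182, nat_lit 355) ::
  (nat_lit 183, nat_lit 356) ::
  (nat_lit 184, nat_lit 357) ::
  (nat_lit 185, nat_lit 359) ::
  (nat_lit 186, nat_lit 360) ::
  (nat_lit 187, nat_lit 360) ::
  (nat_lit 188, nat_lit 360) ::
  (nat_lit 189, nat_lit 362) ::
  (nat_lit 190, nat_lit 363) ::
  (nat_lit 191, nat_lit 366) ::
  (nat_lit 192, nat_lit 370) ::
  (nat_lit 193, nat_lit 374) ::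
  (nat_lit 194, nat_lit 376) ::
  (nat_lit 195, nat_lit 380) ::
  (nat_lit 196, nat_lit 384) ::
  (nat_lit 197, nat_lit 386) ::
  (nat_lit 198, nat_lit 389) ::
  (nat_lit 199, nat_lit 392) ::
  (nat_lit 200, nat_lit 395) ::
  (nat_lit 201, nat_lit 399) :: tP_2

def tP : List (Nat × Nat) :=
  (nat_lit 2, nat_lit 1) ::
  (nat_lit 3, nat_lit 2) ::
  (nat_lit 4, nat_lit 2) ::
  (nat_lit 5, nat_lit 3) ::
  (nat_lit 6, nat_lit 4) ::
  (nat_lit 7, nat_lit 5) ::
  (nat_lit 8, nat_lit 5) ::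
  (nat_lit 9, nat_lit 6) ::
  (nat_lit 10, nat_lit 6) ::
  (nat_lit 11, nat_lit 8) ::
  (nat_lit 12, nat_lit 9) ::
  (nat_lit 13, nat_lit 11) ::
  (nat_lit 14, nat_lit 12) ::
  (nat_lit 15, nat_lit 12) ::
  (nat_lit 16, nat_lit 13) ::
  (nat_lit 17, nat_lit 14) ::
  (nat_lit 18, nat_lit 14) ::
  (nat_lit 19, nat_lit 14) ::
  (nat_lit 20, nat_lit 15) ::
  (nat_lit 21, nat_lit 16) ::
  (nat_lit 22, nat_lit 18) ::
  (nat_lit 23, nat_lit 18) ::
  (nat_lit 24, nat_lit 20) ::
  (nat_lit 25, nat_lit 22) ::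
  (nat_lit 26, nat_lit 24) ::
  (nat_lit 27, nat_lit 24) ::
  (nat_lit 28, nat_lit 25) ::
  (nat_lit 29, nat_lit 26) ::
  (nat_lit 30, nat_lit 28) ::
  (nat_lit 31, nat_lit 32) ::
  (nat_lit 32, nat_lit 33) ::
  (nat_lit 33, nat_lit 33) ::
  (nat_lit 34, nat_lit 34) ::
  (nat_lit 35, nat_lit 35) ::
  (nat_lit 36, nat_lit 35) ::
  (nat_lit 37, nat_lit 38) ::
  (nat_lit 38, nat_lit 40) ::
  (nat_lit 39, nat_lit 41) ::
  (nat_lit 40, nat_lit 41) ::
  (nat_lit 41, nat_lit 45) ::
  (nat_lit 42, nat_lit 45) ::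
  (nat_lit 43, nat_lit 47) ::
  (nat_lit 44, nat_lit 49) ::
  (nat_lit 45, nat_lit 51) ::
  (nat_lit 46, nat_lit 51) ::
  (nat_lit 47, nat_lit 51) ::
  (nat_lit 48, nat_lit 54) ::
  (nat_lit 49, nat_lit 57) ::
  (nat_lit 50, nat_lit 58) ::
  (nat_lit 51, nat_lit 62) ::
  (nat_lit 52, nat_lit 63) ::
  (nat_lit 53, nat_lit 64) ::
  (nat_lit 54, nat_lit 66) ::
  (nat_lit 55, nat_lit 66) ::
  (nat_lit 56, nat_lit 68) ::
  (nat_lit 57, nat_lit 71) ::
  (nat_lit 58, nat_lit 72) ::
  (nat_lit 59, nat_lit 76) ::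
  (nat_lit 60, nat_lit 77) ::
  (nat_lit 61, nat_lit 83) ::
  (nat_lit 62, nat_lit 83) ::
  (nat_lit 63, nat_lit 85) ::
  (nat_lit 64, nat_lit 86) ::
  (nat_lit 65, nat_lit 88) ::
  (nat_lit 66, nat_lit 90) ::
  (nat_lit 67, nat_lit 91) ::
  (nat_lit 68, nat_lit 93) ::
  (nat_lit 69, nat_lit 95) ::
  (nat_lit 70, nat_lit 96) ::
  (nat_lit 71, nat_lit 101) ::
  (nat_lit 72, nat_lit 101) ::
  (nat_lit 73, nat_lit 105) ::
  (nat_lit 74, nat_lit 107) ::
  (nat_lit 75, nat_lit 108) ::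
  (nat_lit 76, nat_lit 109) ::
  (nat_lit 77, nat_lit 110) ::
  (nat_lit 78, nat_lit 112) ::
  (nat_lit 79, nat_lit 113) ::
  (nat_lit 80, nat_lit 115) ::
  (nat_lit 81, nat_lit 118) ::
  (nat_lit 82, nat_lit 119) ::
  (nat_lit 83, nat_lit 120) ::
  (nat_lit 84, nat_lit 121) ::
  (nat_lit 85, nat_lit 124) ::
  (nat_lit 86, nat_lit 126) ::
  (nat_lit 87, nat_lit 129) ::
  (nat_lit 88, nat_lit 136) ::
  (nat_lit 89, nat_lit 137) ::
  (nat_lit 90, nat_lit 139) ::
  (nat_lit 91, nat_lit 143) ::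
  (nat_lit 92, nat_lit 144) ::
  (nat_lit 93, nat_lit 146) ::
  (nat_lit 94, nat_lit 149) ::
  (nat_lit 95, nat_lit 151) ::
  (nat_lit 96, nat_lit 153) ::
  (nat_lit 97, nat_lit 157) ::
  (nat_lit 98, nat_lit 159) ::
  (nat_lit 99, nat_lit 162) ::
  (nat_lit 100, nat_lit 162) ::
  (nat_lit 101, nat_lit 167) :: tP_1

def tN_19 : List (Nat × Nat) :=
  (nat_lit 2784368, nat_lit 15527392779063) ::
  (nat_lit 2804680, nat_lit 15754723565903) ::
  (nat_lit 2824992, nat_lit 15983704662119) ::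
  (nat_lit 2845304, nat_lit 16214336067711) ::
  (nat_lit 2865616, nat_lit 16446617782679) ::
  (nat_lit 2885928, nat_lit 16680555067831) ::
  (nat_lit 2906240, nat_lit 16916142662359) ::
  (nat_lit 2926552, nat_lit 17153380566263) ::
  (nat_lit 2946864, nat_lit 17392268779543) ::
  (nat_lit 2967176, nat_lit 17632812238015) ::
  (nat_lit 2987488, nat_lit 17875006005863) ::
  (nat_lit 3007800, nat_lit 18118850083087) ::
  (nat_lit 3028112, nat_lit 18364344469687) ::
  (nat_lit 3048424, nat_lit 18611494568655) ::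
  (nat_lit 3068736, nat_lit 18860294976999) ::
  (nat_lit 3089048, nat_lit 19110745694719) ::
  (nat_lit 3109360, nat_lit 19362846721815) ::
  (nat_lit 3129672, nat_lit 19616603501903) ::
  (nat_lit 3149984, nat_lit 19872010591367) :: []

def tN_18 : List (Nat × Nat) :=
  (nat_lit 1383514, nat_lit 29390970689) ::
  (nat_lit 1393539, nat_lit 29710102019) ::
  (nat_lit 1403564, nat_lit 30029233349) ::
  (nat_lit 1413589, nat_lit 30349647879) ::
  (nat_lit 1423614, nat_lit 30779026979) ::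
  (nat_lit 1433639, nat_lit 31208406079) ::
  (nat_lit 1443664, nat_lit 31638887929) ::
  (nat_lit 1453689, nat_lit 32069369779) ::
  (nat_lit 1463714, nat_lit 32499851629) ::
  (nat_lit 1473739, nat_lit 32931376079) ::
  (nat_lit 1483764, nat_lit 33362900529) ::
  (nat_lit 1493789, nat_lit 33795357304) ::
  (nat_lit 1503814, nat_lit 34227814079) ::
  (nat_lit 1513839, nat_lit 34660270854) ::
  (nat_lit 1523864, nat_lit 34748029704) ::
  (nat_lit 1533889, nat_lit 35181819804) ::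
  (nat_lit 1543914, nat_lit 35615609904) ::
  (nat_lit 1553939, nat_lit 36050522804) ::
  (nat_lit 1563964, nat_lit 36485435704) ::
  (nat_lit 1573989, nat_lit 36920348604) ::
  (nat_lit 1584014, nat_lit 37356695079) ::
  (nat_lit 1594039, nat_lit 37793041554) ::
  (nat_lit 1604064, nat_lit 38229388029) ::
  (nat_lit 1616437, nat_lit 38688632229) ::
  (nat_lit 1628810, nat_lit 39147876429) ::
  (nat_lit 1641183, nat_lit 39608630135) ::
  (nat_lit 1653556, nat_lit 40069383841) ::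
  (nat_lit 1665929, nat_lit 40531622307) ::
  (nat_lit 1678302, nat_lit 40993860773) ::
  (nat_lit 1690675, nat_lit 41802130489) ::
  (nat_lit 1703048, nat_lit 42265903207) ::
  (nat_lit 1715421, nat_lit 42729675925) ::
  (nat_lit 1727794, nat_lit 43195118998) ::
  (nat_lit 1740167, nat_lit 43660562071) ::
  (nat_lit 1752540, nat_lit 44127564142) ::
  (nat_lit 1764913, nat_lit 44594566213) ::
  (nat_lit 1777286, nat_lit 45239992874) ::
  (nat_lit 1789659, nat_lit 45887015652) ::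
  (nat_lit 1802032, nat_lit 46534038430) ::
  (nat_lit 1814405, nat_lit 47182558341) ::
  (nat_lit 1826778, nat_lit 47831078252) ::
  (nat_lit 1839151, nat_lit 47955142323) ::
  (nat_lit 1851524, nat_lit 48605344962) ::
  (nat_lit 1863897, nat_lit 49255547601) ::
  (nat_lit 1876270, nat_lit 49907482460) ::
  (nat_lit 1888643, nat_lit 50559417319) ::
  (nat_lit 1901016, nat_lit 51211352178) ::
  (nat_lit 1913389, nat_lit 51864846035) ::
  (nat_lit 1925762, nat_lit 52518339892) ::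
  (nat_lit 1938135, nat_lit 52649035891) ::
  (nat_lit 1950508, nat_lit 53304187730) ::
  (nat_lit 1962881, nat_lit 53959339569) ::
  (nat_lit 1975254, nat_lit 54615617351) ::
  (nat_lit 1987627, nat_lit 55271895133) ::
  (nat_lit 2000000, nat_lit 55928172915) ::
  (nat_lit 2015625, nat_lit 56620956880) ::
  (nat_lit 2031250, nat_lit 57313740845) ::
  (nat_lit 2046875, nat_lit 58008665435) ::
  (nat_lit 2062500, nat_lit 58703590025) ::
  (nat_lit 2078125, nat_lit 59400217740) ::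
  (nat_lit 2093750, nat_lit 60096845455) ::
  (nat_lit 2109375, nat_lit 60797551295) ::
  (nat_lit 2125000, nat_lit 61498257135) ::
  (nat_lit 2140625, nat_lit 62198962975) ::
  (nat_lit 2156250, nat_lit 63424124655) ::
  (nat_lit 2171875, nat_lit 64128736745) ::
  (nat_lit 2187500, nat_lit 64833348835) ::
  (nat_lit 2203125, nat_lit 65537960925) ::
  (nat_lit 2218750, nat_lit 66242573015) ::
  (nat_lit 2234375, nat_lit 9999877122655) ::
  (nat_lit 2250000, nat_lit 10140197466405) ::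
  (nat_lit 2265625, nat_lit 10281494372655) ::
  (nat_lit 2281250, nat_lit 10423767841405) ::
  (nat_lit 2296875, nat_lit 10567017872655) ::
  (nat_lit 2312500, nat_lit 10711248388280) ::
  (nat_lit 2328125, nat_lit 10856455466405) ::
  (nat_lit 2343750, nat_lit 11002639107030) ::
  (nat_lit 2359375, nat_lit 11149799310155) ::
  (nat_lit 2375000, nat_lit 11297940122655) ::
  (nat_lit 2390625, nat_lit 11447057497655) ::
  (nat_lit 2406250, nat_lit 11597151435155) ::
  (nat_lit 2421875, nat_lit 11748221935155) ::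
  (nat_lit 2437500, nat_lit 11900268997655) ::
  (nat_lit 2453125, nat_lit 12053296872655) ::
  (nat_lit 2468750, nat_lit 12207301310155) ::
  (nat_lit 2484375, nat_lit 12362282310155) ::
  (nat_lit 2500000, nat_lit 12518239872655) ::
  (nat_lit 2520312, nat_lit 12722444289711) ::
  (nat_lit 2540624, nat_lit 12928299016143) ::
  (nat_lit 2560936, nat_lit 13135804051951) ::
  (nat_lit 2581248, nat_lit 13344965003247) ::
  (nat_lit 2601560, nat_lit 13555776263919) ::
  (nat_lit 2621872, nat_lit 13768237833967) ::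
  (nat_lit 2642184, nat_lit 13982349713391) ::
  (nat_lit 2662496, nat_lit 14198116898943) ::
  (nat_lit 2682808, nat_lit 14415534393871) ::
  (nat_lit 2703120, nat_lit 14634602198175) ::
  (nat_lit 2723432, nat_lit 14855320311855) ::
  (nat_lit 2743744, nat_lit 15077694158215) ::
  (nat_lit 2764056, nat_lit 15301718313951) :: tN_19

def tN_17 : List (Nat × Nat) :=
  (nat_lit 687854, nat_lit 8718053506) ::
  (nat_lit 692987, nat_lit 8819094940) ::
  (nat_lit 698120, nat_lit 8920136374) ::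
  (nat_lit 703253, nat_lit 9097426852) ::
  (nat_lit 708386, nat_lit 9198899458) ::
  (nat_lit 713519, nat_lit 9300372064) ::
  (nat_lit 718652, nat_lit 9401844670) ::
  (nat_lit 723785, nat_lit 9503748448) ::
  (nat_lit 728918, nat_lit 9640053214) ::
  (nat_lit 734051, nat_lit 9776357980) ::
  (nat_lit 739184, nat_lit 9912662746) ::
  (nat_lit 744317, nat_lit 10049485945) ::
  (nat_lit 749450, nat_lit 10186309144) ::
  (nat_lit 754583, nat_lit 10323132343) ::
  (nat_lit 759716, nat_lit 10350198652) ::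
  (nat_lit 764849, nat_lit 10487483821) ::
  (nat_lit 769982, nat_lit 10624768990) ::
  (nat_lit 775115, nat_lit 10762054159) ::
  (nat_lit 780248, nat_lit 10899852628) ::
  (nat_lit 785381, nat_lit 11037651097) ::
  (nat_lit 790514, nat_lit 11175449566) ::
  (nat_lit 795647, nat_lit 11313248035) ::
  (nat_lit 800780, nat_lit 11451575203) ::
  (nat_lit 805913, nat_lit 11589902371) ::
  (nat_lit 811046, nat_lit 11728229539) ::
  (nat_lit 816179, nat_lit 11756337847) ::
  (nat_lit 821312, nat_lit 11895234778) ::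
  (nat_lit 827728, nat_lit 12041299830) ::
  (nat_lit 834144, nat_lit 12297583742) ::
  (nat_lit 840560, nat_lit 12444277562) ::
  (nat_lit 846976, nat_lit 12590971382) ::
  (nat_lit 853392, nat_lit 12737665202) ::
  (nat_lit 859808, nat_lit 12884359022) ::
  (nat_lit 866224, nat_lit 13031643114) ::
  (nat_lit 872640, nat_lit 13178927206) ::
  (nat_lit 879056, nat_lit 13436430158) ::
  (nat_lit 885472, nat_lit 13584407178) ::
  (nat_lit 891888, nat_lit 13732384198) ::
  (nat_lit 898304, nat_lit 13880361218) ::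
  (nat_lit 904720, nat_lit 14028979838) ::
  (nat_lit 911136, nat_lit 14226496398) ::
  (nat_lit 917552, nat_lit 14424012958) ::
  (nat_lit 923968, nat_lit 14621529518) ::
  (nat_lit 930384, nat_lit 14819751838) ::
  (nat_lit 936800, nat_lit 15017974158) ::
  (nat_lit 943216, nat_lit 15216196478) ::
  (nat_lit 949632, nat_lit 15255943598) ::
  (nat_lit 956048, nat_lit 15454807518) ::
  (nat_lit 962464, nat_lit 15653671438) ::
  (nat_lit 968880, nat_lit 15853356606) ::
  (nat_lit 975296, nat_lit 16053041774) ::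
  (nat_lit 981712, nat_lit 16252726942) ::
  (nat_lit 988128, nat_lit 16452412110) ::
  (nat_lit 994544, nat_lit 16652745294) ::
  (nat_lit 1000960, nat_lit 16853078478) ::
  (nat_lit 1007376, nat_lit 17053411662) ::
  (nat_lit 1013792, nat_lit 17253744846) ::
  (nat_lit 1020208, nat_lit 17295666990) ::
  (nat_lit 1026624, nat_lit 17496705934) ::
  (nat_lit 1034644, nat_lit 17708225414) ::
  (nat_lit 1042664, nat_lit 18079711814) ::
  (nat_lit 1050684, nat_lit 18292081414) ::
  (nat_lit 1058704, nat_lit 18504451014) ::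
  (nat_lit 1066724, nat_lit 18717766974) ::
  (nat_lit 1074744, nat_lit 18931082934) ::
  (nat_lit 1082764, nat_lit 19144398894) ::
  (nat_lit 1090784, nat_lit 19358613094) ::
  (nat_lit 1098804, nat_lit 19731944094) ::
  (nat_lit 1106824, nat_lit 19946158294) ::
  (nat_lit 1114844, nat_lit 20161286774) ::
  (nat_lit 1122864, nat_lit 20376415254) ::
  (nat_lit 1130884, nat_lit 20591543734) ::
  (nat_lit 1138904, nat_lit 20885496274) ::
  (nat_lit 1146924, nat_lit 21179448814) ::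
  (nat_lit 1154944, nat_lit 21473401354) ::
  (nat_lit 1162964, nat_lit 21768340354) ::
  (nat_lit 1170984, nat_lit 22063279354) ::
  (nat_lit 1179004, nat_lit 22358218354) ::
  (nat_lit 1187024, nat_lit 22654055594) ::
  (nat_lit 1195044, nat_lit 22712826154) ::
  (nat_lit 1203064, nat_lit 23008663394) ::
  (nat_lit 1211084, nat_lit 23305262534) ::
  (nat_lit 1219104, nat_lit 23601861674) ::
  (nat_lit 1227124, nat_lit 23898460814) ::
  (nat_lit 1235144, nat_lit 24196006314) ::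
  (nat_lit 1243164, nat_lit 24493551814) ::
  (nat_lit 1251184, nat_lit 24791097314) ::
  (nat_lit 1259204, nat_lit 25089557094) ::
  (nat_lit 1267224, nat_lit 25388016874) ::
  (nat_lit 1275244, nat_lit 25686476654) ::
  (nat_lit 1283264, nat_lit 25985818634) ::
  (nat_lit 1293289, nat_lit 26300729439) ::
  (nat_lit 1303314, nat_lit 26615640244) ::
  (nat_lit 1313339, nat_lit 26931573599) ::
  (nat_lit 1323364, nat_lit 27247506954) ::
  (nat_lit 1333389, nat_lit 27564773634) ::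
  (nat_lit 1343414, nat_lit 27882040314) ::
  (nat_lit 1353439, nat_lit 28436373674) ::
  (nat_lit 1363464, nat_lit 28754572679) ::
  (nat_lit 1373489, nat_lit 29072771684) :: tN_18

def tN_16 : List (Nat × Nat) :=
  (nat_lit 369124, nat_lit 2846311568) ::
  (nat_lit 370838, nat_lit 2874517847) ::
  (nat_lit 372552, nat_lit 2913427895) ::
  (nat_lit 374266, nat_lit 2918825281) ::
  (nat_lit 375980, nat_lit 2957826171) ::
  (nat_lit 377694, nat_lit 2996827061) ::
  (nat_lit 379408, nat_lit 3002224447) ::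
  (nat_lit 381122, nat_lit 3041290469) ::
  (nat_lit 382836, nat_lit 3046752987) ::
  (nat_lit 384550, nat_lit 3085819009) ::
  (nat_lit 386264, nat_lit 3124885031) ::
  (nat_lit 387978, nat_lit 3130409253) ::
  (nat_lit 389692, nat_lit 3169536979) ::
  (nat_lit 391406, nat_lit 3175061201) ::
  (nat_lit 393120, nat_lit 3214188927) ::
  (nat_lit 394834, nat_lit 3219791993) ::
  (nat_lit 396548, nat_lit 3258998563) ::
  (nat_lit 398262, nat_lit 3298205133) ::
  (nat_lit 399976, nat_lit 3303808199) ::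
  (nat_lit 401690, nat_lit 3343126179) ::
  (nat_lit 403404, nat_lit 3348840655) ::
  (nat_lit 405118, nat_lit 3388158635) ::
  (nat_lit 406832, nat_lit 3427476615) ::
  (nat_lit 408546, nat_lit 3433191091) ::
  (nat_lit 410260, nat_lit 3472582773) ::
  (nat_lit 411974, nat_lit 3478370951) ::
  (nat_lit 413688, nat_lit 3517762633) ::
  (nat_lit 415402, nat_lit 3557154315) ::
  (nat_lit 417116, nat_lit 3563021337) ::
  (nat_lit 418830, nat_lit 3602491863) ::
  (nat_lit 420544, nat_lit 3608358885) ::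
  (nat_lit 423829, nat_lit 3653318634) ::
  (nat_lit 427114, nat_lit 3731881887) ::
  (nat_lit 430399, nat_lit 3776841636) ::
  (nat_lit 433684, nat_lit 3821939355) ::
  (nat_lit 436969, nat_lit 3867037074) ::
  (nat_lit 440254, nat_lit 3912302328) ::
  (nat_lit 443539, nat_lit 3957567582) ::
  (nat_lit 446824, nat_lit 4002951096) ::
  (nat_lit 450109, nat_lit 4081938114) ::
  (nat_lit 453394, nat_lit 4127459598) ::
  (nat_lit 456679, nat_lit 4172981082) ::
  (nat_lit 459964, nat_lit 4218502566) ::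
  (nat_lit 463249, nat_lit 4264191585) ::
  (nat_lit 466534, nat_lit 4328284656) ::
  (nat_lit 469819, nat_lit 4392502557) ::
  (nat_lit 473104, nat_lit 4456720458) ::
  (nat_lit 476389, nat_lit 4521079614) ::
  (nat_lit 479674, nat_lit 4585438770) ::
  (nat_lit 482959, nat_lit 4649797926) ::
  (nat_lit 486244, nat_lit 4662340056) ::
  (nat_lit 489529, nat_lit 4726889742) ::
  (nat_lit 492814, nat_lit 4791606963) ::
  (nat_lit 496099, nat_lit 4856324184) ::
  (nat_lit 499384, nat_lit 4921041405) ::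
  (nat_lit 502669, nat_lit 4985886741) ::
  (nat_lit 505954, nat_lit 5050732077) ::
  (nat_lit 509239, nat_lit 5115738378) ::
  (nat_lit 512524, nat_lit 5180744679) ::
  (nat_lit 515809, nat_lit 5245750980) ::
  (nat_lit 519094, nat_lit 5310918246) ::
  (nat_lit 522379, nat_lit 5324077956) ::
  (nat_lit 525664, nat_lit 5389514592) ::
  (nat_lit 529770, nat_lit 5458307476) ::
  (nat_lit 533876, nat_lit 5579107916) ::
  (nat_lit 537982, nat_lit 5647900800) ::
  (nat_lit 542088, nat_lit 5717100178) ::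
  (nat_lit 546194, nat_lit 5786299556) ::
  (nat_lit 550300, nat_lit 5855498934) ::
  (nat_lit 554406, nat_lit 5924698312) ::
  (nat_lit 558512, nat_lit 5994238488) ::
  (nat_lit 562618, nat_lit 6115786220) ::
  (nat_lit 566724, nat_lit 6185326396) ::
  (nat_lit 570830, nat_lit 6254866572) ::
  (nat_lit 574936, nat_lit 6324800924) ::
  (nat_lit 579042, nat_lit 6394735276) ::
  (nat_lit 583148, nat_lit 6488479944) ::
  (nat_lit 587254, nat_lit 6582224612) ::
  (nat_lit 591360, nat_lit 6675969280) ::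
  (nat_lit 595466, nat_lit 6770038322) ::
  (nat_lit 599572, nat_lit 6864107364) ::
  (nat_lit 603678, nat_lit 6958176406) ::
  (nat_lit 607784, nat_lit 6976427576) ::
  (nat_lit 611890, nat_lit 7070874370) ::
  (nat_lit 615996, nat_lit 7165321164) ::
  (nat_lit 620102, nat_lit 7259767958) ::
  (nat_lit 624208, nat_lit 7354214752) ::
  (nat_lit 628314, nat_lit 7449113206) ::
  (nat_lit 632420, nat_lit 7544011660) ::
  (nat_lit 636526, nat_lit 7638910114) ::
  (nat_lit 640632, nat_lit 7733808568) ::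
  (nat_lit 644738, nat_lit 7828707022) ::
  (nat_lit 648844, nat_lit 7923921638) ::
  (nat_lit 652950, nat_lit 7943318382) ::
  (nat_lit 657056, nat_lit 8038532998) ::
  (nat_lit 662189, nat_lit 8138599162) ::
  (nat_lit 667322, nat_lit 8314934902) ::
  (nat_lit 672455, nat_lit 8415452770) ::
  (nat_lit 677588, nat_lit 8515970638) ::
  (nat_lit 682721, nat_lit 8617012072) :: tN_17

def tN_15 : List (Nat × Nat) :=
  (nat_lit 238520, nat_lit 1310574710) ::
  (nat_lit 239500, nat_lit 1320647990) ::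
  (nat_lit 240480, nat_lit 1330721270) ::
  (nat_lit 241607, nat_lit 1341135296) ::
  (nat_lit 242734, nat_lit 1351614688) ::
  (nat_lit 243861, nat_lit 1369895720) ::
  (nat_lit 244988, nat_lit 1380375112) ::
  (nat_lit 246115, nat_lit 1390854504) ::
  (nat_lit 247242, nat_lit 1401333896) ::
  (nat_lit 248369, nat_lit 1411867384) ::
  (nat_lit 249496, nat_lit 1422400872) ::
  (nat_lit 250623, nat_lit 1432934360) ::
  (nat_lit 251750, nat_lit 1443467848) ::
  (nat_lit 252877, nat_lit 1454001336) ::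
  (nat_lit 254004, nat_lit 1464570888) ::
  (nat_lit 255131, nat_lit 1475140440) ::
  (nat_lit 256258, nat_lit 1485709992) ::
  (nat_lit 257385, nat_lit 1496279544) ::
  (nat_lit 258512, nat_lit 1506849096) ::
  (nat_lit 259639, nat_lit 1519680559) ::
  (nat_lit 260766, nat_lit 1532512022) ::
  (nat_lit 261893, nat_lit 1545343485) ::
  (nat_lit 263020, nat_lit 1558174948) ::
  (nat_lit 264147, nat_lit 1571006411) ::
  (nat_lit 265274, nat_lit 1583875065) ::
  (nat_lit 266401, nat_lit 1596743719) ::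
  (nat_lit 267528, nat_lit 1609612373) ::
  (nat_lit 268655, nat_lit 1622481027) ::
  (nat_lit 269782, nat_lit 1635349681) ::
  (nat_lit 270909, nat_lit 1648265669) ::
  (nat_lit 272036, nat_lit 1661181657) ::
  (nat_lit 273163, nat_lit 1674097645) ::
  (nat_lit 274290, nat_lit 1676985019) ::
  (nat_lit 275417, nat_lit 1689901007) ::
  (nat_lit 276544, nat_lit 1702816995) ::
  (nat_lit 277840, nat_lit 1716221689) ::
  (nat_lit 279136, nat_lit 1729626383) ::
  (nat_lit 280432, nat_lit 1753059691) ::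
  (nat_lit 281728, nat_lit 1766464385) ::
  (nat_lit 283024, nat_lit 1779909255) ::
  (nat_lit 284320, nat_lit 1793354125) ::
  (nat_lit 285616, nat_lit 1806798995) ::
  (nat_lit 286912, nat_lit 1820243865) ::
  (nat_lit 288208, nat_lit 1833688735) ::
  (nat_lit 289504, nat_lit 1847172485) ::
  (nat_lit 290800, nat_lit 1860656235) ::
  (nat_lit 292096, nat_lit 1874139985) ::
  (nat_lit 293392, nat_lit 1887623735) ::
  (nat_lit 294688, nat_lit 1901107485) ::
  (nat_lit 295984, nat_lit 1914634003) ::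
  (nat_lit 297280, nat_lit 1928160521) ::
  (nat_lit 298576, nat_lit 1954558160) ::
  (nat_lit 299872, nat_lit 1980955799) ::
  (nat_lit 301168, nat_lit 1984493879) ::
  (nat_lit 302464, nat_lit 2010931694) ::
  (nat_lit 303760, nat_lit 2014469774) ::
  (nat_lit 305056, nat_lit 2040907589) ::
  (nat_lit 306352, nat_lit 2044445669) ::
  (nat_lit 307648, nat_lit 2070941804) ::
  (nat_lit 308944, nat_lit 2074538204) ::
  (nat_lit 310240, nat_lit 2101034339) ::
  (nat_lit 311536, nat_lit 2127530474) ::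
  (nat_lit 312832, nat_lit 2131126874) ::
  (nat_lit 314128, nat_lit 2157667073) ::
  (nat_lit 315424, nat_lit 2161307537) ::
  (nat_lit 316720, nat_lit 2187847736) ::
  (nat_lit 318016, nat_lit 2191488200) ::
  (nat_lit 319506, nat_lit 2218573345) ::
  (nat_lit 320996, nat_lit 2245697230) ::
  (nat_lit 322486, nat_lit 2249921380) ::
  (nat_lit 323976, nat_lit 2277045265) ::
  (nat_lit 325466, nat_lit 2304169150) ::
  (nat_lit 326956, nat_lit 2308449920) ::
  (nat_lit 328446, nat_lit 2335630425) ::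
  (nat_lit 329936, nat_lit 2362810930) ::
  (nat_lit 331426, nat_lit 2367091700) ::
  (nat_lit 332916, nat_lit 2394272205) ::
  (nat_lit 334406, nat_lit 2398612575) ::
  (nat_lit 335896, nat_lit 2425852680) ::
  (nat_lit 337386, nat_lit 2453092785) ::
  (nat_lit 338876, nat_lit 2457433155) ::
  (nat_lit 340366, nat_lit 2484714980) ::
  (nat_lit 341856, nat_lit 2511996805) ::
  (nat_lit 343346, nat_lit 2516378895) ::
  (nat_lit 344836, nat_lit 2543660720) ::
  (nat_lit 346326, nat_lit 2570994695) ::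
  (nat_lit 347816, nat_lit 2575428935) ::
  (nat_lit 349306, nat_lit 2602762910) ::
  (nat_lit 350796, nat_lit 2630096885) ::
  (nat_lit 352286, nat_lit 2634531125) ::
  (nat_lit 353776, nat_lit 2661939600) ::
  (nat_lit 355266, nat_lit 2666448340) ::
  (nat_lit 356756, nat_lit 2693856815) ::
  (nat_lit 358246, nat_lit 2721265290) ::
  (nat_lit 359736, nat_lit 2725832140) ::
  (nat_lit 361226, nat_lit 2753298725) ::
  (nat_lit 362716, nat_lit 2780765310) ::
  (nat_lit 364206, nat_lit 2785332160) ::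
  (nat_lit 365696, nat_lit 2812798745) ::
  (nat_lit 367410, nat_lit 2841005024) :: tN_16

def tN_14 : List (Nat × Nat) :=
  (nat_lit 155450, nat_lit 627807478) ::
  (nat_lit 155899, nat_lit 632266151) ::
  (nat_lit 156348, nat_lit 636724824) ::
  (nat_lit 156797, nat_lit 637495757) ::
  (nat_lit 157246, nat_lit 641968349) ::
  (nat_lit 157695, nat_lit 646440941) ::
  (nat_lit 158144, nat_lit 647225793) ::
  (nat_lit 158885, nat_lit 652208801) ::
  (nat_lit 159626, nat_lit 657191809) ::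
  (nat_lit 160367, nat_lit 665862557) ::
  (nat_lit 161108, nat_lit 670845565) ::
  (nat_lit 161849, nat_lit 675851544) ::
  (nat_lit 162590, nat_lit 680857523) ::
  (nat_lit 163331, nat_lit 685863502) ::
  (nat_lit 164072, nat_lit 690869481) ::
  (nat_lit 164813, nat_lit 695875460) ::
  (nat_lit 165554, nat_lit 700881439) ::
  (nat_lit 166295, nat_lit 705912612) ::
  (nat_lit 167036, nat_lit 710943785) ::
  (nat_lit 167777, nat_lit 715974958) ::
  (nat_lit 168518, nat_lit 721006131) ::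
  (nat_lit 169259, nat_lit 726037304) ::
  (nat_lit 170000, nat_lit 731068477) ::
  (nat_lit 170741, nat_lit 737091645) ::
  (nat_lit 171482, nat_lit 743114813) ::
  (nat_lit 172223, nat_lit 749137981) ::
  (nat_lit 172964, nat_lit 755161149) ::
  (nat_lit 173705, nat_lit 761184317) ::
  (nat_lit 174446, nat_lit 767207485) ::
  (nat_lit 175187, nat_lit 773230653) ::
  (nat_lit 175928, nat_lit 779280497) ::
  (nat_lit 176669, nat_lit 785330341) ::
  (nat_lit 177410, nat_lit 791380185) ::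
  (nat_lit 178151, nat_lit 797430029) ::
  (nat_lit 178892, nat_lit 803479873) ::
  (nat_lit 179633, nat_lit 809529717) ::
  (nat_lit 180374, nat_lit 810942804) ::
  (nat_lit 181115, nat_lit 817012655) ::
  (nat_lit 181856, nat_lit 823082506) ::
  (nat_lit 182708, nat_lit 829364034) ::
  (nat_lit 183560, nat_lit 835645562) ::
  (nat_lit 184412, nat_lit 846583854) ::
  (nat_lit 185264, nat_lit 852901166) ::
  (nat_lit 186116, nat_lit 859218478) ::
  (nat_lit 186968, nat_lit 865535790) ::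
  (nat_lit 187820, nat_lit 871853102) ::
  (nat_lit 188672, nat_lit 878170414) ::
  (nat_lit 189524, nat_lit 884487726) ::
  (nat_lit 190376, nat_lit 890833154) ::
  (nat_lit 191228, nat_lit 897178582) ::
  (nat_lit 192080, nat_lit 903524010) ::
  (nat_lit 192932, nat_lit 909869438) ::
  (nat_lit 193784, nat_lit 916214866) ::
  (nat_lit 194636, nat_lit 922560294) ::
  (nat_lit 195488, nat_lit 928934690) ::
  (nat_lit 196340, nat_lit 936495986) ::
  (nat_lit 197192, nat_lit 944057282) ::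
  (nat_lit 198044, nat_lit 951618578) ::
  (nat_lit 198896, nat_lit 959179874) ::
  (nat_lit 199748, nat_lit 966776954) ::
  (nat_lit 200600, nat_lit 974374034) ::
  (nat_lit 201452, nat_lit 981971114) ::
  (nat_lit 202304, nat_lit 989568194) ::
  (nat_lit 203156, nat_lit 997165274) ::
  (nat_lit 204008, nat_lit 1004762354) ::
  (nat_lit 204860, nat_lit 1012390106) ::
  (nat_lit 205712, nat_lit 1020017858) ::
  (nat_lit 206564, nat_lit 1027645610) ::
  (nat_lit 207416, nat_lit 1029429698) ::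
  (nat_lit 208268, nat_lit 1037057450) ::
  (nat_lit 209120, nat_lit 1044685202) ::
  (nat_lit 210100, nat_lit 1052626066) ::
  (nat_lit 211080, nat_lit 1060566930) ::
  (nat_lit 212060, nat_lit 1074351458) ::
  (nat_lit 213040, nat_lit 1082292322) ::
  (nat_lit 214020, nat_lit 1090233186) ::
  (nat_lit 215000, nat_lit 1098174050) ::
  (nat_lit 215980, nat_lit 1106143334) ::
  (nat_lit 216960, nat_lit 1114112618) ::
  (nat_lit 217940, nat_lit 1122081902) ::
  (nat_lit 218920, nat_lit 1130051186) ::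
  (nat_lit 219900, nat_lit 1138020470) ::
  (nat_lit 220880, nat_lit 1146028954) ::
  (nat_lit 221860, nat_lit 1154037438) ::
  (nat_lit 222840, nat_lit 1162045922) ::
  (nat_lit 223820, nat_lit 1170054406) ::
  (nat_lit 224800, nat_lit 1178062890) ::
  (nat_lit 225780, nat_lit 1188029350) ::
  (nat_lit 226760, nat_lit 1198032070) ::
  (nat_lit 227740, nat_lit 1208034790) ::
  (nat_lit 228720, nat_lit 1218037510) ::
  (nat_lit 229700, nat_lit 1228040230) ::
  (nat_lit 230680, nat_lit 1238042950) ::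
  (nat_lit 231660, nat_lit 1248074090) ::
  (nat_lit 232640, nat_lit 1258105230) ::
  (nat_lit 233620, nat_lit 1268136370) ::
  (nat_lit 234600, nat_lit 1278167510) ::
  (nat_lit 235580, nat_lit 1288198650) ::
  (nat_lit 236560, nat_lit 1298229790) ::
  (nat_lit 237540, nat_lit 1308303070) :: tN_15

def tN_13 : List (Nat × Nat) :=
  (nat_lit 115478, nat_lit 367487056) ::
  (nat_lit 115815, nat_lit 370385700) ::
  (nat_lit 116152, nat_lit 373284344) ::
  (nat_lit 116489, nat_lit 373759177) ::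
  (nat_lit 116826, nat_lit 376657821) ::
  (nat_lit 117163, nat_lit 379559835) ::
  (nat_lit 117500, nat_lit 380038038) ::
  (nat_lit 117837, nat_lit 382940052) ::
  (nat_lit 118174, nat_lit 385842066) ::
  (nat_lit 118511, nat_lit 386320269) ::
  (nat_lit 118848, nat_lit 389222283) ::
  (nat_lit 119219, nat_lit 392178850) ::
  (nat_lit 119590, nat_lit 392711606) ::
  (nat_lit 119961, nat_lit 395668173) ::
  (nat_lit 120332, nat_lit 398624740) ::
  (nat_lit 120703, nat_lit 399157496) ::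
  (nat_lit 121074, nat_lit 402122225) ::
  (nat_lit 121445, nat_lit 405086954) ::
  (nat_lit 121816, nat_lit 408051683) ::
  (nat_lit 122187, nat_lit 408592601) ::
  (nat_lit 122558, nat_lit 411557330) ::
  (nat_lit 122929, nat_lit 414522059) ::
  (nat_lit 123300, nat_lit 415067058) ::
  (nat_lit 123671, nat_lit 418035868) ::
  (nat_lit 124042, nat_lit 421004678) ::
  (nat_lit 124413, nat_lit 423973488) ::
  (nat_lit 124784, nat_lit 424518487) ::
  (nat_lit 125155, nat_lit 427493233) ::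
  (nat_lit 125526, nat_lit 430467979) ::
  (nat_lit 125897, nat_lit 431018914) ::
  (nat_lit 126268, nat_lit 433993660) ::
  (nat_lit 126639, nat_lit 436968406) ::
  (nat_lit 127010, nat_lit 437528245) ::
  (nat_lit 127381, nat_lit 440511895) ::
  (nat_lit 127752, nat_lit 443495545) ::
  (nat_lit 128123, nat_lit 446479195) ::
  (nat_lit 128494, nat_lit 447039034) ::
  (nat_lit 128865, nat_lit 450612397) ::
  (nat_lit 129236, nat_lit 454188357) ::
  (nat_lit 129607, nat_lit 454750793) ::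
  (nat_lit 129978, nat_lit 458326753) ::
  (nat_lit 130349, nat_lit 458889189) ::
  (nat_lit 130720, nat_lit 462465149) ::
  (nat_lit 131128, nat_lit 466109849) ::
  (nat_lit 131536, nat_lit 466741025) ::
  (nat_lit 131944, nat_lit 470385725) ::
  (nat_lit 132352, nat_lit 474030425) ::
  (nat_lit 132760, nat_lit 474661601) ::
  (nat_lit 133168, nat_lit 478306301) ::
  (nat_lit 133576, nat_lit 481951001) ::
  (nat_lit 133984, nat_lit 482582177) ::
  (nat_lit 134392, nat_lit 486226877) ::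
  (nat_lit 134800, nat_lit 489871577) ::
  (nat_lit 135208, nat_lit 490518257) ::
  (nat_lit 135616, nat_lit 494178461) ::
  (nat_lit 136024, nat_lit 497838665) ::
  (nat_lit 136432, nat_lit 501498869) ::
  (nat_lit 136840, nat_lit 502145549) ::
  (nat_lit 137248, nat_lit 505805753) ::
  (nat_lit 137656, nat_lit 509465957) ::
  (nat_lit 138064, nat_lit 510112637) ::
  (nat_lit 138472, nat_lit 513772841) ::
  (nat_lit 138880, nat_lit 517433045) ::
  (nat_lit 139288, nat_lit 518079725) ::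
  (nat_lit 139696, nat_lit 521756249) ::
  (nat_lit 140104, nat_lit 525432773) ::
  (nat_lit 140512, nat_lit 526095773) ::
  (nat_lit 140920, nat_lit 529772297) ::
  (nat_lit 141328, nat_lit 533448821) ::
  (nat_lit 141736, nat_lit 534111821) ::
  (nat_lit 142144, nat_lit 537788345) ::
  (nat_lit 142552, nat_lit 541464869) ::
  (nat_lit 142960, nat_lit 542127869) ::
  (nat_lit 143368, nat_lit 545804393) ::
  (nat_lit 143776, nat_lit 549492749) ::
  (nat_lit 144225, nat_lit 550235395) ::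
  (nat_lit 144674, nat_lit 553991565) ::
  (nat_lit 145123, nat_lit 557747735) ::
  (nat_lit 145572, nat_lit 561503905) ::
  (nat_lit 146021, nat_lit 562246551) ::
  (nat_lit 146470, nat_lit 566002721) ::
  (nat_lit 146919, nat_lit 569758891) ::
  (nat_lit 147368, nat_lit 573515061) ::
  (nat_lit 147817, nat_lit 574257707) ::
  (nat_lit 148266, nat_lit 578704257) ::
  (nat_lit 148715, nat_lit 583150807) ::
  (nat_lit 149164, nat_lit 583909617) ::
  (nat_lit 149613, nat_lit 588356167) ::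
  (nat_lit 150062, nat_lit 592802717) ::
  (nat_lit 150511, nat_lit 593561527) ::
  (nat_lit 150960, nat_lit 598008077) ::
  (nat_lit 151409, nat_lit 602454627) ::
  (nat_lit 151858, nat_lit 603213437) ::
  (nat_lit 152307, nat_lit 607659987) ::
  (nat_lit 152756, nat_lit 612118660) ::
  (nat_lit 153205, nat_lit 612889593) ::
  (nat_lit 153654, nat_lit 617348266) ::
  (nat_lit 154103, nat_lit 618119199) ::
  (nat_lit 154552, nat_lit 622577872) ::
  (nat_lit 155001, nat_lit 627036545) :: tN_14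

def tN_12 : List (Nat × Nat) :=
  (nat_lit 85770, nat_lit 216032581) ::
  (nat_lit 86023, nat_lit 217233779) ::
  (nat_lit 86276, nat_lit 218434977) ::
  (nat_lit 86529, nat_lit 219640476) ::
  (nat_lit 86782, nat_lit 220845975) ::
  (nat_lit 87035, nat_lit 222051474) ::
  (nat_lit 87288, nat_lit 223256973) ::
  (nat_lit 87541, nat_lit 224462472) ::
  (nat_lit 87794, nat_lit 225667971) ::
  (nat_lit 88047, nat_lit 226873470) ::
  (nat_lit 88300, nat_lit 228082511) ::
  (nat_lit 88553, nat_lit 229291552) ::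
  (nat_lit 88806, nat_lit 230500593) ::
  (nat_lit 89059, nat_lit 231709634) ::
  (nat_lit 89312, nat_lit 232918675) ::
  (nat_lit 89591, nat_lit 234158136) ::
  (nat_lit 89870, nat_lit 235397597) ::
  (nat_lit 90149, nat_lit 236640406) ::
  (nat_lit 90428, nat_lit 237883215) ::
  (nat_lit 90707, nat_lit 239126024) ::
  (nat_lit 90986, nat_lit 240368833) ::
  (nat_lit 91265, nat_lit 241611642) ::
  (nat_lit 91544, nat_lit 242854451) ::
  (nat_lit 91823, nat_lit 244102561) ::
  (nat_lit 92102, nat_lit 245350671) ::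
  (nat_lit 92381, nat_lit 246598781) ::
  (nat_lit 92660, nat_lit 247995884) ::
  (nat_lit 92939, nat_lit 249392987) ::
  (nat_lit 93218, nat_lit 250790090) ::
  (nat_lit 93497, nat_lit 252193052) ::
  (nat_lit 93776, nat_lit 253596014) ::
  (nat_lit 94055, nat_lit 254998976) ::
  (nat_lit 94334, nat_lit 256401938) ::
  (nat_lit 94613, nat_lit 257804900) ::
  (nat_lit 94892, nat_lit 259207862) ::
  (nat_lit 95171, nat_lit 260615288) ::
  (nat_lit 95450, nat_lit 262022714) ::
  (nat_lit 95729, nat_lit 263430140) ::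
  (nat_lit 96008, nat_lit 264837566) ::
  (nat_lit 96287, nat_lit 266244992) ::
  (nat_lit 96566, nat_lit 267652418) ::
  (nat_lit 96845, nat_lit 269064308) ::
  (nat_lit 97124, nat_lit 270476198) ::
  (nat_lit 97403, nat_lit 271888088) ::
  (nat_lit 97682, nat_lit 273299978) ::
  (nat_lit 97961, nat_lit 274711868) ::
  (nat_lit 98240, nat_lit 276123758) ::
  (nat_lit 98547, nat_lit 277570760) ::
  (nat_lit 98854, nat_lit 279021446) ::
  (nat_lit 99161, nat_lit 280472132) ::
  (nat_lit 99468, nat_lit 281922818) ::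
  (nat_lit 99775, nat_lit 283373504) ::
  (nat_lit 100082, nat_lit 284824190) ::
  (nat_lit 100389, nat_lit 286282551) ::
  (nat_lit 100696, nat_lit 287740912) ::
  (nat_lit 101003, nat_lit 289199273) ::
  (nat_lit 101310, nat_lit 290657634) ::
  (nat_lit 101617, nat_lit 292115995) ::
  (nat_lit 101924, nat_lit 293750674) ::
  (nat_lit 102231, nat_lit 295389958) ::
  (nat_lit 102538, nat_lit 297029242) ::
  (nat_lit 102845, nat_lit 298668526) ::
  (nat_lit 103152, nat_lit 300307810) ::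
  (nat_lit 103459, nat_lit 301947094) ::
  (nat_lit 103766, nat_lit 303586378) ::
  (nat_lit 104073, nat_lit 305230267) ::
  (nat_lit 104380, nat_lit 306874156) ::
  (nat_lit 104687, nat_lit 308518045) ::
  (nat_lit 104994, nat_lit 310161934) ::
  (nat_lit 105301, nat_lit 311805823) ::
  (nat_lit 105608, nat_lit 313449712) ::
  (nat_lit 105915, nat_lit 315096671) ::
  (nat_lit 106222, nat_lit 316743630) ::
  (nat_lit 106529, nat_lit 318390589) ::
  (nat_lit 106836, nat_lit 320037548) ::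
  (nat_lit 107143, nat_lit 321684507) ::
  (nat_lit 107450, nat_lit 323331466) ::
  (nat_lit 107757, nat_lit 324986407) ::
  (nat_lit 108064, nat_lit 326641348) ::
  (nat_lit 108401, nat_lit 328336999) ::
  (nat_lit 108738, nat_lit 330032650) ::
  (nat_lit 109075, nat_lit 331728301) ::
  (nat_lit 109412, nat_lit 333423952) ::
  (nat_lit 109749, nat_lit 335126680) ::
  (nat_lit 110086, nat_lit 336829408) ::
  (nat_lit 110423, nat_lit 338532136) ::
  (nat_lit 110760, nat_lit 340234864) ::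
  (nat_lit 111097, nat_lit 341937592) ::
  (nat_lit 111434, nat_lit 343643690) ::
  (nat_lit 111771, nat_lit 345349788) ::
  (nat_lit 112108, nat_lit 348241355) ::
  (nat_lit 112445, nat_lit 351132922) ::
  (nat_lit 112782, nat_lit 351600678) ::
  (nat_lit 113119, nat_lit 354492245) ::
  (nat_lit 113456, nat_lit 357386845) ::
  (nat_lit 113793, nat_lit 357857634) ::
  (nat_lit 114130, nat_lit 360752234) ::
  (nat_lit 114467, nat_lit 363646834) ::
  (nat_lit 114804, nat_lit 364117623) ::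
  (nat_lit 115141, nat_lit 367012223) :: tN_13

def tN_11 : List (Nat × Nat) :=
  (nat_lit 67482, nat_lit 138608713) ::
  (nat_lit 67605, nat_lit 139293286) ::
  (nat_lit 67728, nat_lit 139979458) ::
  (nat_lit 67851, nat_lit 140099260) ::
  (nat_lit 67974, nat_lit 140785432) ::
  (nat_lit 68097, nat_lit 141471604) ::
  (nat_lit 68220, nat_lit 141591406) ::
  (nat_lit 68343, nat_lit 142277578) ::
  (nat_lit 68466, nat_lit 142397380) ::
  (nat_lit 68589, nat_lit 143083552) ::
  (nat_lit 68712, nat_lit 143769724) ::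
  (nat_lit 68835, nat_lit 143889526) ::
  (nat_lit 68958, nat_lit 144575698) ::
  (nat_lit 69081, nat_lit 145261870) ::
  (nat_lit 69204, nat_lit 145383886) ::
  (nat_lit 69327, nat_lit 146072272) ::
  (nat_lit 69450, nat_lit 146194288) ::
  (nat_lit 69573, nat_lit 146982494) ::
  (nat_lit 69696, nat_lit 147770700) ::
  (nat_lit 69826, nat_lit 147899660) ::
  (nat_lit 69956, nat_lit 148694810) ::
  (nat_lit 70086, nat_lit 148823770) ::
  (nat_lit 70216, nat_lit 149618920) ::
  (nat_lit 70346, nat_lit 150414070) ::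
  (nat_lit 70476, nat_lit 150543030) ::
  (nat_lit 70606, nat_lit 151338180) ::
  (nat_lit 70736, nat_lit 151468960) ::
  (nat_lit 70866, nat_lit 152265930) ::
  (nat_lit 70996, nat_lit 153062900) ::
  (nat_lit 71126, nat_lit 153193680) ::
  (nat_lit 71256, nat_lit 153990650) ::
  (nat_lit 71386, nat_lit 154121430) ::
  (nat_lit 71516, nat_lit 154918400) ::
  (nat_lit 71646, nat_lit 155715370) ::
  (nat_lit 71776, nat_lit 155846150) ::
  (nat_lit 71906, nat_lit 156643120) ::
  (nat_lit 72036, nat_lit 156773900) ::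
  (nat_lit 72166, nat_lit 157570870) ::
  (nat_lit 72296, nat_lit 158369660) ::
  (nat_lit 72426, nat_lit 158502260) ::
  (nat_lit 72556, nat_lit 159301050) ::
  (nat_lit 72686, nat_lit 159433650) ::
  (nat_lit 72816, nat_lit 160232440) ::
  (nat_lit 72946, nat_lit 161031230) ::
  (nat_lit 73076, nat_lit 161163830) ::
  (nat_lit 73206, nat_lit 161962620) ::
  (nat_lit 73336, nat_lit 162095220) ::
  (nat_lit 73466, nat_lit 162894010) ::
  (nat_lit 73596, nat_lit 163692800) ::
  (nat_lit 73726, nat_lit 163825400) ::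
  (nat_lit 73856, nat_lit 164625750) ::
  (nat_lit 74086, nat_lit 165529300) ::
  (nat_lit 74316, nat_lit 166432850) ::
  (nat_lit 74546, nat_lit 167336400) ::
  (nat_lit 74776, nat_lit 168239950) ::
  (nat_lit 75006, nat_lit 169143500) ::
  (nat_lit 75236, nat_lit 170047050) ::
  (nat_lit 75466, nat_lit 170953820) ::
  (nat_lit 75696, nat_lit 171860590) ::
  (nat_lit 75926, nat_lit 172767360) ::
  (nat_lit 76156, nat_lit 173674130) ::
  (nat_lit 76386, nat_lit 174580900) ::
  (nat_lit 76616, nat_lit 175596580) ::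
  (nat_lit 76846, nat_lit 176615250) ::
  (nat_lit 77076, nat_lit 177633920) ::
  (nat_lit 77306, nat_lit 178652590) ::
  (nat_lit 77536, nat_lit 179671260) ::
  (nat_lit 77766, nat_lit 180689930) ::
  (nat_lit 77996, nat_lit 181708600) ::
  (nat_lit 78226, nat_lit 182727270) ::
  (nat_lit 78456, nat_lit 183748010) ::
  (nat_lit 78686, nat_lit 184768750) ::
  (nat_lit 78916, nat_lit 185789490) ::
  (nat_lit 79146, nat_lit 186810230) ::
  (nat_lit 79376, nat_lit 187830970) ::
  (nat_lit 79606, nat_lit 188851710) ::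
  (nat_lit 79836, nat_lit 189872450) ::
  (nat_lit 80066, nat_lit 190897100) ::
  (nat_lit 80296, nat_lit 191921750) ::
  (nat_lit 80526, nat_lit 192946400) ::
  (nat_lit 80756, nat_lit 193971050) ::
  (nat_lit 80986, nat_lit 194995700) ::
  (nat_lit 81216, nat_lit 196020350) ::
  (nat_lit 81469, nat_lit 197069955) ::
  (nat_lit 81722, nat_lit 198124873) ::
  (nat_lit 81975, nat_lit 199179791) ::
  (nat_lit 82228, nat_lit 200234709) ::
  (nat_lit 82481, nat_lit 201289627) ::
  (nat_lit 82734, nat_lit 202344545) ::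
  (nat_lit 82987, nat_lit 203399463) ::
  (nat_lit 83240, nat_lit 204458682) ::
  (nat_lit 83493, nat_lit 205517901) ::
  (nat_lit 83746, nat_lit 206577120) ::
  (nat_lit 83999, nat_lit 207636339) ::
  (nat_lit 84252, nat_lit 208833489) ::
  (nat_lit 84505, nat_lit 210030639) ::
  (nat_lit 84758, nat_lit 211227789) ::
  (nat_lit 85011, nat_lit 212428987) ::
  (nat_lit 85264, nat_lit 213630185) ::
  (nat_lit 85517, nat_lit 214831383) :: tN_12

def tN_10 : List (Nat × Nat) :=
  (nat_lit 56294, nat_lit 97952091) ::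
  (nat_lit 56397, nat_lit 98039332) ::
  (nat_lit 56500, nat_lit 98544116) ::
  (nat_lit 56603, nat_lit 98633520) ::
  (nat_lit 56706, nat_lit 99138304) ::
  (nat_lit 56809, nat_lit 99643088) ::
  (nat_lit 56912, nat_lit 99732492) ::
  (nat_lit 57015, nat_lit 100237276) ::
  (nat_lit 57118, nat_lit 100742060) ::
  (nat_lit 57221, nat_lit 100831464) ::
  (nat_lit 57324, nat_lit 101336248) ::
  (nat_lit 57427, nat_lit 101425652) ::
  (nat_lit 57530, nat_lit 101997527) ::
  (nat_lit 57633, nat_lit 102569402) ::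
  (nat_lit 57736, nat_lit 102658806) ::
  (nat_lit 57839, nat_lit 103231917) ::
  (nat_lit 57942, nat_lit 103322557) ::
  (nat_lit 58045, nat_lit 103895668) ::
  (nat_lit 58148, nat_lit 104468779) ::
  (nat_lit 58251, nat_lit 104559419) ::
  (nat_lit 58354, nat_lit 105132530) ::
  (nat_lit 58457, nat_lit 105223170) ::
  (nat_lit 58560, nat_lit 105796281) ::
  (nat_lit 58669, nat_lit 105892201) ::
  (nat_lit 58778, nat_lit 106470592) ::
  (nat_lit 58887, nat_lit 107048983) ::
  (nat_lit 58996, nat_lit 107144903) ::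
  (nat_lit 59105, nat_lit 107723294) ::
  (nat_lit 59214, nat_lit 107820740) ::
  (nat_lit 59323, nat_lit 108400657) ::
  (nat_lit 59432, nat_lit 108980574) ::
  (nat_lit 59541, nat_lit 109078020) ::
  (nat_lit 59650, nat_lit 109657937) ::
  (nat_lit 59759, nat_lit 110237854) ::
  (nat_lit 59868, nat_lit 110335300) ::
  (nat_lit 59977, nat_lit 110915217) ::
  (nat_lit 60086, nat_lit 111012663) ::
  (nat_lit 60195, nat_lit 111592580) ::
  (nat_lit 60304, nat_lit 112172497) ::
  (nat_lit 60413, nat_lit 112269943) ::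
  (nat_lit 60522, nat_lit 112849860) ::
  (nat_lit 60631, nat_lit 112949813) ::
  (nat_lit 60740, nat_lit 113532237) ::
  (nat_lit 60849, nat_lit 114114661) ::
  (nat_lit 60958, nat_lit 114214614) ::
  (nat_lit 61067, nat_lit 114797038) ::
  (nat_lit 61176, nat_lit 114896991) ::
  (nat_lit 61285, nat_lit 115479415) ::
  (nat_lit 61394, nat_lit 116061839) ::
  (nat_lit 61503, nat_lit 116161792) ::
  (nat_lit 61612, nat_lit 116744216) ::
  (nat_lit 61721, nat_lit 116844169) ::
  (nat_lit 61830, nat_lit 117426593) ::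
  (nat_lit 61939, nat_lit 118009017) ::
  (nat_lit 62048, nat_lit 118110605) ::
  (nat_lit 62164, nat_lit 118701188) ::
  (nat_lit 62280, nat_lit 119291771) ::
  (nat_lit 62396, nat_lit 119399883) ::
  (nat_lit 62512, nat_lit 119990466) ::
  (nat_lit 62628, nat_lit 120581049) ::
  (nat_lit 62744, nat_lit 120689161) ::
  (nat_lit 62860, nat_lit 121279744) ::
  (nat_lit 62976, nat_lit 121870327) ::
  (nat_lit 63092, nat_lit 121978439) ::
  (nat_lit 63208, nat_lit 122652921) ::
  (nat_lit 63324, nat_lit 122761033) ::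
  (nat_lit 63440, nat_lit 123436327) ::
  (nat_lit 63556, nat_lit 124111621) ::
  (nat_lit 63672, nat_lit 124220545) ::
  (nat_lit 63788, nat_lit 124895839) ::
  (nat_lit 63904, nat_lit 125004763) ::
  (nat_lit 64020, nat_lit 125680057) ::
  (nat_lit 64136, nat_lit 125788981) ::
  (nat_lit 64252, nat_lit 126464275) ::
  (nat_lit 64368, nat_lit 127139569) ::
  (nat_lit 64484, nat_lit 127248493) ::
  (nat_lit 64600, nat_lit 127923787) ::
  (nat_lit 64716, nat_lit 128032711) ::
  (nat_lit 64832, nat_lit 128709629) ::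
  (nat_lit 64948, nat_lit 129386547) ::
  (nat_lit 65064, nat_lit 129497095) ::
  (nat_lit 65180, nat_lit 130174013) ::
  (nat_lit 65296, nat_lit 130284561) ::
  (nat_lit 65412, nat_lit 130961479) ::
  (nat_lit 65528, nat_lit 131638397) ::
  (nat_lit 65644, nat_lit 131748945) ::
  (nat_lit 65760, nat_lit 132425863) ::
  (nat_lit 65883, nat_lit 132543082) ::
  (nat_lit 66006, nat_lit 133226671) ::
  (nat_lit 66129, nat_lit 133910260) ::
  (nat_lit 66252, nat_lit 134028463) ::
  (nat_lit 66375, nat_lit 134713036) ::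
  (nat_lit 66498, nat_lit 134831239) ::
  (nat_lit 66621, nat_lit 135515812) ::
  (nat_lit 66744, nat_lit 136200385) ::
  (nat_lit 66867, nat_lit 136318588) ::
  (nat_lit 66990, nat_lit 137003161) ::
  (nat_lit 67113, nat_lit 137687734) ::
  (nat_lit 67236, nat_lit 137805937) ::
  (nat_lit 67359, nat_lit 138490510) :: tN_11

def tN_9 : List (Nat × Nat) :=
  (nat_lit 46954, nat_lit 67564826) ::
  (nat_lit 47041, nat_lit 67828511) ::
  (nat_lit 47128, nat_lit 68092196) ::
  (nat_lit 47215, nat_lit 68355881) ::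
  (nat_lit 47302, nat_lit 68619566) ::
  (nat_lit 47389, nat_lit 68883251) ::
  (nat_lit 47476, nat_lit 69148067) ::
  (nat_lit 47563, nat_lit 69412883) ::
  (nat_lit 47650, nat_lit 69677699) ::
  (nat_lit 47737, nat_lit 69942515) ::
  (nat_lit 47824, nat_lit 70207331) ::
  (nat_lit 47911, nat_lit 70472147) ::
  (nat_lit 47998, nat_lit 70736963) ::
  (nat_lit 48085, nat_lit 71001779) ::
  (nat_lit 48172, nat_lit 71266595) ::
  (nat_lit 48259, nat_lit 71531411) ::
  (nat_lit 48346, nat_lit 71796227) ::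
  (nat_lit 48433, nat_lit 72061043) ::
  (nat_lit 48520, nat_lit 72325859) ::
  (nat_lit 48607, nat_lit 72590675) ::
  (nat_lit 48694, nat_lit 72856448) ::
  (nat_lit 48781, nat_lit 73122221) ::
  (nat_lit 48868, nat_lit 73387994) ::
  (nat_lit 48955, nat_lit 73653767) ::
  (nat_lit 49042, nat_lit 73919540) ::
  (nat_lit 49129, nat_lit 74185313) ::
  (nat_lit 49216, nat_lit 74451086) ::
  (nat_lit 49308, nat_lit 74739042) ::
  (nat_lit 49400, nat_lit 75026998) ::
  (nat_lit 49492, nat_lit 75314954) ::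
  (nat_lit 49584, nat_lit 75602910) ::
  (nat_lit 49676, nat_lit 75890866) ::
  (nat_lit 49768, nat_lit 76178822) ::
  (nat_lit 49860, nat_lit 76466778) ::
  (nat_lit 49952, nat_lit 76756298) ::
  (nat_lit 50044, nat_lit 77045818) ::
  (nat_lit 50136, nat_lit 77335338) ::
  (nat_lit 50228, nat_lit 77624858) ::
  (nat_lit 50320, nat_lit 77914378) ::
  (nat_lit 50412, nat_lit 78203898) ::
  (nat_lit 50504, nat_lit 78493418) ::
  (nat_lit 50596, nat_lit 78782938) ::
  (nat_lit 50688, nat_lit 79072458) ::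
  (nat_lit 50780, nat_lit 79361978) ::
  (nat_lit 50872, nat_lit 79651498) ::
  (nat_lit 50964, nat_lit 79941018) ::
  (nat_lit 51056, nat_lit 80230538) ::
  (nat_lit 51148, nat_lit 80520058) ::
  (nat_lit 51240, nat_lit 80810774) ::
  (nat_lit 51332, nat_lit 81101490) ::
  (nat_lit 51424, nat_lit 81392206) ::
  (nat_lit 51516, nat_lit 81682922) ::
  (nat_lit 51608, nat_lit 81973638) ::
  (nat_lit 51700, nat_lit 82264354) ::
  (nat_lit 51792, nat_lit 82555070) ::
  (nat_lit 51884, nat_lit 82845786) ::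
  (nat_lit 51976, nat_lit 83136502) ::
  (nat_lit 52068, nat_lit 83427218) ::
  (nat_lit 52160, nat_lit 83717934) ::
  (nat_lit 52257, nat_lit 84211205) ::
  (nat_lit 52354, nat_lit 84289096) ::
  (nat_lit 52451, nat_lit 84782367) ::
  (nat_lit 52548, nat_lit 84861907) ::
  (nat_lit 52645, nat_lit 85356827) ::
  (nat_lit 52742, nat_lit 85851747) ::
  (nat_lit 52839, nat_lit 85931287) ::
  (nat_lit 52936, nat_lit 86426207) ::
  (nat_lit 53033, nat_lit 86505747) ::
  (nat_lit 53130, nat_lit 87000667) ::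
  (nat_lit 53227, nat_lit 87495587) ::
  (nat_lit 53324, nat_lit 87575127) ::
  (nat_lit 53421, nat_lit 88070047) ::
  (nat_lit 53518, nat_lit 88149587) ::
  (nat_lit 53615, nat_lit 88644507) ::
  (nat_lit 53712, nat_lit 89139427) ::
  (nat_lit 53809, nat_lit 89220131) ::
  (nat_lit 53906, nat_lit 89716215) ::
  (nat_lit 54003, nat_lit 89796919) ::
  (nat_lit 54100, nat_lit 90293003) ::
  (nat_lit 54197, nat_lit 90789087) ::
  (nat_lit 54294, nat_lit 90869791) ::
  (nat_lit 54391, nat_lit 91365875) ::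
  (nat_lit 54488, nat_lit 91446579) ::
  (nat_lit 54585, nat_lit 91942663) ::
  (nat_lit 54682, nat_lit 92438747) ::
  (nat_lit 54779, nat_lit 92519451) ::
  (nat_lit 54876, nat_lit 93015535) ::
  (nat_lit 54973, nat_lit 93096239) ::
  (nat_lit 55070, nat_lit 93592323) ::
  (nat_lit 55167, nat_lit 94089862) ::
  (nat_lit 55264, nat_lit 94172021) ::
  (nat_lit 55367, nat_lit 94674642) ::
  (nat_lit 55470, nat_lit 94761883) ::
  (nat_lit 55573, nat_lit 95264504) ::
  (nat_lit 55676, nat_lit 95767125) ::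
  (nat_lit 55779, nat_lit 95854366) ::
  (nat_lit 55882, nat_lit 96356987) ::
  (nat_lit 55985, nat_lit 96859608) ::
  (nat_lit 56088, nat_lit 96946849) ::
  (nat_lit 56191, nat_lit 97449470) :: tN_10

def tN_8 : List (Nat × Nat) :=
  (nat_lit 39154, nat_lit 45275533) ::
  (nat_lit 39227, nat_lit 45475038) ::
  (nat_lit 39300, nat_lit 45674543) ::
  (nat_lit 39373, nat_lit 45874048) ::
  (nat_lit 39446, nat_lit 46073553) ::
  (nat_lit 39519, nat_lit 46273058) ::
  (nat_lit 39592, nat_lit 46472563) ::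
  (nat_lit 39665, nat_lit 46672068) ::
  (nat_lit 39738, nat_lit 46871573) ::
  (nat_lit 39811, nat_lit 47071078) ::
  (nat_lit 39884, nat_lit 47270583) ::
  (nat_lit 39957, nat_lit 47470088) ::
  (nat_lit 40030, nat_lit 47669593) ::
  (nat_lit 40103, nat_lit 47869098) ::
  (nat_lit 40176, nat_lit 48068603) ::
  (nat_lit 40249, nat_lit 48268108) ::
  (nat_lit 40322, nat_lit 48467613) ::
  (nat_lit 40395, nat_lit 48668067) ::
  (nat_lit 40468, nat_lit 48868521) ::
  (nat_lit 40541, nat_lit 49068975) ::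
  (nat_lit 40614, nat_lit 49269429) ::
  (nat_lit 40687, nat_lit 49469883) ::
  (nat_lit 40760, nat_lit 49670337) ::
  (nat_lit 40833, nat_lit 49870791) ::
  (nat_lit 40906, nat_lit 50071245) ::
  (nat_lit 40979, nat_lit 50271699) ::
  (nat_lit 41052, nat_lit 50472153) ::
  (nat_lit 41125, nat_lit 50672607) ::
  (nat_lit 41198, nat_lit 50873061) ::
  (nat_lit 41271, nat_lit 51073515) ::
  (nat_lit 41344, nat_lit 51273969) ::
  (nat_lit 41421, nat_lit 51491702) ::
  (nat_lit 41498, nat_lit 51710282) ::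
  (nat_lit 41575, nat_lit 51928862) ::
  (nat_lit 41652, nat_lit 52147442) ::
  (nat_lit 41729, nat_lit 52366022) ::
  (nat_lit 41806, nat_lit 52584602) ::
  (nat_lit 41883, nat_lit 52803182) ::
  (nat_lit 41960, nat_lit 53021762) ::
  (nat_lit 42037, nat_lit 53240342) ::
  (nat_lit 42114, nat_lit 53458922) ::
  (nat_lit 42191, nat_lit 53677502) ::
  (nat_lit 42268, nat_lit 53896082) ::
  (nat_lit 42345, nat_lit 54114662) ::
  (nat_lit 42422, nat_lit 54333242) ::
  (nat_lit 42499, nat_lit 54551822) ::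
  (nat_lit 42576, nat_lit 54770402) ::
  (nat_lit 42653, nat_lit 54989983) ::
  (nat_lit 42730, nat_lit 55209564) ::
  (nat_lit 42807, nat_lit 55429145) ::
  (nat_lit 42884, nat_lit 55648726) ::
  (nat_lit 42961, nat_lit 55868307) ::
  (nat_lit 43038, nat_lit 56087888) ::
  (nat_lit 43115, nat_lit 56307469) ::
  (nat_lit 43192, nat_lit 56527050) ::
  (nat_lit 43269, nat_lit 56746631) ::
  (nat_lit 43346, nat_lit 56966212) ::
  (nat_lit 43423, nat_lit 57185793) ::
  (nat_lit 43500, nat_lit 57405374) ::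
  (nat_lit 43577, nat_lit 57624955) ::
  (nat_lit 43654, nat_lit 57844536) ::
  (nat_lit 43731, nat_lit 58064117) ::
  (nat_lit 43808, nat_lit 58283698) ::
  (nat_lit 43890, nat_lit 58523562) ::
  (nat_lit 43972, nat_lit 58763426) ::
  (nat_lit 44054, nat_lit 59003290) ::
  (nat_lit 44136, nat_lit 59243154) ::
  (nat_lit 44218, nat_lit 59483018) ::
  (nat_lit 44300, nat_lit 59722882) ::
  (nat_lit 44382, nat_lit 59962746) ::
  (nat_lit 44464, nat_lit 60202610) ::
  (nat_lit 44546, nat_lit 60442474) ::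
  (nat_lit 44628, nat_lit 60682338) ::
  (nat_lit 44710, nat_lit 60922202) ::
  (nat_lit 44792, nat_lit 61162066) ::
  (nat_lit 44874, nat_lit 61401930) ::
  (nat_lit 44956, nat_lit 61641794) ::
  (nat_lit 45038, nat_lit 61882806) ::
  (nat_lit 45120, nat_lit 62123818) ::
  (nat_lit 45202, nat_lit 62364830) ::
  (nat_lit 45284, nat_lit 62605842) ::
  (nat_lit 45366, nat_lit 62846854) ::
  (nat_lit 45448, nat_lit 63087866) ::
  (nat_lit 45530, nat_lit 63328878) ::
  (nat_lit 45612, nat_lit 63569890) ::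
  (nat_lit 45694, nat_lit 63810902) ::
  (nat_lit 45776, nat_lit 64051914) ::
  (nat_lit 45858, nat_lit 64292926) ::
  (nat_lit 45940, nat_lit 64533938) ::
  (nat_lit 46022, nat_lit 64774950) ::
  (nat_lit 46104, nat_lit 65015962) ::
  (nat_lit 46186, nat_lit 65256974) ::
  (nat_lit 46268, nat_lit 65498888) ::
  (nat_lit 46350, nat_lit 65740802) ::
  (nat_lit 46432, nat_lit 65982716) ::
  (nat_lit 46519, nat_lit 66246401) ::
  (nat_lit 46606, nat_lit 66510086) ::
  (nat_lit 46693, nat_lit 66773771) ::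
  (nat_lit 46780, nat_lit 67037456) ::
  (nat_lit 46867, nat_lit 67301141) :: tN_9

def tN_7 : List (Nat × Nat) :=
  (nat_lit 32256, nat_lit 27956474) ::
  (nat_lit 32512, nat_lit 28504202) ::
  (nat_lit 32768, nat_lit 29053210) ::
  (nat_lit 32829, nat_lit 29189137) ::
  (nat_lit 32890, nat_lit 29336287) ::
  (nat_lit 32951, nat_lit 29483437) ::
  (nat_lit 33012, nat_lit 29630587) ::
  (nat_lit 33073, nat_lit 29777737) ::
  (nat_lit 33134, nat_lit 29924887) ::
  (nat_lit 33195, nat_lit 30072037) ::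
  (nat_lit 33256, nat_lit 30219187) ::
  (nat_lit 33317, nat_lit 30366337) ::
  (nat_lit 33378, nat_lit 30513487) ::
  (nat_lit 33439, nat_lit 30660637) ::
  (nat_lit 33500, nat_lit 30807787) ::
  (nat_lit 33561, nat_lit 30954937) ::
  (nat_lit 33622, nat_lit 31102087) ::
  (nat_lit 33683, nat_lit 31249237) ::
  (nat_lit 33744, nat_lit 31396387) ::
  (nat_lit 33805, nat_lit 31544391) ::
  (nat_lit 33866, nat_lit 31692395) ::
  (nat_lit 33927, nat_lit 31840399) ::
  (nat_lit 33988, nat_lit 31988403) ::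
  (nat_lit 34049, nat_lit 32136407) ::
  (nat_lit 34110, nat_lit 32284411) ::
  (nat_lit 34171, nat_lit 32432415) ::
  (nat_lit 34232, nat_lit 32580419) ::
  (nat_lit 34293, nat_lit 32728423) ::
  (nat_lit 34354, nat_lit 32876427) ::
  (nat_lit 34415, nat_lit 33024431) ::
  (nat_lit 34476, nat_lit 33172435) ::
  (nat_lit 34537, nat_lit 33320439) ::
  (nat_lit 34598, nat_lit 33468443) ::
  (nat_lit 34659, nat_lit 33616447) ::
  (nat_lit 34720, nat_lit 33764451) ::
  (nat_lit 34785, nat_lit 33914875) ::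
  (nat_lit 34850, nat_lit 34077335) ::
  (nat_lit 34915, nat_lit 34239795) ::
  (nat_lit 34980, nat_lit 34402255) ::
  (nat_lit 35045, nat_lit 34564715) ::
  (nat_lit 35110, nat_lit 34727175) ::
  (nat_lit 35175, nat_lit 34889635) ::
  (nat_lit 35240, nat_lit 35052095) ::
  (nat_lit 35305, nat_lit 35214555) ::
  (nat_lit 35370, nat_lit 35377015) ::
  (nat_lit 35435, nat_lit 35539475) ::
  (nat_lit 35500, nat_lit 35701935) ::
  (nat_lit 35565, nat_lit 35864395) ::
  (nat_lit 35630, nat_lit 36026855) ::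
  (nat_lit 35695, nat_lit 36189315) ::
  (nat_lit 35760, nat_lit 36351775) ::
  (nat_lit 35825, nat_lit 36514235) ::
  (nat_lit 35890, nat_lit 36676695) ::
  (nat_lit 35955, nat_lit 36840325) ::
  (nat_lit 36020, nat_lit 37003955) ::
  (nat_lit 36085, nat_lit 37167585) ::
  (nat_lit 36150, nat_lit 37331215) ::
  (nat_lit 36215, nat_lit 37494845) ::
  (nat_lit 36280, nat_lit 37658475) ::
  (nat_lit 36345, nat_lit 37822105) ::
  (nat_lit 36410, nat_lit 37985735) ::
  (nat_lit 36475, nat_lit 38149365) ::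
  (nat_lit 36540, nat_lit 38312995) ::
  (nat_lit 36605, nat_lit 38476625) ::
  (nat_lit 36670, nat_lit 38640255) ::
  (nat_lit 36735, nat_lit 38803885) ::
  (nat_lit 36800, nat_lit 38967515) ::
  (nat_lit 36869, nat_lit 39133713) ::
  (nat_lit 36938, nat_lit 39313520) ::
  (nat_lit 37007, nat_lit 39494086) ::
  (nat_lit 37076, nat_lit 39674652) ::
  (nat_lit 37145, nat_lit 39855218) ::
  (nat_lit 37214, nat_lit 40035784) ::
  (nat_lit 37283, nat_lit 40216350) ::
  (nat_lit 37352, nat_lit 40396916) ::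
  (nat_lit 37421, nat_lit 40577482) ::
  (nat_lit 37490, nat_lit 40758048) ::
  (nat_lit 37559, nat_lit 40938614) ::
  (nat_lit 37628, nat_lit 41119180) ::
  (nat_lit 37697, nat_lit 41299746) ::
  (nat_lit 37766, nat_lit 41480312) ::
  (nat_lit 37835, nat_lit 41660878) ::
  (nat_lit 37904, nat_lit 41841444) ::
  (nat_lit 37973, nat_lit 42022010) ::
  (nat_lit 38042, nat_lit 42202576) ::
  (nat_lit 38111, nat_lit 42384039) ::
  (nat_lit 38180, nat_lit 42565502) ::
  (nat_lit 38249, nat_lit 42746965) ::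
  (nat_lit 38318, nat_lit 42928428) ::
  (nat_lit 38387, nat_lit 43109891) ::
  (nat_lit 38456, nat_lit 43291354) ::
  (nat_lit 38525, nat_lit 43472817) ::
  (nat_lit 38594, nat_lit 43654280) ::
  (nat_lit 38663, nat_lit 43835743) ::
  (nat_lit 38732, nat_lit 44017206) ::
  (nat_lit 38801, nat_lit 44198669) ::
  (nat_lit 38870, nat_lit 44380132) ::
  (nat_lit 38939, nat_lit 44561595) ::
  (nat_lit 39008, nat_lit 44743058) ::
  (nat_lit 39081, nat_lit 45077050) :: tN_8

def tN_6 : List (Nat × Nat) :=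
  (nat_lit 11520, nat_lit 2167089) ::
  (nat_lit 11648, nat_lit 2232526) ::
  (nat_lit 11776, nat_lit 2298714) ::
  (nat_lit 11904, nat_lit 2334042) ::
  (nat_lit 12032, nat_lit 2401324) ::
  (nat_lit 12160, nat_lit 2468769) ::
  (nat_lit 12288, nat_lit 2504737) ::
  (nat_lit 12416, nat_lit 2572767) ::
  (nat_lit 12544, nat_lit 2641376) ::
  (nat_lit 12672, nat_lit 2710892) ::
  (nat_lit 12800, nat_lit 2747884) ::
  (nat_lit 12928, nat_lit 2818252) ::
  (nat_lit 13056, nat_lit 2888881) ::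
  (nat_lit 13184, nat_lit 2927153) ::
  (nat_lit 13312, nat_lit 2999032) ::
  (nat_lit 13440, nat_lit 3071147) ::
  (nat_lit 13568, nat_lit 3110187) ::
  (nat_lit 13696, nat_lit 3183098) ::
  (nat_lit 13824, nat_lit 3256044) ::
  (nat_lit 13952, nat_lit 3329354) ::
  (nat_lit 14080, nat_lit 3368778) ::
  (nat_lit 14208, nat_lit 3443588) ::
  (nat_lit 14336, nat_lit 3518895) ::
  (nat_lit 14464, nat_lit 3559983) ::
  (nat_lit 14592, nat_lit 3635513) ::
  (nat_lit 14720, nat_lit 3711610) ::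
  (nat_lit 14848, nat_lit 3788916) ::
  (nat_lit 14976, nat_lit 3831028) ::
  (nat_lit 15104, nat_lit 3908513) ::
  (nat_lit 15232, nat_lit 3986448) ::
  (nat_lit 15360, nat_lit 4029328) ::
  (nat_lit 15488, nat_lit 4108194) ::
  (nat_lit 15616, nat_lit 4187724) ::
  (nat_lit 15744, nat_lit 4231116) ::
  (nat_lit 15872, nat_lit 4311807) ::
  (nat_lit 16000, nat_lit 4393243) ::
  (nat_lit 16128, nat_lit 4474661) ::
  (nat_lit 16256, nat_lit 4519845) ::
  (nat_lit 16384, nat_lit 4602630) ::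
  (nat_lit 16640, nat_lit 4731100) ::
  (nat_lit 16896, nat_lit 4898024) ::
  (nat_lit 17152, nat_lit 5028200) ::
  (nat_lit 17408, nat_lit 5197056) ::
  (nat_lit 17664, nat_lit 5327919) ::
  (nat_lit 17920, nat_lit 5459844) ::
  (nat_lit 18176, nat_lit 5632124) ::
  (nat_lit 18432, nat_lit 5766835) ::
  (nat_lit 18688, nat_lit 5943239) ::
  (nat_lit 18944, nat_lit 6081099) ::
  (nat_lit 19200, nat_lit 6261437) ::
  (nat_lit 19456, nat_lit 6402212) ::
  (nat_lit 19712, nat_lit 6543807) ::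
  (nat_lit 19968, nat_lit 6728135) ::
  (nat_lit 20224, nat_lit 6872486) ::
  (nat_lit 20480, nat_lit 7061688) ::
  (nat_lit 20736, nat_lit 7208496) ::
  (nat_lit 20992, nat_lit 7358270) ::
  (nat_lit 21248, nat_lit 7551970) ::
  (nat_lit 21504, nat_lit 7704297) ::
  (nat_lit 21760, nat_lit 7901187) ::
  (nat_lit 22016, nat_lit 8055529) ::
  (nat_lit 22272, nat_lit 8257022) ::
  (nat_lit 22528, nat_lit 8414536) ::
  (nat_lit 22784, nat_lit 8572689) ::
  (nat_lit 23040, nat_lit 8777886) ::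
  (nat_lit 23296, nat_lit 9079344) ::
  (nat_lit 23552, nat_lit 9569876) ::
  (nat_lit 23808, nat_lit 10061432) ::
  (nat_lit 24064, nat_lit 10554012) ::
  (nat_lit 24320, nat_lit 11047616) ::
  (nat_lit 24576, nat_lit 11547449) ::
  (nat_lit 24832, nat_lit 12078171) ::
  (nat_lit 25088, nat_lit 12540834) ::
  (nat_lit 25344, nat_lit 13072836) ::
  (nat_lit 25600, nat_lit 13538059) ::
  (nat_lit 25856, nat_lit 14072109) ::
  (nat_lit 26112, nat_lit 14554786) ::
  (nat_lit 26368, nat_lit 15135822) ::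
  (nat_lit 26624, nat_lit 15641864) ::
  (nat_lit 26880, nat_lit 16148418) ::
  (nat_lit 27136, nat_lit 16656252) ::
  (nat_lit 27392, nat_lit 17241640) ::
  (nat_lit 27648, nat_lit 17766038) ::
  (nat_lit 27904, nat_lit 18312594) ::
  (nat_lit 28160, nat_lit 18860174) ::
  (nat_lit 28416, nat_lit 19408266) ::
  (nat_lit 28672, nat_lit 19956358) ::
  (nat_lit 28928, nat_lit 20505986) ::
  (nat_lit 29184, nat_lit 21056382) ::
  (nat_lit 29440, nat_lit 21557190) ::
  (nat_lit 29696, nat_lit 22149216) ::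
  (nat_lit 29952, nat_lit 22742266) ::
  (nat_lit 30208, nat_lit 23244610) ::
  (nat_lit 30464, nat_lit 23838428) ::
  (nat_lit 30720, nat_lit 24432246) ::
  (nat_lit 30976, nat_lit 24936638) ::
  (nat_lit 31232, nat_lit 25577586) ::
  (nat_lit 31488, nat_lit 26120706) ::
  (nat_lit 31744, nat_lit 26764982) ::
  (nat_lit 32000, nat_lit 27310406) :: tN_7

def tN_5 : List (Nat × Nat) :=
  (nat_lit 3776, nat_lit 337452) ::
  (nat_lit 3808, nat_lit 342596) ::
  (nat_lit 3840, nat_lit 346948) ::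
  (nat_lit 3872, nat_lit 352110) ::
  (nat_lit 3904, nat_lit 357258) ::
  (nat_lit 3936, nat_lit 361642) ::
  (nat_lit 3968, nat_lit 366901) ::
  (nat_lit 4000, nat_lit 372118) ::
  (nat_lit 4032, nat_lit 377422) ::
  (nat_lit 4064, nat_lit 381998) ::
  (nat_lit 4096, nat_lit 387403) ::
  (nat_lit 4160, nat_lit 397390) ::
  (nat_lit 4224, nat_lit 408291) ::
  (nat_lit 4288, nat_lit 418442) ::
  (nat_lit 4352, nat_lit 429634) ::
  (nat_lit 4416, nat_lit 440079) ::
  (nat_lit 4480, nat_lit 450633) ::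
  (nat_lit 4544, nat_lit 462030) ::
  (nat_lit 4608, nat_lit 472680) ::
  (nat_lit 4672, nat_lit 484549) ::
  (nat_lit 4736, nat_lit 495555) ::
  (nat_lit 4800, nat_lit 507476) ::
  (nat_lit 4864, nat_lit 518703) ::
  (nat_lit 4928, nat_lit 529917) ::
  (nat_lit 4992, nat_lit 542041) ::
  (nat_lit 5056, nat_lit 553640) ::
  (nat_lit 5120, nat_lit 566247) ::
  (nat_lit 5184, nat_lit 577979) ::
  (nat_lit 5248, nat_lit 589798) ::
  (nat_lit 5312, nat_lit 602690) ::
  (nat_lit 5376, nat_lit 614643) ::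
  (nat_lit 5440, nat_lit 627486) ::
  (nat_lit 5504, nat_lit 639423) ::
  (nat_lit 5568, nat_lit 652441) ::
  (nat_lit 5632, nat_lit 664665) ::
  (nat_lit 5696, nat_lit 676858) ::
  (nat_lit 5760, nat_lit 690074) ::
  (nat_lit 5824, nat_lit 703859) ::
  (nat_lit 5888, nat_lit 717857) ::
  (nat_lit 5952, nat_lit 729441) ::
  (nat_lit 6016, nat_lit 743418) ::
  (nat_lit 6080, nat_lit 757573) ::
  (nat_lit 6144, nat_lit 769413) ::
  (nat_lit 6208, nat_lit 783805) ::
  (nat_lit 6272, nat_lit 798279) ::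
  (nat_lit 6336, nat_lit 813053) ::
  (nat_lit 6400, nat_lit 825277) ::
  (nat_lit 6464, nat_lit 840005) ::
  (nat_lit 6528, nat_lit 854912) ::
  (nat_lit 6592, nat_lit 867328) ::
  (nat_lit 6656, nat_lit 882416) ::
  (nat_lit 6720, nat_lit 897581) ::
  (nat_lit 6784, nat_lit 910381) ::
  (nat_lit 6848, nat_lit 925699) ::
  (nat_lit 6912, nat_lit 941106) ::
  (nat_lit 6976, nat_lit 956638) ::
  (nat_lit 7040, nat_lit 969630) ::
  (nat_lit 7104, nat_lit 985231) ::
  (nat_lit 7168, nat_lit 1000836) ::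
  (nat_lit 7232, nat_lit 1014148) ::
  (nat_lit 7296, nat_lit 1030040) ::
  (nat_lit 7360, nat_lit 1046101) ::
  (nat_lit 7424, nat_lit 1062228) ::
  (nat_lit 7488, nat_lit 1075732) ::
  (nat_lit 7552, nat_lit 1091959) ::
  (nat_lit 7616, nat_lit 1108156) ::
  (nat_lit 7680, nat_lit 1121660) ::
  (nat_lit 7744, nat_lit 1137891) ::
  (nat_lit 7808, nat_lit 1154158) ::
  (nat_lit 7872, nat_lit 1167726) ::
  (nat_lit 7936, nat_lit 1184058) ::
  (nat_lit 8000, nat_lit 1200501) ::
  (nat_lit 8064, nat_lit 1216887) ::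
  (nat_lit 8128, nat_lit 1230647) ::
  (nat_lit 8192, nat_lit 1247268) ::
  (nat_lit 8320, nat_lit 1277575) ::
  (nat_lit 8448, nat_lit 1310928) ::
  (nat_lit 8576, nat_lit 1341735) ::
  (nat_lit 8704, nat_lit 1375480) ::
  (nat_lit 8832, nat_lit 1407254) ::
  (nat_lit 8960, nat_lit 1439166) ::
  (nat_lit 9088, nat_lit 1474053) ::
  (nat_lit 9216, nat_lit 1506333) ::
  (nat_lit 9344, nat_lit 1541838) ::
  (nat_lit 9472, nat_lit 1574653) ::
  (nat_lit 9600, nat_lit 1610458) ::
  (nat_lit 9728, nat_lit 1643340) ::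
  (nat_lit 9856, nat_lit 1677466) ::
  (nat_lit 9984, nat_lit 1714605) ::
  (nat_lit 10112, nat_lit 1749353) ::
  (nat_lit 10240, nat_lit 1787495) ::
  (nat_lit 10368, nat_lit 1822470) ::
  (nat_lit 10496, nat_lit 1858320) ::
  (nat_lit 10624, nat_lit 1897782) ::
  (nat_lit 10752, nat_lit 1934309) ::
  (nat_lit 10880, nat_lit 1974058) ::
  (nat_lit 11008, nat_lit 2010905) ::
  (nat_lit 11136, nat_lit 2051416) ::
  (nat_lit 11264, nat_lit 2088887) ::
  (nat_lit 11392, nat_lit 2126350) :: tN_6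

def tN_4 : List (Nat × Nat) :=
  (nat_lit 1312, nat_lit 56920) ::
  (nat_lit 1328, nat_lit 58189) ::
  (nat_lit 1344, nat_lit 59326) ::
  (nat_lit 1360, nat_lit 60607) ::
  (nat_lit 1376, nat_lit 61771) ::
  (nat_lit 1392, nat_lit 63055) ::
  (nat_lit 1408, nat_lit 64202) ::
  (nat_lit 1424, nat_lit 65377) ::
  (nat_lit 1440, nat_lit 66679) ::
  (nat_lit 1456, nat_lit 67996) ::
  (nat_lit 1472, nat_lit 69302) ::
  (nat_lit 1488, nat_lit 70358) ::
  (nat_lit 1504, nat_lit 71636) ::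
  (nat_lit 1520, nat_lit 72975) ::
  (nat_lit 1536, nat_lit 74063) ::
  (nat_lit 1552, nat_lit 75410) ::
  (nat_lit 1568, nat_lit 76770) ::
  (nat_lit 1584, nat_lit 78136) ::
  (nat_lit 1600, nat_lit 79272) ::
  (nat_lit 1616, nat_lit 80684) ::
  (nat_lit 1632, nat_lit 82082) ::
  (nat_lit 1648, nat_lit 83234) ::
  (nat_lit 1664, nat_lit 84653) ::
  (nat_lit 1680, nat_lit 86101) ::
  (nat_lit 1696, nat_lit 87317) ::
  (nat_lit 1712, nat_lit 88792) ::
  (nat_lit 1728, nat_lit 90251) ::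
  (nat_lit 1744, nat_lit 91749) ::
  (nat_lit 1760, nat_lit 92981) ::
  (nat_lit 1776, nat_lit 94481) ::
  (nat_lit 1792, nat_lit 95982) ::
  (nat_lit 1808, nat_lit 97310) ::
  (nat_lit 1824, nat_lit 98933) ::
  (nat_lit 1840, nat_lit 100511) ::
  (nat_lit 1856, nat_lit 102061) ::
  (nat_lit 1872, nat_lit 103389) ::
  (nat_lit 1888, nat_lit 104995) ::
  (nat_lit 1904, nat_lit 106616) ::
  (nat_lit 1920, nat_lit 107944) ::
  (nat_lit 1936, nat_lit 109599) ::
  (nat_lit 1952, nat_lit 111270) ::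
  (nat_lit 1968, nat_lit 112630) ::
  (nat_lit 1984, nat_lit 114307) ::
  (nat_lit 2000, nat_lit 115949) ::
  (nat_lit 2016, nat_lit 117638) ::
  (nat_lit 2032, nat_lit 119014) ::
  (nat_lit 2048, nat_lit 120691) ::
  (nat_lit 2080, nat_lit 123824) ::
  (nat_lit 2112, nat_lit 127246) ::
  (nat_lit 2144, nat_lit 130441) ::
  (nat_lit 2176, nat_lit 133949) ::
  (nat_lit 2208, nat_lit 137182) ::
  (nat_lit 2240, nat_lit 140419) ::
  (nat_lit 2272, nat_lit 144027) ::
  (nat_lit 2304, nat_lit 147292) ::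
  (nat_lit 2336, nat_lit 150994) ::
  (nat_lit 2368, nat_lit 154330) ::
  (nat_lit 2400, nat_lit 158060) ::
  (nat_lit 2432, nat_lit 161447) ::
  (nat_lit 2464, nat_lit 164976) ::
  (nat_lit 2496, nat_lit 168879) ::
  (nat_lit 2528, nat_lit 172465) ::
  (nat_lit 2560, nat_lit 176376) ::
  (nat_lit 2592, nat_lit 179936) ::
  (nat_lit 2624, nat_lit 183655) ::
  (nat_lit 2656, nat_lit 187680) ::
  (nat_lit 2688, nat_lit 191465) ::
  (nat_lit 2720, nat_lit 195560) ::
  (nat_lit 2752, nat_lit 199351) ::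
  (nat_lit 2784, nat_lit 203484) ::
  (nat_lit 2816, nat_lit 207333) ::
  (nat_lit 2848, nat_lit 211178) ::
  (nat_lit 2880, nat_lit 215388) ::
  (nat_lit 2912, nat_lit 219615) ::
  (nat_lit 2944, nat_lit 223819) ::
  (nat_lit 2976, nat_lit 227403) ::
  (nat_lit 3008, nat_lit 231685) ::
  (nat_lit 3040, nat_lit 236018) ::
  (nat_lit 3072, nat_lit 239634) ::
  (nat_lit 3104, nat_lit 243932) ::
  (nat_lit 3136, nat_lit 248354) ::
  (nat_lit 3168, nat_lit 252814) ::
  (nat_lit 3200, nat_lit 256494) ::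
  (nat_lit 3232, nat_lit 261078) ::
  (nat_lit 3264, nat_lit 265615) ::
  (nat_lit 3296, nat_lit 269423) ::
  (nat_lit 3328, nat_lit 274016) ::
  (nat_lit 3360, nat_lit 278593) ::
  (nat_lit 3392, nat_lit 282433) ::
  (nat_lit 3424, nat_lit 287032) ::
  (nat_lit 3456, nat_lit 291703) ::
  (nat_lit 3488, nat_lit 296369) ::
  (nat_lit 3520, nat_lit 300241) ::
  (nat_lit 3552, nat_lit 304959) ::
  (nat_lit 3584, nat_lit 309734) ::
  (nat_lit 3616, nat_lit 313766) ::
  (nat_lit 3648, nat_lit 318604) ::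
  (nat_lit 3680, nat_lit 323460) ::
  (nat_lit 3712, nat_lit 328406) ::
  (nat_lit 3744, nat_lit 332534) :: tN_5

def tN_3 : List (Nat × Nat) :=
  (nat_lit 440, nat_lit 9458) ::
  (nat_lit 444, nat_lit 9604) ::
  (nat_lit 448, nat_lit 9758) ::
  (nat_lit 452, nat_lit 9886) ::
  (nat_lit 456, nat_lit 10050) ::
  (nat_lit 460, nat_lit 10224) ::
  (nat_lit 464, nat_lit 10381) ::
  (nat_lit 468, nat_lit 10509) ::
  (nat_lit 472, nat_lit 10677) ::
  (nat_lit 476, nat_lit 10842) ::
  (nat_lit 480, nat_lit 10970) ::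
  (nat_lit 484, nat_lit 11131) ::
  (nat_lit 488, nat_lit 11306) ::
  (nat_lit 492, nat_lit 11438) ::
  (nat_lit 496, nat_lit 11628) ::
  (nat_lit 500, nat_lit 11808) ::
  (nat_lit 504, nat_lit 11972) ::
  (nat_lit 508, nat_lit 12104) ::
  (nat_lit 512, nat_lit 12267) ::
  (nat_lit 520, nat_lit 12564) ::
  (nat_lit 528, nat_lit 12913) ::
  (nat_lit 536, nat_lit 13208) ::
  (nat_lit 544, nat_lit 13535) ::
  (nat_lit 552, nat_lit 13838) ::
  (nat_lit 560, nat_lit 14155) ::
  (nat_lit 568, nat_lit 14487) ::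
  (nat_lit 576, nat_lit 14797) ::
  (nat_lit 584, nat_lit 15145) ::
  (nat_lit 592, nat_lit 15460) ::
  (nat_lit 600, nat_lit 15829) ::
  (nat_lit 608, nat_lit 16140) ::
  (nat_lit 616, nat_lit 16473) ::
  (nat_lit 624, nat_lit 16827) ::
  (nat_lit 632, nat_lit 17153) ::
  (nat_lit 640, nat_lit 17541) ::
  (nat_lit 648, nat_lit 17867) ::
  (nat_lit 656, nat_lit 18205) ::
  (nat_lit 664, nat_lit 18602) ::
  (nat_lit 672, nat_lit 18942) ::
  (nat_lit 680, nat_lit 19339) ::
  (nat_lit 688, nat_lit 19697) ::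
  (nat_lit 696, nat_lit 20118) ::
  (nat_lit 704, nat_lit 20489) ::
  (nat_lit 712, nat_lit 20848) ::
  (nat_lit 720, nat_lit 21266) ::
  (nat_lit 728, nat_lit 21676) ::
  (nat_lit 736, nat_lit 22103) ::
  (nat_lit 744, nat_lit 22431) ::
  (nat_lit 752, nat_lit 22842) ::
  (nat_lit 760, nat_lit 23266) ::
  (nat_lit 768, nat_lit 23594) ::
  (nat_lit 776, nat_lit 24001) ::
  (nat_lit 784, nat_lit 24421) ::
  (nat_lit 792, nat_lit 24859) ::
  (nat_lit 800, nat_lit 25187) ::
  (nat_lit 808, nat_lit 25624) ::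
  (nat_lit 816, nat_lit 26072) ::
  (nat_lit 824, nat_lit 26432) ::
  (nat_lit 832, nat_lit 26894) ::
  (nat_lit 840, nat_lit 27338) ::
  (nat_lit 848, nat_lit 27698) ::
  (nat_lit 856, nat_lit 28142) ::
  (nat_lit 864, nat_lit 28603) ::
  (nat_lit 872, nat_lit 29053) ::
  (nat_lit 880, nat_lit 29413) ::
  (nat_lit 888, nat_lit 29889) ::
  (nat_lit 896, nat_lit 30368) ::
  (nat_lit 904, nat_lit 30744) ::
  (nat_lit 912, nat_lit 31231) ::
  (nat_lit 920, nat_lit 31705) ::
  (nat_lit 928, nat_lit 32189) ::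
  (nat_lit 936, nat_lit 32581) ::
  (nat_lit 944, nat_lit 33081) ::
  (nat_lit 952, nat_lit 33573) ::
  (nat_lit 960, nat_lit 33965) ::
  (nat_lit 968, nat_lit 34467) ::
  (nat_lit 976, nat_lit 34975) ::
  (nat_lit 984, nat_lit 35383) ::
  (nat_lit 992, nat_lit 35919) ::
  (nat_lit 1000, nat_lit 36428) ::
  (nat_lit 1008, nat_lit 36946) ::
  (nat_lit 1016, nat_lit 37354) ::
  (nat_lit 1024, nat_lit 37868) ::
  (nat_lit 1040, nat_lit 38802) ::
  (nat_lit 1056, nat_lit 39844) ::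
  (nat_lit 1072, nat_lit 40769) ::
  (nat_lit 1088, nat_lit 41820) ::
  (nat_lit 1104, nat_lit 42731) ::
  (nat_lit 1120, nat_lit 43713) ::
  (nat_lit 1136, nat_lit 44801) ::
  (nat_lit 1152, nat_lit 45767) ::
  (nat_lit 1168, nat_lit 46905) ::
  (nat_lit 1184, nat_lit 47910) ::
  (nat_lit 1200, nat_lit 49060) ::
  (nat_lit 1216, nat_lit 50092) ::
  (nat_lit 1232, nat_lit 51113) ::
  (nat_lit 1248, nat_lit 52286) ::
  (nat_lit 1264, nat_lit 53421) ::
  (nat_lit 1280, nat_lit 54676) ::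
  (nat_lit 1296, nat_lit 55788) :: tN_4

def tN_2 : List (Nat × Nat) :=
  (nat_lit 202, nat_lit 2845) ::
  (nat_lit 203, nat_lit 2861) ::
  (nat_lit 204, nat_lit 2888) ::
  (nat_lit 205, nat_lit 2904) ::
  (nat_lit 206, nat_lit 2920) ::
  (nat_lit 207, nat_lit 2949) ::
  (nat_lit 208, nat_lit 2965) ::
  (nat_lit 209, nat_lit 2981) ::
  (nat_lit 210, nat_lit 3004) ::
  (nat_lit 211, nat_lit 3020) ::
  (nat_lit 212, nat_lit 3036) ::
  (nat_lit 213, nat_lit 3066) ::
  (nat_lit 214, nat_lit 3082) ::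
  (nat_lit 215, nat_lit 3109) ::
  (nat_lit 216, nat_lit 3125) ::
  (nat_lit 217, nat_lit 3141) ::
  (nat_lit 218, nat_lit 3170) ::
  (nat_lit 219, nat_lit 3186) ::
  (nat_lit 220, nat_lit 3202) ::
  (nat_lit 221, nat_lit 3231) ::
  (nat_lit 222, nat_lit 3249) ::
  (nat_lit 223, nat_lit 3267) ::
  (nat_lit 224, nat_lit 3302) ::
  (nat_lit 225, nat_lit 3320) ::
  (nat_lit 226, nat_lit 3338) ::
  (nat_lit 227, nat_lit 3369) ::
  (nat_lit 228, nat_lit 3387) ::
  (nat_lit 229, nat_lit 3405) ::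
  (nat_lit 230, nat_lit 3440) ::
  (nat_lit 231, nat_lit 3458) ::
  (nat_lit 232, nat_lit 3488) ::
  (nat_lit 233, nat_lit 3506) ::
  (nat_lit 234, nat_lit 3524) ::
  (nat_lit 235, nat_lit 3557) ::
  (nat_lit 236, nat_lit 3575) ::
  (nat_lit 237, nat_lit 3593) ::
  (nat_lit 238, nat_lit 3632) ::
  (nat_lit 239, nat_lit 3650) ::
  (nat_lit 240, nat_lit 3668) ::
  (nat_lit 241, nat_lit 3698) ::
  (nat_lit 242, nat_lit 3716) ::
  (nat_lit 243, nat_lit 3734) ::
  (nat_lit 244, nat_lit 3766) ::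
  (nat_lit 245, nat_lit 3784) ::
  (nat_lit 246, nat_lit 3802) ::
  (nat_lit 247, nat_lit 3843) ::
  (nat_lit 248, nat_lit 3861) ::
  (nat_lit 249, nat_lit 3894) ::
  (nat_lit 250, nat_lit 3912) ::
  (nat_lit 251, nat_lit 3930) ::
  (nat_lit 252, nat_lit 3955) ::
  (nat_lit 253, nat_lit 3973) ::
  (nat_lit 254, nat_lit 3991) ::
  (nat_lit 255, nat_lit 4023) ::
  (nat_lit 256, nat_lit 4041) ::
  (nat_lit 260, nat_lit 4121) ::
  (nat_lit 264, nat_lit 4224) ::
  (nat_lit 268, nat_lit 4318) ::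
  (nat_lit 272, nat_lit 4424) ::
  (nat_lit 276, nat_lit 4518) ::
  (nat_lit 280, nat_lit 4611) ::
  (nat_lit 284, nat_lit 4717) ::
  (nat_lit 288, nat_lit 4818) ::
  (nat_lit 292, nat_lit 4939) ::
  (nat_lit 296, nat_lit 5044) ::
  (nat_lit 300, nat_lit 5158) ::
  (nat_lit 304, nat_lit 5265) ::
  (nat_lit 308, nat_lit 5374) ::
  (nat_lit 312, nat_lit 5494) ::
  (nat_lit 316, nat_lit 5602) ::
  (nat_lit 320, nat_lit 5738) ::
  (nat_lit 324, nat_lit 5849) ::
  (nat_lit 328, nat_lit 5955) ::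
  (nat_lit 332, nat_lit 6098) ::
  (nat_lit 336, nat_lit 6204) ::
  (nat_lit 340, nat_lit 6321) ::
  (nat_lit 344, nat_lit 6427) ::
  (nat_lit 348, nat_lit 6562) ::
  (nat_lit 352, nat_lit 6669) ::
  (nat_lit 356, nat_lit 6781) ::
  (nat_lit 360, nat_lit 6908) ::
  (nat_lit 364, nat_lit 7035) ::
  (nat_lit 368, nat_lit 7173) ::
  (nat_lit 372, nat_lit 7273) ::
  (nat_lit 376, nat_lit 7413) ::
  (nat_lit 380, nat_lit 7542) ::
  (nat_lit 384, nat_lit 7642) ::
  (nat_lit 388, nat_lit 7778) ::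
  (nat_lit 392, nat_lit 7905) ::
  (nat_lit 396, nat_lit 8040) ::
  (nat_lit 400, nat_lit 8144) ::
  (nat_lit 404, nat_lit 8279) ::
  (nat_lit 408, nat_lit 8417) ::
  (nat_lit 412, nat_lit 8521) ::
  (nat_lit 416, nat_lit 8656) ::
  (nat_lit 420, nat_lit 8796) ::
  (nat_lit 424, nat_lit 8908) ::
  (nat_lit 428, nat_lit 9047) ::
  (nat_lit 432, nat_lit 9201) ::
  (nat_lit 436, nat_lit 9346) :: tN_3

def tN_1 : List (Nat × Nat) :=
  (nat_lit 102, nat_lit 1020) ::
  (nat_lit 103, nat_lit 1035) ::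
  (nat_lit 104, nat_lit 1050) ::
  (nat_lit 105, nat_lit 1063) ::
  (nat_lit 106, nat_lit 1079) ::
  (nat_lit 107, nat_lit 1093) ::
  (nat_lit 108, nat_lit 1105) ::
  (nat_lit 109, nat_lit 1124) ::
  (nat_lit 110, nat_lit 1137) ::
  (nat_lit 111, nat_lit 1153) ::
  (nat_lit 112, nat_lit 1167) ::
  (nat_lit 113, nat_lit 1186) ::
  (nat_lit 114, nat_lit 1205) ::
  (nat_lit 115, nat_lit 1222) ::
  (nat_lit 116, nat_lit 1241) ::
  (nat_lit 117, nat_lit 1256) ::
  (nat_lit 118, nat_lit 1270) ::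
  (nat_lit 119, nat_lit 1288) ::
  (nat_lit 120, nat_lit 1307) ::
  (nat_lit 121, nat_lit 1324) ::
  (nat_lit 122, nat_lit 1342) ::
  (nat_lit 123, nat_lit 1356) ::
  (nat_lit 124, nat_lit 1375) ::
  (nat_lit 125, nat_lit 1392) ::
  (nat_lit 126, nat_lit 1411) ::
  (nat_lit 127, nat_lit 1427) ::
  (nat_lit 128, nat_lit 1447) ::
  (nat_lit 129, nat_lit 1462) ::
  (nat_lit 130, nat_lit 1477) ::
  (nat_lit 131, nat_lit 1494) ::
  (nat_lit 132, nat_lit 1508) ::
  (nat_lit 133, nat_lit 1524) ::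
  (nat_lit 134, nat_lit 1539) ::
  (nat_lit 135, nat_lit 1556) ::
  (nat_lit 136, nat_lit 1578) ::
  (nat_lit 137, nat_lit 1594) ::
  (nat_lit 138, nat_lit 1616) ::
  (nat_lit 139, nat_lit 1632) ::
  (nat_lit 140, nat_lit 1649) ::
  (nat_lit 141, nat_lit 1669) ::
  (nat_lit 142, nat_lit 1687) ::
  (nat_lit 143, nat_lit 1707) ::
  (nat_lit 144, nat_lit 1724) ::
  (nat_lit 145, nat_lit 1748) ::
  (nat_lit 146, nat_lit 1763) ::
  (nat_lit 147, nat_lit 1782) ::
  (nat_lit 148, nat_lit 1801) ::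
  (nat_lit 149, nat_lit 1823) ::
  (nat_lit 150, nat_lit 1840) ::
  (nat_lit 151, nat_lit 1856) ::
  (nat_lit 152, nat_lit 1874) ::
  (nat_lit 153, nat_lit 1893) ::
  (nat_lit 154, nat_lit 1911) ::
  (nat_lit 155, nat_lit 1933) ::
  (nat_lit 156, nat_lit 1951) ::
  (nat_lit 157, nat_lit 1970) ::
  (nat_lit 158, nat_lit 1985) ::
  (nat_lit 159, nat_lit 2002) ::
  (nat_lit 160, nat_lit 2023) ::
  (nat_lit 161, nat_lit 2039) ::
  (nat_lit 162, nat_lit 2062) ::
  (nat_lit 163, nat_lit 2079) ::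
  (nat_lit 164, nat_lit 2095) ::
  (nat_lit 165, nat_lit 2116) ::
  (nat_lit 166, nat_lit 2135) ::
  (nat_lit 167, nat_lit 2159) ::
  (nat_lit 168, nat_lit 2177) ::
  (nat_lit 169, nat_lit 2193) ::
  (nat_lit 170, nat_lit 2213) ::
  (nat_lit 171, nat_lit 2230) ::
  (nat_lit 172, nat_lit 2249) ::
  (nat_lit 173, nat_lit 2267) ::
  (nat_lit 174, nat_lit 2284) ::
  (nat_lit 175, nat_lit 2298) ::
  (nat_lit 176, nat_lit 2317) ::
  (nat_lit 177, nat_lit 2339) ::
  (nat_lit 178, nat_lit 2358) ::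
  (nat_lit 179, nat_lit 2379) ::
  (nat_lit 180, nat_lit 2399) ::
  (nat_lit 181, nat_lit 2419) ::
  (nat_lit 182, nat_lit 2441) ::
  (nat_lit 183, nat_lit 2456) ::
  (nat_lit 184, nat_lit 2485) ::
  (nat_lit 185, nat_lit 2500) ::
  (nat_lit 186, nat_lit 2515) ::
  (nat_lit 187, nat_lit 2549) ::
  (nat_lit 188, nat_lit 2564) ::
  (nat_lit 189, nat_lit 2579) ::
  (nat_lit 190, nat_lit 2612) ::
  (nat_lit 191, nat_lit 2627) ::
  (nat_lit 192, nat_lit 2642) ::
  (nat_lit 193, nat_lit 2668) ::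
  (nat_lit 194, nat_lit 2683) ::
  (nat_lit 195, nat_lit 2698) ::
  (nat_lit 196, nat_lit 2726) ::
  (nat_lit 197, nat_lit 2741) ::
  (nat_lit 198, nat_lit 2770) ::
  (nat_lit 199, nat_lit 2785) ::
  (nat_lit 200, nat_lit 2800) ::
  (nat_lit 201, nat_lit 2829) :: tN_2

def tN : List (Nat × Nat) :=
  (nat_lit 2, nat_lit 4) ::
  (nat_lit 3, nat_lit 7) ::
  (nat_lit 4, nat_lit 10) ::
  (nat_lit 5, nat_lit 13) ::
  (nat_lit 6, nat_lit 16) ::
  (nat_lit 7, nat_lit 18) ::
  (nat_lit 8, nat_lit 23) ::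
  (nat_lit 9, nat_lit 28) ::
  (nat_lit 10, nat_lit 32) ::
  (nat_lit 11, nat_lit 36) ::
  (nat_lit 12, nat_lit 40) ::
  (nat_lit 13, nat_lit 44) ::
  (nat_lit 14, nat_lit 49) ::
  (nat_lit 15, nat_lit 56) ::
  (nat_lit 16, nat_lit 60) ::
  (nat_lit 17, nat_lit 68) ::
  (nat_lit 18, nat_lit 74) ::
  (nat_lit 19, nat_lit 79) ::
  (nat_lit 20, nat_lit 86) ::
  (nat_lit 21, nat_lit 93) ::
  (nat_lit 22, nat_lit 103) ::
  (nat_lit 23, nat_lit 108) ::
  (nat_lit 24, nat_lit 114) ::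
  (nat_lit 25, nat_lit 120) ::
  (nat_lit 26, nat_lit 128) ::
  (nat_lit 27, nat_lit 136) ::
  (nat_lit 28, nat_lit 141) ::
  (nat_lit 29, nat_lit 150) ::
  (nat_lit 30, nat_lit 157) ::
  (nat_lit 31, nat_lit 164) ::
  (nat_lit 32, nat_lit 171) ::
  (nat_lit 33, nat_lit 177) ::
  (nat_lit 34, nat_lit 189) ::
  (nat_lit 35, nat_lit 196) ::
  (nat_lit 36, nat_lit 206) ::
  (nat_lit 37, nat_lit 214) ::
  (nat_lit 38, nat_lit 222) ::
  (nat_lit 39, nat_lit 230) ::
  (nat_lit 40, nat_lit 239) ::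
  (nat_lit 41, nat_lit 246) ::
  (nat_lit 42, nat_lit 257) ::
  (nat_lit 43, nat_lit 269) ::
  (nat_lit 44, nat_lit 277) ::
  (nat_lit 45, nat_lit 284) ::
  (nat_lit 46, nat_lit 294) ::
  (nat_lit 47, nat_lit 301) ::
  (nat_lit 48, nat_lit 309) ::
  (nat_lit 49, nat_lit 318) ::
  (nat_lit 50, nat_lit 329) ::
  (nat_lit 51, nat_lit 341) ::
  (nat_lit 52, nat_lit 351) ::
  (nat_lit 53, nat_lit 360) ::
  (nat_lit 54, nat_lit 370) ::
  (nat_lit 55, nat_lit 380) ::
  (nat_lit 56, nat_lit 391) ::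
  (nat_lit 57, nat_lit 402) ::
  (nat_lit 58, nat_lit 412) ::
  (nat_lit 59, nat_lit 421) ::
  (nat_lit 60, nat_lit 432) ::
  (nat_lit 61, nat_lit 446) ::
  (nat_lit 62, nat_lit 462) ::
  (nat_lit 63, nat_lit 474) ::
  (nat_lit 64, nat_lit 487) ::
  (nat_lit 65, nat_lit 497) ::
  (nat_lit 66, nat_lit 511) ::
  (nat_lit 67, nat_lit 522) ::
  (nat_lit 68, nat_lit 537) ::
  (nat_lit 69, nat_lit 548) ::
  (nat_lit 70, nat_lit 560) ::
  (nat_lit 71, nat_lit 574) ::
  (nat_lit 72, nat_lit 585) ::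
  (nat_lit 73, nat_lit 599) ::
  (nat_lit 74, nat_lit 610) ::
  (nat_lit 75, nat_lit 625) ::
  (nat_lit 76, nat_lit 637) ::
  (nat_lit 77, nat_lit 652) ::
  (nat_lit 78, nat_lit 667) ::
  (nat_lit 79, nat_lit 680) ::
  (nat_lit 80, nat_lit 695) ::
  (nat_lit 81, nat_lit 709) ::
  (nat_lit 82, nat_lit 722) ::
  (nat_lit 83, nat_lit 737) ::
  (nat_lit 84, nat_lit 751) ::
  (nat_lit 85, nat_lit 768) ::
  (nat_lit 86, nat_lit 782) ::
  (nat_lit 87, nat_lit 795) ::
  (nat_lit 88, nat_lit 807) ::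
  (nat_lit 89, nat_lit 820) ::
  (nat_lit 90, nat_lit 835) ::
  (nat_lit 91, nat_lit 847) ::
  (nat_lit 92, nat_lit 862) ::
  (nat_lit 93, nat_lit 875) ::
  (nat_lit 94, nat_lit 894) ::
  (nat_lit 95, nat_lit 908) ::
  (nat_lit 96, nat_lit 922) ::
  (nat_lit 97, nat_lit 937) ::
  (nat_lit 98, nat_lit 949) ::
  (nat_lit 99, nat_lit 971) ::
  (nat_lit 100, nat_lit 984) ::
  (nat_lit 101, nat_lit 1000) :: tN_1

def zs : List Zn :=
  [⟨239, 169, 32, 140, 141, 0, 232649, 1⟩,
   ⟨239, 169, 32, 140, 141, 232649, 232649, 3⟩,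
   ⟨239, 169, 40, 175, 144, 232649, 290812, 1⟩,
   ⟨239, 169, 40, 175, 144, 290812, 290812, 2⟩,
   ⟨239, 169, 36, 133, 113, 261731, 261731, 3⟩,
   ⟨239, 169, 40, 148, 106, 261731, 290812, 1⟩,
   ⟨239, 169, 40, 148, 106, 290812, 290812, 3⟩,
   ⟨239, 169, 44, 163, 100, 290812, 319894, 1⟩,
   ⟨239, 169, 44, 163, 100, 319894, 319894, 3⟩,
   ⟨239, 169, 48, 178, 94, 319894, 348975, 1⟩,
   ⟨239, 169, 48, 178, 94, 348975, 348975, 4⟩,
   ⟨239, 169, 52, 193, 85, 348975, 378057, 1⟩,
   ⟨239, 169, 52, 193, 85, 378057, 378057, 4⟩,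
   ⟨239, 169, 62, 230, 89, 378057, 450761, 1⟩,
   ⟨239, 169, 62, 230, 89, 450761, 450761, 4⟩,
   ⟨239, 169, 60, 202, 71, 436219, 436219, 5⟩,
   ⟨577, 408, 26, 233, 151, 436219, 1101744, 1⟩,
   ⟨577, 408, 26, 233, 151, 1101744, 1101744, 2⟩,
   ⟨577, 408, 26, 233, 135, 1101744, 1101744, 3⟩,
   ⟨577, 408, 30, 269, 129, 1101744, 1271243, 1⟩,
   ⟨577, 408, 30, 269, 129, 1271243, 1271243, 3⟩,
   ⟨577, 408, 34, 305, 123, 1271243, 1440743, 1⟩,
   ⟨577, 408, 34, 305, 123, 1440743, 1440743, 3⟩,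
   ⟨577, 408, 32, 261, 97, 1355993, 1355993, 4⟩,
   ⟨577, 408, 36, 293, 91, 1355993, 1525493, 1⟩,
   ⟨577, 408, 36, 293, 91, 1525493, 1525493, 4⟩,
   ⟨577, 408, 40, 326, 86, 1525493, 1694992, 1⟩,
   ⟨577, 408, 40, 326, 86, 1694992, 1694992, 4⟩,
   ⟨577, 408, 44, 359, 80, 1694992, 1864492, 1⟩,
   ⟨577, 408, 44, 359, 80, 1864492, 1864492, 4⟩,
   ⟨577, 408, 44, 323, 69, 1864492, 1864492, 5⟩,
   ⟨577, 408, 46, 337, 61, 1864492, 1949242, 1⟩,
   ⟨577, 408, 46, 337, 61, 1949242, 1949242, 5⟩,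
   ⟨577, 408, 60, 489, 72, 1949242, 2542489, 1⟩,
   ⟨577, 408, 60, 489, 72, 2542489, 2542489, 5⟩,
   ⟨577, 408, 58, 425, 59, 2457740, 2457740, 6⟩,
   ⟨577, 408, 66, 484, 57, 2457740, 2796739, 1⟩,
   ⟨577, 408, 66, 484, 57, 2796739, 2796739, 6⟩,
   ⟨577, 408, 68, 499, 51, 2796739, 2881489, 1⟩,
   ⟨577, 408, 68, 499, 51, 2881489, 2881489, 7⟩,
   ⟨577, 408, 84, 616, 53, 2881489, 3559487, 1⟩,
   ⟨577, 408, 84, 616, 53, 3559487, 3559487, 6⟩,
   ⟨577, 408, 94, 690, 52, 3559487, 3983236, 1⟩,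
   ⟨577, 408, 94, 690, 52, 3983236, 3983236, 6⟩,
   ⟨1393, 985, 36, 709, 100, 3983236, 8891237, 1⟩,
   ⟨1393, 985, 36, 709, 100, 8891237, 8891237, 4⟩,
   ⟨1393, 985, 36, 638, 83, 8891237, 8891237, 4⟩,
   ⟨1393, 985, 40, 709, 80, 8891237, 9879153, 1⟩,
   ⟨1393, 985, 40, 709, 80, 9879153, 9879153, 4⟩,
   ⟨1393, 985, 42, 744, 75, 9879153, 10373110, 1⟩,
   ⟨1393, 985, 42, 744, 75, 10373110, 10373110, 5⟩,
   ⟨1393, 985, 44, 780, 67, 10373110, 10867068, 1⟩,
   ⟨1393, 985, 44, 780, 67, 10867068, 10867068, 5⟩,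
   ⟨1393, 985, 50, 886, 65, 10867068, 12348942, 1⟩,
   ⟨1393, 985, 50, 886, 65, 12348942, 12348942, 5⟩,
   ⟨1393, 985, 56, 992, 63, 12348942, 13830815, 1⟩,
   ⟨1393, 985, 56, 992, 63, 13830815, 13830815, 5⟩,
   ⟨1393, 985, 54, 851, 53, 13336857, 13336857, 6⟩,
   ⟨1393, 985, 56, 882, 48, 13336857, 13830815, 1⟩,
   ⟨1393, 985, 56, 882, 48, 13830815, 13830815, 7⟩,
   ⟨1393, 985, 64, 1008, 47, 13830815, 15806646, 1⟩,
   ⟨1393, 985, 64, 1008, 47, 15806646, 15806646, 7⟩,
   ⟨1393, 985, 68, 1071, 43, 15806646, 16794562, 1⟩,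
   ⟨1393, 985, 68, 1071, 43, 16794562, 16794562, 8⟩,
   ⟨1393, 985, 76, 1197, 42, 16794562, 18770393, 1⟩,
   ⟨1393, 985, 76, 1197, 42, 18770393, 18770393, 8⟩,
   ⟨1393, 985, 84, 1323, 40, 18770393, 20746224, 1⟩,
   ⟨1393, 985, 84, 1323, 40, 20746224, 20746224, 8⟩,
   ⟨1393, 985, 80, 1103, 33, 19758309, 19758309, 10⟩,
   ⟨1393, 985, 88, 1213, 32, 19758309, 21734140, 1⟩,
   ⟨1393, 985, 88, 1213, 32, 21734140, 21734140, 11⟩,
   ⟨1393, 985, 100, 1378, 32, 21734140, 24697887, 1⟩,
   ⟨1393, 985, 100, 1378, 32, 24697887, 24697887, 11⟩,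
   ⟨1393, 985, 108, 1489, 30, 24697887, 26673718, 1⟩,
   ⟨1393, 985, 108, 1489, 30, 26673718, 26673718, 12⟩,
   ⟨1393, 985, 98, 1158, 23, 24203929, 24203929, 15⟩,
   ⟨1393, 985, 108, 1276, 22, 24203929, 26673718, 1⟩,
   ⟨1393, 985, 108, 1276, 22, 26673718, 26673718, 15⟩,
   ⟨3363, 2378, 50, 1902, 50, 26673718, 71974923, 1⟩,
   ⟨3363, 2378, 50, 1902, 50, 71974923, 71974923, 7⟩,
   ⟨3363, 2378, 48, 1598, 42, 69095926, 69095926, 8⟩,
   ⟨3363, 2378, 56, 1864, 43, 69095926, 80611914, 1⟩,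
   ⟨3363, 2378, 56, 1864, 43, 80611914, 80611914, 8⟩,
   ⟨3363, 2378, 60, 1997, 40, 80611914, 86369908, 1⟩,
   ⟨3363, 2378, 60, 1997, 40, 86369908, 86369908, 9⟩,
   ⟨3363, 2378, 66, 2197, 37, 86369908, 95006899, 1⟩,
   ⟨3363, 2378, 66, 2197, 37, 95006899, 95006899, 9⟩,
   ⟨3363, 2378, 72, 2397, 36, 95006899, 103643890, 1⟩,
   ⟨3363, 2378, 72, 2397, 36, 103643890, 103643890, 10⟩,
   ⟨3363, 2378, 68, 1940, 29, 97885897, 97885897, 12⟩,
   ⟨3363, 2378, 88, 2929, 33, 97885897, 126675867, 1⟩,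
   ⟨3363, 2378, 88, 2929, 33, 126675867, 126675867, 11⟩,
   ⟨3363, 2378, 80, 2282, 26, 115159878, 115159878, 14⟩,
   ⟨3363, 2378, 88, 2511, 25, 115159878, 126675867, 1⟩,
   ⟨3363, 2378, 88, 2511, 25, 126675867, 126675867, 14⟩,
   ⟨3363, 2378, 98, 2796, 24, 126675867, 141070852, 1⟩,
   ⟨3363, 2378, 98, 2796, 24, 141070852, 141070852, 15⟩,
   ⟨3363, 2378, 108, 3081, 23, 141070852, 155465837, 1⟩,
   ⟨3363, 2378, 108, 3081, 23, 155465837, 155465837, 15⟩,
   ⟨3363, 2378, 104, 2967, 19, 149707843, 149707843, 18⟩,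
   ⟨3363, 2378, 104, 2473, 17, 149707843, 149707843, 21⟩,
   ⟨3363, 2378, 108, 2568, 15, 149707843, 155465837, 1⟩,
   ⟨3363, 2378, 108, 2568, 15, 155465837, 155465837, 23⟩,
   ⟨3363, 2378, 108, 2568, 13, 155465837, 155465837, 27⟩,
   ⟨8119, 5741, 64, 5143, 39, 155465837, 536960779, 1⟩,
   ⟨8119, 5741, 64, 5143, 39, 536960779, 536960779, 9⟩,
   ⟨8119, 5741, 70, 5626, 37, 536960779, 587300852, 1⟩,
   ⟨8119, 5741, 70, 5626, 37, 587300852, 587300852, 10⟩,
   ⟨8119, 5741, 62, 4271, 29, 520180755, 520180755, 13⟩,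
   ⟨8119, 5741, 76, 5235, 30, 520180755, 637640926, 1⟩,
   ⟨8119, 5741, 76, 5235, 30, 637640926, 637640926, 12⟩,
   ⟨8119, 5741, 80, 5511, 28, 637640926, 671200974, 1⟩,
   ⟨8119, 5741, 80, 5511, 28, 671200974, 671200974, 13⟩,
   ⟨8119, 5741, 78, 5373, 23, 654420949, 654420949, 15⟩,
   ⟨8119, 5741, 90, 6200, 23, 654420949, 755101096, 1⟩,
   ⟨8119, 5741, 90, 6200, 23, 755101096, 755101096, 15⟩,
   ⟨8119, 5741, 104, 7164, 24, 755101096, 872561267, 1⟩,
   ⟨8119, 5741, 104, 7164, 24, 872561267, 872561267, 15⟩,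
   ⟨8119, 5741, 108, 7440, 21, 872561267, 906121316, 1⟩,
   ⟨8119, 5741, 108, 7440, 21, 906121316, 906121316, 17⟩,
   ⟨8119, 5741, 104, 5970, 18, 872561267, 872561267, 20⟩,
   ⟨8119, 5741, 108, 6200, 16, 872561267, 906121316, 1⟩,
   ⟨8119, 5741, 108, 6200, 16, 906121316, 906121316, 22⟩,
   ⟨8119, 5741, 108, 6200, 14, 906121316, 906121316, 26⟩,
   ⟨8119, 5741, 108, 6200, 12, 906121316, 906121316, 30⟩,
   ⟨8119, 5741, 108, 4960, 11, 906121316, 906121316, 34⟩,
   ⟨8119, 5741, 108, 4960, 9, 906121316, 906121316, 39⟩,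
   ⟨19601, 13860, 76, 10533, 32, 906121316, 3716443679, 1⟩,
   ⟨19601, 13860, 76, 10533, 32, 3716443679, 3716443679, 11⟩,
   ⟨19601, 13860, 72, 9979, 26, 3520841380, 3520841380, 14⟩,
   ⟨19601, 13860, 84, 11642, 27, 3520841380, 4107648277, 1⟩,
   ⟨19601, 13860, 84, 11642, 27, 4107648277, 4107648277, 14⟩,
   ⟨19601, 13860, 78, 10810, 22, 3814244828, 3814244828, 17⟩,
   ⟨19601, 13860, 78, 10810, 19, 3814244828, 3814244828, 19⟩,
   ⟨19601, 13860, 94, 13028, 20, 3814244828, 4596654024, 1⟩,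
   ⟨19601, 13860, 94, 13028, 20, 4596654024, 4596654024, 19⟩,
   ⟨19601, 13860, 100, 13860, 19, 4596654024, 4890057473, 1⟩,
   ⟨19601, 13860, 100, 13860, 19, 4890057473, 4890057473, 20⟩,
   ⟨19601, 13860, 106, 14691, 17, 4890057473, 5183460922, 1⟩,
   ⟨19601, 13860, 106, 14691, 17, 5183460922, 5183460922, 22⟩,
   ⟨19601, 13860, 108, 14968, 15, 5183460922, 5281262071, 1⟩,
   ⟨19601, 13860, 108, 14968, 15, 5281262071, 5281262071, 25⟩,
   ⟨19601, 13860, 108, 11975, 13, 5281262071, 5281262071, 3⟩]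

def lC : List Wn :=
  [⟨32768, 34720, 115, 0, 0⟩,
   ⟨34720, 36800, 123, 0, 0⟩,
   ⟨36800, 39008, 131, 0, 0⟩,
   ⟨39008, 41344, 136, 0, 0⟩,
   ⟨41344, 43808, 146, 0, 0⟩,
   ⟨43808, 46432, 145, 0, 0⟩,
   ⟨46432, 49216, 147, 0, 0⟩,
   ⟨49216, 52160, 149, 0, 0⟩,
   ⟨52160, 55264, 153, 0, 0⟩,
   ⟨55264, 58560, 162, 0, 0⟩,
   ⟨58560, 62048, 173, 0, 0⟩,
   ⟨62048, 65760, 177, 0, 0⟩,
   ⟨65760, 69696, 182, 0, 0⟩,
   ⟨69696, 73856, 185, 0, 0⟩,
   ⟨73856, 81216, 196, 0, 0⟩,
   ⟨81216, 89312, 208, 0, 0⟩,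
   ⟨89312, 98240, 220, 0, 0⟩,
   ⟨98240, 108064, 233, 0, 0⟩,
   ⟨108064, 118848, 244, 0, 0⟩,
   ⟨118848, 130720, 258, 0, 0⟩,
   ⟨130720, 143776, 275, 0, 0⟩,
   ⟨143776, 158144, 295, 0, 0⟩,
   ⟨158144, 181856, 499, 0, 0⟩,
   ⟨181856, 209120, 499, 0, 0⟩,
   ⟨209120, 240480, 499, 0, 0⟩,
   ⟨240480, 276544, 499, 0, 0⟩,
   ⟨276544, 318016, 499, 0, 0⟩,
   ⟨318016, 365696, 722, 0, 0⟩,
   ⟨365696, 420544, 722, 0, 0⟩,
   ⟨420544, 525664, 722, 0, 0⟩,
   ⟨525664, 657056, 722, 0, 0⟩,
   ⟨657056, 821312, 1155, 0, 0⟩,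
   ⟨821312, 1026624, 1155, 0, 0⟩,
   ⟨1026624, 1283264, 1155, 0, 0⟩,
   ⟨1283264, 1604064, 1155, 0, 0⟩,
   ⟨1604064, 2000000, 1682, 0, 0⟩,
   ⟨2000000, 2500000, 1682, 0, 0⟩,
   ⟨2500000, 3149984, 1682, 0, 0⟩]

end

end Pool.Agent.MP_a001a6_co
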